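import Mathlib

/-! A finite soluble group acting transitively on a nontrivial set has an equivariant surjection
onto an affine space over a prime field. -/

set_option linter.all false

namespace Pool.Agent.Lib.MPcff1c1

/-- Affine permutations of an additive commutative group. -/
def IsAff {V : Type*} [AddCommGroup V] (τ : Equiv.Perm V) : Prop :=
  ∃ (A : V ≃+ V) (t : V), ∀ v, τ v = A v + t

theorem exists_elementary_abelian {Q : Type*} [Group Q] [Finite Q] [Group.IsSolvable Q]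
    [Nontrivial Q] :
    ∃ (q : ℕ) (A : Subgroup Q), q.Prime ∧ A.Normal ∧ A ≠ ⊥ ∧ (∀ a ∈ A, ∀ b ∈ A, a * b = b * a) ∧
      ∀ a ∈ A, a ^ q = 1 := by
  classical
  obtain ⟨n, hn⟩ := Group.IsSolvable.solvable (G := Q)
  have hex : ∃ n, derivedSeries Q n = ⊥ := ⟨n, hn⟩
  set m := Nat.find hex with hm
  have hm1 : derivedSeries Q m = ⊥ := Nat.find_spec hex
  have hm0 : m ≠ 0 := by
    intro h0
    rw [h0, derivedSeries_zero] at hm1
    exact top_ne_bot hm1
  obtain ⟨k, hk⟩ := Nat.exists_eq_succ_of_ne_zero hm0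
  have hk1 : derivedSeries Q k ≠ ⊥ := Nat.find_min hex (by omega)
  set A0 := derivedSeries Q k with hA0
  have hnorm : A0.Normal := derivedSeries_normal Q k
  have hcomm : ∀ a ∈ A0, ∀ b ∈ A0, a * b = b * a := by
    rw [hk, derivedSeries_succ, Subgroup.commutator_eq_bot_iff_le_centralizer] at hm1
    intro a ha b hb
    have := hm1 ha
    rw [Subgroup.mem_centralizer_iff] at this
    exact (this b hb).symm
  have hcard : Nat.card A0 ≠ 1 := by
    intro h
    exact hk1 (Subgroup.eq_bot_of_card_eq A0 h)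
  set q := (Nat.card A0).minFac with hq
  have hqp : q.Prime := Nat.minFac_prime hcard
  have : Fact q.Prime := ⟨hqp⟩
  obtain ⟨x, hx⟩ := exists_prime_orderOf_dvd_card' (G := A0) q (Nat.minFac_dvd _)
  let A : Subgroup Q :=
    { carrier := {a | a ∈ A0 ∧ a ^ q = 1}
      one_mem' := ⟨A0.one_mem, one_pow _⟩
      mul_mem' := by
        rintro a b ⟨ha, ha'⟩ ⟨hb, hb'⟩
        refine ⟨A0.mul_mem ha hb, ?_⟩
        have : Commute a b := hcomm a ha b hb
        rw [this.mul_pow, ha', hb', one_mul]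
      inv_mem' := by
        rintro a ⟨ha, ha'⟩
        exact ⟨A0.inv_mem ha, by rw [inv_pow, ha', inv_one]⟩ }
  refine ⟨q, A, hqp, ⟨?_⟩, ?_, ?_, ?_⟩
  · rintro a ⟨ha, ha'⟩ g
    refine ⟨hnorm.conj_mem a ha g, ?_⟩
    rw [conj_pow, ha', mul_one, mul_inv_cancel]
  · intro hbot
    have hxA : (x : Q) ∈ A := by
      refine ⟨x.2, ?_⟩
      have := pow_orderOf_eq_one x
      rw [hx] at this
      simpa using congrArg Subtype.val this
    rw [hbot, Subgroup.mem_bot] at hxA
    have : x = 1 := Subtype.ext hxA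
    rw [this, orderOf_one] at hx
    exact hqp.one_lt.ne hx
  · intro a ha b hb
    exact hcomm a ha.1 b hb.1
  · intro a ha
    exact ha.2

theorem exists_complement {G : Type*} [Group G] [Finite G] [Group.IsSolvable G]
    (S : Subgroup G) (hS : S ≠ ⊤) :
    ∃ (M : Subgroup G) (q : ℕ) (A : Subgroup (G ⧸ M.normalCore)), S ≤ M ∧ q.Prime ∧ A.Normal ∧
      A ≠ ⊥ ∧ (∀ a ∈ A, ∀ b ∈ A, a * b = b * a) ∧ (∀ a ∈ A, a ^ q = 1) ∧
      A ⊔ M.map (QuotientGroup.mk' M.normalCore) = ⊤ ∧
      A ⊓ M.map (QuotientGroup.mk' M.normalCore) = ⊥ := by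
  classical
  obtain ⟨M, hM, hSM⟩ := (eq_top_or_exists_le_coatom S).resolve_left hS
  set π := QuotientGroup.mk' M.normalCore with hπ
  have hker : π.ker = M.normalCore := QuotientGroup.ker_mk' _
  have hπs : Function.Surjective π := QuotientGroup.mk'_surjective _
  have hMc : (M.map π).comap π = M := by
    rw [Subgroup.comap_map_eq, hker]
    exact sup_eq_left.mpr M.normalCore_le
  have : Group.IsSolvable (G ⧸ M.normalCore) := Group.isSolvable_of_surjective hπs
  have : Nontrivial (G ⧸ M.normalCore) := by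
    by_contra hnt
    rw [not_nontrivial_iff_subsingleton] at hnt
    apply hM.1
    rw [eq_top_iff]
    intro g _
    have : π g = π 1 := Subsingleton.elim _ _
    have hg : g ∈ π.ker := by rw [MonoidHom.mem_ker, this, map_one]
    rw [hker] at hg
    exact M.normalCore_le hg
  obtain ⟨q, A, hq, hAn, hAb, hAc, hAq⟩ := exists_elementary_abelian (Q := G ⧸ M.normalCore)
  have hcore : ∀ N : Subgroup (G ⧸ M.normalCore), N.Normal → N ≤ M.map π → N = ⊥ := by
    intro N hN hNM
    have h1 : (N.comap π) ≤ M := le_trans (Subgroup.comap_mono hNM) hMc.le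
    have h2 : (N.comap π) ≤ M.normalCore := by
      have : (N.comap π).Normal := hN.comap π
      exact Subgroup.normal_le_normalCore.mpr h1
    rw [eq_bot_iff, ← Subgroup.map_comap_eq_self_of_surjective hπs N]
    rintro _ ⟨g, hg, rfl⟩
    have : g ∈ π.ker := by rw [hker]; exact h2 hg
    exact this
  have hAM : ¬ A ≤ M.map π := fun h => hAb (hcore A hAn h)
  have hsup : A ⊔ M.map π = ⊤ := by
    have h1 : M ≤ (A ⊔ M.map π).comap π := le_trans hMc.ge (Subgroup.comap_mono le_sup_right)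
    have h2 : M ≠ (A ⊔ M.map π).comap π := by
      intro h
      apply hAM
      have h3 : A ≤ A ⊔ M.map π := le_sup_left
      rw [← Subgroup.map_comap_eq_self_of_surjective hπs (A ⊔ M.map π), ← h] at h3
      exact h3
    have h3 := hM.2 _ (lt_of_le_of_ne h1 h2)
    rw [← Subgroup.map_comap_eq_self_of_surjective hπs (A ⊔ M.map π), h3,
      Subgroup.map_top_of_surjective _ hπs]
  refine ⟨M, q, A, hSM, hq, hAn, hAb, hAc, hAq, hsup, ?_⟩
  apply hcore _ _ inf_le_right
  refine ⟨?_⟩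
  rintro x ⟨hxA, hxM⟩ g
  have hg : g ∈ A ⊔ M.map π := by rw [hsup]; trivial
  have := hAn
  rw [Subgroup.mem_sup_of_normal_left] at hg
  obtain ⟨a, ha, m, hm, rfl⟩ := hg
  have h1 : m * x * m⁻¹ ∈ A := hAn.conj_mem x hxA m
  have h2 : m * x * m⁻¹ ∈ M.map π := Subgroup.mul_mem _ (Subgroup.mul_mem _ hm hxM)
    (Subgroup.inv_mem _ hm)
  have h3 : a * m * x * (a * m)⁻¹ = m * x * m⁻¹ := by
    have := hAc a ha _ h1
    calc a * m * x * (a * m)⁻¹ = (a * (m * x * m⁻¹)) * a⁻¹ := by group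
      _ = m * x * m⁻¹ := by rw [this]; group
  rw [h3]
  exact ⟨h1, h2⟩

theorem exists_addEquiv_pi_aux {V : Type*} [AddCommGroup V] [Finite V] [Nontrivial V] {q : ℕ}
    [Fact q.Prime] [Module (ZMod q) V] :
    ∃ e : ℕ, 1 ≤ e ∧ Nonempty (V ≃+ (Fin e → ZMod q)) := by
  have L : V ≃+ (Fin (Module.finrank (ZMod q) V) → ZMod q) :=
    (Module.finBasis (ZMod q) V).equivFun.toAddEquiv
  generalize Module.finrank (ZMod q) V = e at L
  refine ⟨e, ?_, ⟨L⟩⟩
  rcases Nat.eq_zero_or_pos e with h0 | h0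
  · exfalso
    subst h0
    obtain ⟨x, y, hxy⟩ := exists_pair_ne V
    exact hxy (L.injective (Subsingleton.elim _ _))
  · exact h0

theorem exists_addEquiv_pi {V : Type*} [AddCommGroup V] [Finite V] [Nontrivial V] {q : ℕ}
    (hq : q.Prime) (h : ∀ x : V, q • x = 0) :
    ∃ e : ℕ, 1 ≤ e ∧ Nonempty (V ≃+ (Fin e → ZMod q)) := by
  have : Fact q.Prime := ⟨hq⟩
  letI : Module (ZMod q) V := AddCommGroup.zmodModule h
  exact exists_addEquiv_pi_aux (q := q)

theorem exists_affine_quotient {G X : Type*} [Group G] [Finite G] [Group.IsSolvable G]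
    [MulAction G X] [Nontrivial X] [MulAction.IsPretransitive G X] :
    ∃ (q e : ℕ) (f : X → (Fin e → ZMod q)), q.Prime ∧ 1 ≤ e ∧ Function.Surjective f ∧
      ∀ g : G, ∃ τ : Equiv.Perm (Fin e → ZMod q), IsAff τ ∧ ∀ x, f (g • x) = τ (f x) := by
  classical
  obtain ⟨x0, x1, hx01⟩ := exists_pair_ne X
  have hS : MulAction.stabilizer G x0 ≠ ⊤ := by
    intro h
    obtain ⟨g, hg⟩ := MulAction.exists_smul_eq G x0 x1
    have : g ∈ MulAction.stabilizer G x0 := by rw [h]; trivial
    rw [MulAction.mem_stabilizer_iff, hg] at this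
    exact hx01 this.symm
  obtain ⟨M, q, A, hSM, hq, hAn, hAb, hAc, hAq, hsup, hinf⟩ := exists_complement _ hS
  set π := QuotientGroup.mk' M.normalCore with hπ
  have hπs : Function.Surjective π := QuotientGroup.mk'_surjective _
  have := hAn
  have dec : ∀ y : G ⧸ M.normalCore, ∃ a : A, ∃ m ∈ M.map π, (a : G ⧸ M.normalCore) * m = y := by
    intro y
    have hy : y ∈ A ⊔ M.map π := by rw [hsup]; trivial
    rw [Subgroup.mem_sup_of_normal_left] at hy
    obtain ⟨a, ha, m, hm, rfl⟩ := hy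
    exact ⟨⟨a, ha⟩, m, hm, rfl⟩
  have uniq : ∀ (a a' : A) (m m' : G ⧸ M.normalCore), m ∈ M.map π → m' ∈ M.map π →
      (a : G ⧸ M.normalCore) * m = a' * m' → a = a' := by
    intro a a' m m' hm hm' h
    have h1 : (a' : G ⧸ M.normalCore)⁻¹ * a ∈ A ⊓ M.map π := by
      refine ⟨A.mul_mem (A.inv_mem a'.2) a.2, ?_⟩
      have : (a' : G ⧸ M.normalCore)⁻¹ * a = m' * m⁻¹ := by
        rw [inv_mul_eq_iff_eq_mul, ← mul_assoc, ← h, mul_assoc, mul_inv_cancel, mul_one]
      rw [this]
      exact Subgroup.mul_mem _ hm' (Subgroup.inv_mem _ hm)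
    rw [hinf, Subgroup.mem_bot, inv_mul_eq_one] at h1
    exact Subtype.ext h1.symm
  choose γ hγ using fun x : X => MulAction.exists_smul_eq G x0 x
  choose F m hmM hFm using fun x : X => dec (π (γ x))
  have key : ∀ (x : X) (g : G), g • x0 = x → ∃ m ∈ M.map π, (F x : G ⧸ M.normalCore) * m = π g := by
    intro x g hg
    refine ⟨m x * π ((γ x)⁻¹ * g), Subgroup.mul_mem _ (hmM x) (Subgroup.mem_map_of_mem _ ?_), ?_⟩
    · apply hSM
      rw [MulAction.mem_stabilizer_iff, mul_smul, hg, inv_smul_eq_iff, hγ]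
    · rw [← mul_assoc, hFm, ← map_mul, mul_inv_cancel_left]
  letI : CommGroup A :=
    { (inferInstance : Group A) with mul_comm := fun a b => Subtype.ext (hAc a a.2 b b.2) }
  have hqV : ∀ x : Additive A, q • x = 0 := by
    intro x
    have : (Additive.toMul x) ^ q = 1 := Subtype.ext (by simpa using hAq _ (Additive.toMul x).2)
    exact congrArg Additive.ofMul this
  have hnt : Nontrivial (Additive A) := by
    rw [Subgroup.ne_bot_iff_exists_ne_one] at hAb
    obtain ⟨a, ha⟩ := hAb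
    exact ⟨Additive.ofMul a, 0, fun h => ha (congrArg Additive.toMul h)⟩
  obtain ⟨e, he, ⟨L⟩⟩ := exists_addEquiv_pi hq hqV
  refine ⟨q, e, fun x => L (Additive.ofMul (F x)), hq, he, ?_, ?_⟩
  · intro v
    obtain ⟨g, hg⟩ := hπs ((Additive.toMul (L.symm v) : A) : G ⧸ M.normalCore)
    refine ⟨g • x0, ?_⟩
    obtain ⟨m', hm', hF⟩ := key (g • x0) g rfl
    have : F (g • x0) = Additive.toMul (L.symm v) := by
      apply uniq _ _ m' 1 hm' (Subgroup.one_mem _)
      rw [hF, hg, mul_one]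
    simp only [this, ofMul_toMul, AddEquiv.apply_symm_apply]
  · intro g
    obtain ⟨a0, m0, hm0, ha0⟩ := dec (π g)
    let B : Additive A ≃+ Additive A := MulEquiv.toAdditive (MulAut.conjNormal m0 : A ≃* A)
    let A' : (Fin e → ZMod q) ≃+ (Fin e → ZMod q) := (L.symm.trans B).trans L
    refine ⟨A'.toEquiv.trans (Equiv.addRight (L (Additive.ofMul a0))), ⟨A', _, fun v => rfl⟩, ?_⟩
    intro x
    have h1 : F (g • x) = a0 * (MulAut.conjNormal m0 : A ≃* A) (F x) := by
      obtain ⟨m1, hm1, hF1⟩ := key (g • x) (g * γ x) (by rw [mul_smul, hγ])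
      apply uniq _ _ m1 (m0 * m x) hm1 (Subgroup.mul_mem _ hm0 (hmM x))
      rw [hF1, map_mul, ← ha0, ← hFm x]
      push_cast
      rw [MulAut.conjNormal_apply]
      group
    change L (Additive.ofMul (F (g • x))) = L (B (L.symm (L (Additive.ofMul (F x))))) + L (Additive.ofMul a0)
    rw [AddEquiv.symm_apply_apply, h1, ofMul_mul, map_add, add_comm]
    rfl

end Pool.Agent.Lib.MPcff1c1
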