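import Mathlib

/-! Group theory: coprime triples generate insoluble groups. -/

namespace Pool.Agent.Lib.MPcff1c1

/-- In a soluble group there is no nontrivial triple `a, b, a*b` of elements whose orders are
pairwise coprime. -/
theorem eq_one_of_coprime_triple {G : Type*} [Group G] (H : Subgroup G) [hH : Group.IsSolvable H]
    {a b : G} (ha : a ∈ H) (hb : b ∈ H) {k1 k2 k3 : ℕ} (h12 : Nat.Coprime k1 k2)
    (h13 : Nat.Coprime k1 k3) (h23 : Nat.Coprime k2 k3) (ha1 : a ^ k1 = 1) (hb1 : b ^ k2 = 1)
    (hab : (a * b) ^ k3 = 1) : a = 1 := by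
  classical
  set K : Subgroup G := Subgroup.closure {a, b} with hK
  have hKH : K ≤ H := by
    rw [hK, Subgroup.closure_le]
    intro x hx
    rcases hx with rfl | rfl
    · exact ha
    · exact hb
  haveI : Group.IsSolvable K := solvable_of_solvable_injective (f := Subgroup.inclusion hKH)
    (Subgroup.inclusion_injective hKH)
  have haK : a ∈ K := Subgroup.subset_closure (by simp)
  have hbK : b ∈ K := Subgroup.subset_closure (by simp)
  set a' : K := ⟨a, haK⟩ with ha'
  set b' : K := ⟨b, hbK⟩ with hb'
  let x : Abelianization K := Abelianization.of a'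
  let y : Abelianization K := Abelianization.of b'
  have hx : x ^ k1 = 1 := by
    change (Abelianization.of a') ^ k1 = 1
    rw [← map_pow]
    have : a' ^ k1 = 1 := Subtype.ext (by simpa [ha'] using ha1)
    rw [this, map_one]
  have hy : y ^ k2 = 1 := by
    change (Abelianization.of b') ^ k2 = 1
    rw [← map_pow]
    have : b' ^ k2 = 1 := Subtype.ext (by simpa [hb'] using hb1)
    rw [this, map_one]
  have hxy : x ^ k3 * y ^ k3 = 1 := by
    rw [← mul_pow]
    change (Abelianization.of a' * Abelianization.of b') ^ k3 = 1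
    rw [← map_mul, ← map_pow]
    have : (a' * b') ^ k3 = 1 := Subtype.ext (by simpa [ha', hb'] using hab)
    rw [this, map_one]
  have hy1 : y = 1 := by
    have h1 : y ^ (k3 * k1) = 1 := by
      have := congrArg (· ^ k1) hxy
      simp only [one_pow, mul_pow] at this
      rw [← pow_mul, mul_comm k3 k1, pow_mul, hx, one_pow, one_mul, ← pow_mul] at this
      exact this
    have h2 : orderOf y ∣ k3 * k1 := orderOf_dvd_of_pow_eq_one h1
    have h3 : orderOf y ∣ k2 := orderOf_dvd_of_pow_eq_one hy
    have h4 : Nat.Coprime (k3 * k1) k2 := Nat.Coprime.mul_left h23.symm h12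
    have h5 : orderOf y ∣ 1 := by
      rw [← h4]
      exact Nat.dvd_gcd h2 h3
    exact orderOf_eq_one_iff.mp (Nat.dvd_one.mp h5)
  have hx1 : x = 1 := by
    have h1 : x ^ k3 = 1 := by
      rw [hy1, one_pow, mul_one] at hxy
      exact hxy
    have h2 : orderOf x ∣ k3 := orderOf_dvd_of_pow_eq_one h1
    have h3 : orderOf x ∣ k1 := orderOf_dvd_of_pow_eq_one hx
    have h5 : orderOf x ∣ 1 := by
      rw [← h13]
      exact Nat.dvd_gcd h3 h2
    exact orderOf_eq_one_iff.mp (Nat.dvd_one.mp h5)
  have hxc : a' ∈ commutator K := by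
    have := (QuotientGroup.eq_one_iff (N := commutator K) a').mp hx1
    exact this
  have hyc : b' ∈ commutator K := by
    have := (QuotientGroup.eq_one_iff (N := commutator K) b').mp hy1
    exact this
  have htop : commutator K = ⊤ := by
    rw [eq_top_iff]
    have hle : K ≤ (commutator K).map K.subtype := by
      rw [hK, Subgroup.closure_le]
      intro z hz
      rcases hz with rfl | rfl
      · exact ⟨a', hxc, rfl⟩
      · exact ⟨b', hyc, rfl⟩
    intro z _
    obtain ⟨w, hw, hwz⟩ := hle z.2
    have : w = z := Subtype.ext hwz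
    exact this ▸ hw
  by_contra hne
  haveI : Nontrivial K := ⟨⟨a', 1, fun h => hne (by simpa [ha'] using congrArg Subtype.val h)⟩⟩
  have := IsSolvable.commutator_lt_top_of_nontrivial K
  rw [htop] at this
  exact lt_irrefl _ this

end Pool.Agent.Lib.MPcff1c1
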