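import Mathlib
import Pool.Agent.Lib.MP_cff1c1_al.Affine

/-! Counting equivariant maps for permutations of prime order with exactly one fixed point. -/

set_option linter.all false

namespace Pool.Agent.Lib.MPcff1c1

open Finset

variable {X : Type} [Fintype X] [DecidableEq X]

/-- `u` has `u ^ r = 1`, `r` prime, and exactly one fixed point `x0`. -/
structure Semi (u : Equiv.Perm X) (r : ℕ) (x0 : X) : Prop where
  prime : r.Prime
  pow : u ^ r = 1
  fix : ∀ x, u x = x ↔ x = x0

/-- A representative of the cycle of `x`. -/
noncomputable def rep (u : Equiv.Perm X) (x : X) : X :=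
  Quotient.out (s := Equiv.Perm.SameCycle.setoid u) (Quotient.mk (Equiv.Perm.SameCycle.setoid u) x)

theorem rep_sameCycle (u : Equiv.Perm X) (x : X) : u.SameCycle (rep u x) x := by
  have h := @Quotient.mk_out X (Equiv.Perm.SameCycle.setoid u) x
  exact h

theorem rep_eq_of_sameCycle {u : Equiv.Perm X} {x y : X} (h : u.SameCycle x y) :
    rep u x = rep u y := by
  unfold rep
  have : Quotient.mk (Equiv.Perm.SameCycle.setoid u) x =
      Quotient.mk (Equiv.Perm.SameCycle.setoid u) y := Quotient.sound h
  rw [this]

/-- A transversal of the nontrivial cycles. -/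
noncomputable def tr (u : Equiv.Perm X) (x0 : X) : Finset X :=
  univ.filter (fun x => x ≠ x0 ∧ rep u x = x)

theorem mem_tr {u : Equiv.Perm X} {x0 x : X} : x ∈ tr u x0 ↔ x ≠ x0 ∧ rep u x = x := by
  simp [tr]

namespace Semi

variable {u : Equiv.Perm X} {r : ℕ} {x0 : X}

theorem zpow_x0 (h : Semi u r x0) (k : ℤ) : (u ^ k) x0 = x0 := by
  have h1 : u x0 = x0 := (h.fix x0).2 rfl
  exact Equiv.Perm.zpow_apply_eq_self_of_apply_eq_self h1 k

theorem dvd_of_zpow (h : Semi u r x0) {x : X} (hx : x ≠ x0) {k : ℤ} (hk : (u ^ k) x = x) :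
    (r : ℤ) ∣ k := by
  by_contra hnd
  have hcop : IsCoprime (r : ℤ) k := by
    rw [Int.isCoprime_iff_gcd_eq_one]
    exact (Nat.Prime.coprime_iff_not_dvd h.prime).2 (by
      intro hd
      exact hnd (Int.natCast_dvd.mpr hd))
  obtain ⟨a, b, hab⟩ := hcop
  apply hx
  rw [← h.fix x]
  have h1 : u = u ^ (a * r + b * k) := by rw [hab, zpow_one]
  have h2 : u ^ (a * (r : ℤ) + b * k) = (u ^ k) ^ b := by
    rw [zpow_add, mul_comm a, zpow_mul, zpow_natCast, h.pow, one_zpow, one_mul, mul_comm b,
      zpow_mul]
  rw [h1, h2]
  exact Equiv.Perm.zpow_apply_eq_self_of_apply_eq_self hk b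

theorem pow_x0 (h : Semi u r x0) (k : ℕ) : (u ^ k) x0 = x0 := by
  have := h.zpow_x0 (k : ℤ)
  simpa using this

/-- The main bijection: an invariant set without `x0` consists of full cycles of length `r`. -/
theorem card_erase (h : Semi u r x0) (O : Finset X) (hO : ∀ x, u x ∈ O ↔ x ∈ O) :
    (O.erase x0).card = r * (O ∩ tr u x0).card := by
  have hOk : ∀ (k : ℕ) x, (u ^ k) x ∈ O ↔ x ∈ O := by
    intro k
    induction k with
    | zero => intro x; simp
    | succ k ih => intro x; rw [pow_succ, Equiv.Perm.mul_apply, ih, hO]
  have h1 : ((O ∩ tr u x0) ×ˢ range r).card = (O.erase x0).card := by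
    apply Finset.card_bij (fun (p : X × ℕ) _ => (u ^ p.2) p.1)
    · rintro ⟨t, i⟩ hp
      simp only [mem_product, mem_inter, mem_tr, mem_range] at hp
      obtain ⟨⟨ht, ht0, htr⟩, hi⟩ := hp
      rw [mem_erase]
      refine ⟨?_, (hOk i t).2 ht⟩
      intro heq
      apply ht0
      have : (u ^ i) t = (u ^ i) x0 := by rw [heq, h.pow_x0]
      exact (u ^ i).injective this
    · rintro ⟨t, i⟩ hp ⟨t', i'⟩ hp' heq
      simp only [mem_product, mem_inter, mem_tr, mem_range] at hp hp'
      simp only at heq
      obtain ⟨⟨ht, ht0, htr⟩, hi⟩ := hp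
      obtain ⟨⟨ht', ht0', htr'⟩, hi'⟩ := hp'
      have hsc : u.SameCycle t t' := by
        refine ⟨(i : ℤ) - i', ?_⟩
        rw [sub_eq_add_neg, add_comm, zpow_add, Equiv.Perm.mul_apply, zpow_natCast, heq, zpow_neg,
          zpow_natCast, ← Equiv.Perm.mul_apply, inv_mul_cancel, Equiv.Perm.one_apply]
      have htt : t = t' := by rw [← htr, ← htr', rep_eq_of_sameCycle hsc]
      subst htt
      have hz : (u ^ ((i : ℤ) - i')) t = t := by
        rw [sub_eq_add_neg, add_comm, zpow_add, Equiv.Perm.mul_apply, zpow_natCast, heq, zpow_neg,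
          zpow_natCast, ← Equiv.Perm.mul_apply, inv_mul_cancel, Equiv.Perm.one_apply]
      have hd := h.dvd_of_zpow ht0 hz
      have : i = i' := by
        have h2 : ((i : ℤ) - i') = 0 := by
          apply Int.eq_zero_of_abs_lt_dvd hd
          rw [abs_lt]
          constructor <;> omega
        omega
      rw [this]
    · intro x hx
      rw [mem_erase] at hx
      obtain ⟨hx0, hxO⟩ := hx
      obtain ⟨k, hk⟩ := rep_sameCycle u x
      have hr0 : (0 : ℤ) < r := by exact_mod_cast h.prime.pos
      have hk2 : (u ^ (k % r).toNat) (rep u x) = x := by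
        have e1 : ((k % r).toNat : ℤ) = k % r := Int.toNat_of_nonneg (Int.emod_nonneg _ hr0.ne')
        have e2 : u ^ ((k % r).toNat) = u ^ k := by
          rw [← zpow_natCast, e1]
          conv_rhs => rw [← Int.emod_add_mul_ediv k r]
          rw [zpow_add, zpow_mul, zpow_natCast, h.pow, one_zpow, mul_one]
        rw [e2, hk]
      refine ⟨(rep u x, (k % r).toNat), ?_, hk2⟩
      simp only [mem_product, mem_inter, mem_tr, mem_range]
      refine ⟨⟨?_, ?_, ?_⟩, ?_⟩
      · rw [← hOk (k % r).toNat, hk2]
        exact hxO
      · intro heq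
        apply hx0
        rw [← hk2, heq, h.pow_x0]
      · exact rep_eq_of_sameCycle (rep_sameCycle u x)
      · have := Int.emod_lt_of_pos k hr0
        have h2 := Int.emod_nonneg k hr0.ne'
        omega
  rw [← h1, card_product, card_range, mul_comm]

theorem exists_pow_rep (h : Semi u r x0) (x : X) : ∃ k : ℕ, (u ^ k) (rep u x) = x := by
  obtain ⟨k, hk⟩ := rep_sameCycle u x
  have hr0 : (0 : ℤ) < r := by exact_mod_cast h.prime.pos
  refine ⟨(k % r).toNat, ?_⟩
  have e1 : ((k % r).toNat : ℤ) = k % r := Int.toNat_of_nonneg (Int.emod_nonneg _ hr0.ne')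
  have e2 : u ^ ((k % r).toNat) = u ^ k := by
    rw [← zpow_natCast, e1]
    conv_rhs => rw [← Int.emod_add_mul_ediv k r]
    rw [zpow_add, zpow_mul, zpow_natCast, h.pow, one_zpow, mul_one]
  rw [e2, hk]

theorem rep_mem_tr (h : Semi u r x0) {x : X} (hx : x ≠ x0) : rep u x ∈ tr u x0 := by
  rw [mem_tr]
  refine ⟨?_, rep_eq_of_sameCycle (rep_sameCycle u x)⟩
  intro heq
  obtain ⟨k, hk⟩ := h.exists_pow_rep x
  apply hx
  rw [← hk, heq, h.pow_x0]

theorem card_inv (h : Semi u r x0) (O : Finset X) (hO : ∀ x, u x ∈ O ↔ x ∈ O) :
    O.card = r * (O ∩ tr u x0).card + if x0 ∈ O then 1 else 0 := by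
  rw [← h.card_erase O hO]
  split_ifs with hx
  · rw [card_erase_add_one hx]
  · rw [erase_eq_of_notMem hx, add_zero]

theorem card_tr (h : Semi u r x0) : Fintype.card X = r * (tr u x0).card + 1 := by
  have := h.card_inv univ (by simp)
  simpa using this

end Semi

theorem card_centralizer_prime {α : Type} [Fintype α] [DecidableEq α] {r : ℕ} (hr : r.Prime)
    (σ : Equiv.Perm α) (hσ : σ ^ r = 1) (k : ℕ) (hk : σ.support.card = r * k) :
    Nat.card (Subgroup.centralizer {σ}) =
      (Fintype.card α - r * k).factorial * r ^ k * k.factorial := by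
  have : Fact r.Prime := ⟨hr⟩
  rw [Equiv.Perm.nat_card_centralizer]
  have hct : σ.cycleType = Multiset.replicate (Multiset.card σ.cycleType) r :=
    Multiset.eq_replicate.mpr ⟨rfl, Equiv.Perm.pow_prime_eq_one_iff.mp hσ⟩
  have hs := σ.sum_cycleType
  rw [hct, Multiset.sum_replicate, smul_eq_mul, hk, mul_comm] at hs
  have hc : Multiset.card σ.cycleType = k := Nat.eq_of_mul_eq_mul_left hr.pos hs
  rw [hc] at hct
  rw [hct]
  simp only [Multiset.sum_replicate, smul_eq_mul, Multiset.prod_replicate, mul_comm k r]
  congr 1
  rcases Nat.eq_zero_or_pos k with h0 | h0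
  · subst h0
    simp
  · rw [Multiset.toFinset_replicate, if_neg h0.ne', prod_singleton, Multiset.count_replicate_self]

section eqv

variable {V : Type} [Fintype V] [DecidableEq V]

/-- Equivariant maps to `Option V` all of whose fibres over `V` have size `b`. -/
noncomputable def eqv (u : Equiv.Perm X) (τ : Equiv.Perm V) (b : ℕ) : Finset (X → Option V) :=
  univ.filter (fun f => (∀ x, f (u x) = (f x).map τ) ∧
    ∀ v, (univ.filter (fun x => f x = some v)).card = b)

/-- The support of a map to `Option V`. -/
def supp (f : X → Option V) : Finset X := univ.filter (fun x => (f x).isSome)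

theorem mem_supp {f : X → Option V} {x : X} : x ∈ supp f ↔ (f x).isSome := by simp [supp]

theorem mem_eqv {u : Equiv.Perm X} {τ : Equiv.Perm V} {b : ℕ} {f : X → Option V} :
    f ∈ eqv u τ b ↔ (∀ x, f (u x) = (f x).map τ) ∧
      ∀ v, (univ.filter (fun x => f x = some v)).card = b := by
  simp [eqv]

theorem supp_card {f : X → Option V} {b : ℕ}
    (hf : ∀ v, (univ.filter (fun x => f x = some v)).card = b) :
    (supp f).card = b * Fintype.card V := by
  have : supp f = (univ : Finset V).biUnion (fun v => univ.filter (fun x => f x = some v)) := by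
    ext x
    simp [mem_supp, Option.isSome_iff_exists]
  rw [this, card_biUnion]
  · simp [hf, mul_comm]
  · intro v _ w _ hvw
    rw [Function.onFun, disjoint_left]
    intro x hx hx'
    simp only [mem_filter, mem_univ, true_and] at hx hx'
    rw [hx] at hx'
    exact hvw (Option.some.inj hx')

theorem eqv_pow {u : Equiv.Perm X} {τ : Equiv.Perm V} {f : X → Option V}
    (hf : ∀ x, f (u x) = (f x).map τ) (k : ℕ) (x : X) : f ((u ^ k) x) = (f x).map (τ ^ k) := by
  induction k with
  | zero => simp
  | succ k ih =>
    rw [pow_succ', Equiv.Perm.mul_apply, hf, ih, Option.map_map, pow_succ']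
    rfl

theorem supp_inv {u : Equiv.Perm X} {τ : Equiv.Perm V} {f : X → Option V}
    (hf : ∀ x, f (u x) = (f x).map τ) (x : X) : u x ∈ supp f ↔ x ∈ supp f := by
  rw [mem_supp, mem_supp, hf]
  simp

variable {u : Equiv.Perm X} {r : ℕ} {x0 : X} {τ : Equiv.Perm V}

theorem supp_tr_card (h : Semi u r x0) {f : X → Option V} {b : ℕ} (hf : f ∈ eqv u τ b) :
    (supp f ∩ tr u x0).card = (b * Fintype.card V) / r ∧
      (b * Fintype.card V) % r = (if x0 ∈ supp f then 1 else 0) := by
  rw [mem_eqv] at hf
  have h1 := h.card_inv (supp f) (supp_inv hf.1)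
  rw [supp_card hf.2] at h1
  have hr : 1 < r := h.prime.one_lt
  have h2 : (if x0 ∈ supp f then 1 else 0) < r := by split_ifs <;> omega
  rw [h1]
  constructor
  · rw [Nat.mul_add_div h.prime.pos, Nat.div_eq_of_lt h2, add_zero]
  · rw [Nat.mul_add_mod, Nat.mod_eq_of_lt h2]

theorem eqv_ext (h : Semi u r x0) {f f' : X → Option V} (hf : ∀ x, f (u x) = (f x).map τ)
    (hf' : ∀ x, f' (u x) = (f' x).map τ) (h0 : f x0 = f' x0) (hT : ∀ t ∈ tr u x0, f t = f' t) :
    f = f' := by
  funext x
  by_cases hx : x = x0
  · rw [hx, h0]
  · obtain ⟨k, hk⟩ := h.exists_pow_rep x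
    rw [← hk, eqv_pow hf, eqv_pow hf', hT _ (h.rep_mem_tr hx)]

/-- Crude bound for the number of equivariant maps. -/
theorem card_eqv_le (h : Semi u r x0) (b : ℕ) :
    (eqv u τ b).card ≤ if (b * Fintype.card V) % r ≤ 1 then
      ((tr u x0).card).choose ((b * Fintype.card V) / r) *
        (Fintype.card V) ^ ((b * Fintype.card V) / r + (b * Fintype.card V) % r) else 0 := by
  set N := b * Fintype.card V with hN
  split_ifs with hmod
  · set E : Finset X := if N % r = 1 then {x0} else ∅ with hE
    have hx0T : x0 ∉ tr u x0 := by simp [mem_tr]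
    have hEc : E.card = N % r := by
      rw [hE]; split_ifs with h1
      · simp [h1]
      · simp; omega
    let D : Finset X → Finset (X → Option V) := fun S =>
      Fintype.piFinset (fun x => if x ∈ S ∪ E then (univ : Finset V).image some else {none})
    have hD : ∀ S ∈ powersetCard (N / r) (tr u x0),
        (D S).card = (Fintype.card V) ^ (N / r + N % r) := by
      intro S hS
      rw [mem_powersetCard] at hS
      rw [Fintype.card_piFinset]
      have h1 : ∀ x : X, (if x ∈ S ∪ E then (univ : Finset V).image some else {none}).card =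
          if x ∈ S ∪ E then Fintype.card V else 1 := by
        intro x
        split_ifs
        · rw [card_image_of_injective _ (Option.some_injective V), card_univ]
        · simp
      rw [prod_congr rfl (fun x _ => h1 x), prod_ite_mem, univ_inter, prod_const,
        card_union_of_disjoint, hS.2, hEc]
      rw [disjoint_left]
      intro x hx hx'
      rw [hE] at hx'
      split_ifs at hx' with h2
      · rw [mem_singleton] at hx'
        exact hx0T (hx' ▸ hS.1 hx)
      · simp at hx'
    have hmap : (eqv u τ b).card ≤ ((powersetCard (N / r) (tr u x0)).biUnion D).card := by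
      apply card_le_card_of_injOn (fun f x => if x ∈ tr u x0 ∨ x = x0 then f x else none)
      · intro f hf
        have hf' := mem_coe.1 hf
        obtain ⟨h1, h2⟩ := supp_tr_card h hf'
        rw [← hN] at h1 h2
        rw [mem_coe, mem_biUnion]
        refine ⟨supp f ∩ tr u x0, ?_, ?_⟩
        · rw [mem_powersetCard]
          exact ⟨inter_subset_right, h1⟩
        · rw [Fintype.mem_piFinset]
          intro x
          by_cases hx : x ∈ supp f ∩ tr u x0 ∪ E
          · rw [if_pos hx]
            have hx1 : x ∈ tr u x0 ∨ x = x0 := by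
              rw [mem_union, mem_inter] at hx
              rcases hx with hx | hx
              · exact Or.inl hx.2
              · rw [hE] at hx
                split_ifs at hx
                · right; simpa using hx
                · simp at hx
            have hx2 : x ∈ supp f := by
              rw [mem_union, mem_inter] at hx
              rcases hx with hx | hx
              · exact hx.1
              · rw [hE] at hx
                split_ifs at hx with h3
                · rw [mem_singleton] at hx
                  rw [hx]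
                  by_contra hcon
                  rw [if_neg hcon] at h2
                  omega
                · simp at hx
            rw [mem_supp, Option.isSome_iff_exists] at hx2
            obtain ⟨v, hv⟩ := hx2
            simp [hx1, hv]
          · rw [if_neg hx]
            rw [mem_union, not_or, mem_inter, not_and_or] at hx
            obtain ⟨hxa, hxE⟩ := hx
            simp only [mem_singleton]
            split_ifs with hx1
            · by_contra hne
              have hxs : x ∈ supp f := by
                rw [mem_supp, Option.isSome_iff_ne_none]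
                exact hne
              rcases hx1 with hx1 | hx1
              · rcases hxa with hxa | hxa
                · exact hxa hxs
                · exact hxa hx1
              · subst hx1
                rw [if_pos hxs] at h2
                apply hxE
                rw [hE, if_pos h2]
                simp
            · rfl
      · intro f hf f' hf' heq
        have hf1 := (mem_eqv.1 (mem_coe.1 hf)).1
        have hf1' := (mem_eqv.1 (mem_coe.1 hf')).1
        apply eqv_ext h hf1 hf1'
        · have := congrFun heq x0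
          simpa using this
        · intro t ht
          have := congrFun heq t
          simpa [ht] using this
    refine hmap.trans (card_biUnion_le.trans ?_)
    rw [sum_congr rfl hD, sum_const, card_powersetCard, smul_eq_mul]
  · rw [Nat.le_zero, card_eq_zero]
    rw [eq_empty_iff_forall_notMem]
    intro f hf
    obtain ⟨_, h2⟩ := supp_tr_card h hf
    rw [← hN] at h2
    apply hmod
    rw [h2]
    split_ifs <;> omega

/-- Extensionality for equivariant maps with equal supports. -/
theorem mem_supp_iff_rep (h : Semi u r x0) {f : X → Option V} (hf : ∀ x, f (u x) = (f x).map τ)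
    {x : X} (hx : x ≠ x0) : x ∈ supp f ↔ rep u x ∈ supp f ∩ tr u x0 := by
  obtain ⟨k, hk⟩ := h.exists_pow_rep x
  rw [mem_inter, mem_supp, mem_supp]
  have h1 : f x = (f (rep u x)).map (τ ^ k) := by
    conv_lhs => rw [← hk, eqv_pow hf]
  rw [h1]
  simp [h.rep_mem_tr hx]

theorem card_fiber_le (h : Semi u r x0) (W : Finset X)
    (hmod : Fintype.card V % r ≤ 1) :
    ((eqv u τ 1).filter (fun f => supp f ∩ tr u x0 = W)).card ≤
      r ^ (Fintype.card V / r) * (Fintype.card V / r).factorial := by
  classical
  set N := Fintype.card V with hN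
  rcases ((eqv u τ 1).filter (fun f => supp f ∩ tr u x0 = W)).eq_empty_or_nonempty with he | he
  · rw [he, card_empty]
    exact Nat.zero_le _
  obtain ⟨f0, hf0⟩ := he
  rw [mem_filter] at hf0
  obtain ⟨hf0, hW0⟩ := hf0
  set O := supp f0 with hO
  have hsupp : ∀ f ∈ (eqv u τ 1).filter (fun f => supp f ∩ tr u x0 = W), supp f = O := by
    intro f hf
    rw [mem_filter] at hf
    obtain ⟨hf, hW⟩ := hf
    ext x
    by_cases hx : x = x0
    · subst hx
      have h1 := (supp_tr_card h hf).2
      have h2 := (supp_tr_card h hf0).2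
      rw [h1] at h2
      by_cases ha : x ∈ supp f <;> by_cases hb : x ∈ supp f0 <;> simp_all
    · rw [mem_supp_iff_rep h (mem_eqv.1 hf).1 hx, hW, hO,
        mem_supp_iff_rep h (mem_eqv.1 hf0).1 hx, hW0]
  -- the bijection attached to a map
  have hbij : ∀ f ∈ (eqv u τ 1).filter (fun f => supp f ∩ tr u x0 = W),
      ∃ e : {x // x ∈ O} ≃ V, ∀ x : {x // x ∈ O}, f x = some (e x) := by
    intro f hf
    have hs := hsupp f hf
    rw [mem_filter] at hf
    have hfib := (mem_eqv.1 hf.1).2
    have hsome : ∀ x : {x // x ∈ O}, (f x).isSome := by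
      intro x
      rw [← mem_supp, hs]
      exact x.2
    have hinj : Function.Injective (fun x : {x // x ∈ O} => (f x).get (hsome x)) := by
      intro x y hxy
      simp only at hxy
      have h1 := hfib ((f x).get (hsome x))
      rw [card_eq_one] at h1
      obtain ⟨z, hz⟩ := h1
      have hx : (x : X) ∈ univ.filter (fun a => f a = some ((f x).get (hsome x))) := by simp
      have hy : (y : X) ∈ univ.filter (fun a => f a = some ((f x).get (hsome x))) := by
        rw [mem_filter]
        refine ⟨mem_univ _, ?_⟩
        rw [hxy]; simp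
      rw [hz, mem_singleton] at hx hy
      exact Subtype.ext (hx.trans hy.symm)
    have hsurj : Function.Surjective (fun x : {x // x ∈ O} => (f x).get (hsome x)) := by
      intro v
      have h1 := hfib v
      rw [card_eq_one] at h1
      obtain ⟨z, hz⟩ := h1
      have hz1 : z ∈ univ.filter (fun a => f a = some v) := by rw [hz]; simp
      rw [mem_filter] at hz1
      have hzO : z ∈ O := by
        rw [← hs, mem_supp, hz1.2]; rfl
      refine ⟨⟨z, hzO⟩, ?_⟩
      simp [hz1.2]
    exact ⟨Equiv.ofBijective _ ⟨hinj, hsurj⟩, fun x => (Option.some_get (hsome x)).symm⟩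
  have hmem0 : f0 ∈ (eqv u τ 1).filter (fun f => supp f ∩ tr u x0 = W) := by
    rw [mem_filter]; exact ⟨hf0, hW0⟩
  have hne : Nonempty ({x // x ∈ O} ≃ V) := ⟨(hbij f0 hmem0).choose⟩
  choose! e he using hbij
  have hOinv : ∀ x, u x ∈ O ↔ x ∈ O := supp_inv (mem_eqv.1 hf0).1
  set uO : Equiv.Perm {x // x ∈ O} := u.subtypePerm hOinv with huO
  have hcomm : ∀ f ∈ (eqv u τ 1).filter (fun f => supp f ∩ tr u x0 = W),
      ((e f).trans (e f0).symm : Equiv.Perm {x // x ∈ O}) ∈ Subgroup.centralizer {uO} := by
    intro f hf
    rw [Subgroup.mem_centralizer_singleton_iff]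
    ext x
    have hτ : ∀ f ∈ (eqv u τ 1).filter (fun f => supp f ∩ tr u x0 = W), ∀ x,
        e f (uO x) = τ (e f x) := by
      intro f hf x
      have h1 := he f hf (uO x)
      have h2 := he f hf x
      have h3 := (mem_eqv.1 (mem_filter.1 hf).1).1 x
      have h4 : ((uO x : {x // x ∈ O}) : X) = u x := rfl
      rw [h4, h3, h2] at h1
      simpa using h1.symm
    congr 1
    simp only [Equiv.Perm.mul_apply, Equiv.trans_apply]
    rw [hτ f hf, Equiv.symm_apply_eq, hτ f0 hmem0, Equiv.apply_symm_apply]
  have hle : ((eqv u τ 1).filter (fun f => supp f ∩ tr u x0 = W)).card ≤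
      Nat.card (Subgroup.centralizer {uO}) := by
    rw [Nat.card_eq_fintype_card]
    have h1 : ((eqv u τ 1).filter (fun f => supp f ∩ tr u x0 = W)).card =
      Fintype.card {f // f ∈ (eqv u τ 1).filter (fun f => supp f ∩ tr u x0 = W)} :=
      (Fintype.card_coe _).symm
    rw [h1]
    apply Fintype.card_le_of_injective
      (fun f => (⟨(e f.1).trans (e f0).symm, hcomm f.1 f.2⟩ : Subgroup.centralizer {uO}))
    intro f f' hff
    have h2 : (e f.1).trans (e f0).symm = (e f'.1).trans (e f0).symm := congrArg Subtype.val hff
    have h3 : ∀ x, e f.1 x = e f'.1 x := by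
      intro x
      have := congrArg (fun (σ : Equiv.Perm {x // x ∈ O}) => e f0 (σ x)) h2
      simpa using this
    apply Subtype.ext
    funext x
    by_cases hx : x ∈ O
    · have h4 := he f.1 f.2 ⟨x, hx⟩
      have h5 := he f'.1 f'.2 ⟨x, hx⟩
      simp only at h4 h5
      rw [h4, h5, h3]
    · have h4 : x ∉ supp f.1 := by rw [hsupp f.1 f.2]; exact hx
      have h5 : x ∉ supp f'.1 := by rw [hsupp f'.1 f'.2]; exact hx
      rw [mem_supp] at h4 h5
      rw [Option.not_isSome_iff_eq_none] at h4 h5
      rw [h4, h5]
  refine hle.trans ?_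
  have hsup : uO.support.card = r * (N / r) := by
    have h1 : uO.support.card = (O.erase x0).card := by
      have : uO.support.map (Function.Embedding.subtype _) = O.erase x0 := by
        ext x
        simp only [mem_map, Equiv.Perm.mem_support, Function.Embedding.subtype_apply, mem_erase]
        constructor
        · rintro ⟨y, hy, rfl⟩
          refine ⟨?_, y.2⟩
          intro hyx
          apply hy
          apply Subtype.ext
          exact (h.fix _).2 hyx
        · rintro ⟨hx, hxO⟩
          refine ⟨⟨x, hxO⟩, ?_, rfl⟩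
          intro hh
          apply hx
          exact (h.fix _).1 (congrArg Subtype.val hh)
      rw [← this, card_map]
    rw [h1, h.card_erase O hOinv]
    have := (supp_tr_card h hf0).1
    rw [one_mul] at this
    rw [this]
  have hpow : uO ^ r = 1 := by
    ext x
    have : ((uO ^ r) x : X) = (u ^ r) x := by
      rw [huO, Equiv.Perm.subtypePerm_pow]
      rfl
    rw [this, h.pow]
    rfl
  rw [card_centralizer_prime h.prime uO hpow (N / r) hsup]
  have hcO : Fintype.card {x // x ∈ O} = N := by
    rw [Fintype.card_coe, hO, supp_card (mem_eqv.1 hf0).2, one_mul]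
  have h5 : Fintype.card {x // x ∈ O} - r * (N / r) ≤ 1 := by
    rw [hcO]
    have := Nat.div_add_mod N r
    omega
  have h6 : (Fintype.card {x // x ∈ O} - r * (N / r)).factorial = 1 :=
    Nat.factorial_eq_one.2 h5
  rw [h6, one_mul]

/-- Refined bound for the number of equivariant maps with fibres of size one. -/
theorem card_eqv_one_le (h : Semi u r x0) :
    (eqv u τ 1).card ≤ if (Fintype.card V) % r ≤ 1 then
      ((tr u x0).card).choose ((Fintype.card V) / r) *
        (r ^ ((Fintype.card V) / r) * ((Fintype.card V) / r).factorial) else 0 := by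
  split_ifs with hmod
  · have h1 : (eqv u τ 1).card ≤ ∑ W ∈ powersetCard (Fintype.card V / r) (tr u x0),
        ((eqv u τ 1).filter (fun f => supp f ∩ tr u x0 = W)).card := by
      rw [← card_eq_sum_card_fiberwise]
      intro f hf
      rw [mem_coe, mem_powersetCard]
      refine ⟨inter_subset_right, ?_⟩
      have := (supp_tr_card h (mem_coe.1 hf)).1
      rw [one_mul] at this
      exact this
    refine h1.trans ?_
    refine (sum_le_card_nsmul _ _ _ (fun W _ => card_fiber_le h W hmod)).trans ?_
    rw [card_powersetCard, smul_eq_mul]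
  · have := card_eqv_le (τ := τ) h 1
    rw [one_mul, if_neg hmod] at this
    exact this

end eqv

end Pool.Agent.Lib.MPcff1c1
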