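import Mathlib
import Pool.Agent.Lib.MP_cff1c1_al.Count

/-! Double counting of permutations `g` such that `u` and `g⁻¹ w g` preserve a common map onto an
affine space. -/

set_option linter.all false

namespace Pool.Agent.Lib.MPcff1c1

open Finset

section aff

variable {V : Type} [AddCommGroup V]

theorem IsAff.one : IsAff (1 : Equiv.Perm V) := ⟨AddEquiv.refl V, 0, fun v => by simp⟩

theorem IsAff.mul {σ τ : Equiv.Perm V} (hσ : IsAff σ) (hτ : IsAff τ) : IsAff (σ * τ) := by
  obtain ⟨A, s, hA⟩ := hσ
  obtain ⟨B, t, hB⟩ := hτ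
  refine ⟨B.trans A, A t + s, fun v => ?_⟩
  rw [Equiv.Perm.mul_apply, hB, hA, map_add, AddEquiv.trans_apply, add_assoc]

theorem IsAff.inv {σ : Equiv.Perm V} (hσ : IsAff σ) : IsAff σ⁻¹ := by
  obtain ⟨A, s, hA⟩ := hσ
  refine ⟨A.symm, - A.symm s, fun v => ?_⟩
  rw [Equiv.Perm.inv_eq_iff_eq, hA, map_add, map_neg, AddEquiv.apply_symm_apply,
    AddEquiv.apply_symm_apply]
  simp

end aff

variable {X : Type} [Fintype X] [DecidableEq X]
variable {V : Type} [AddCommGroup V] [Fintype V] [DecidableEq V]

open Classical in
/-- The affine permutations of `V`. -/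
noncomputable def affs (V : Type) [AddCommGroup V] [Fintype V] [DecidableEq V] :
    Finset (Equiv.Perm V) := univ.filter (fun τ => IsAff τ)

theorem mem_affs {τ : Equiv.Perm V} : τ ∈ affs V ↔ IsAff τ := by simp [affs]

theorem affs_pos : 0 < (affs V).card := card_pos.2 ⟨1, mem_affs.2 IsAff.one⟩

open Classical in
/-- Maps to `Option V` equivariant for `u` acting through some affine permutation, all of whose
fibres over `V` have size `b`. -/
noncomputable def eqa (V : Type) [AddCommGroup V] [Fintype V] [DecidableEq V]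
    (u : Equiv.Perm X) (b : ℕ) : Finset (X → Option V) :=
  univ.filter (fun f => (∃ τ : Equiv.Perm V, IsAff τ ∧ ∀ x, f (u x) = (f x).map τ) ∧
    ∀ v, (univ.filter (fun x => f x = some v)).card = b)

theorem mem_eqa {u : Equiv.Perm X} {b : ℕ} {f : X → Option V} :
    f ∈ eqa V u b ↔ (∃ τ : Equiv.Perm V, IsAff τ ∧ ∀ x, f (u x) = (f x).map τ) ∧
      ∀ v, (univ.filter (fun x => f x = some v)).card = b := by
  simp [eqa]

theorem card_eqa_le {u : Equiv.Perm X} {b c : ℕ}
    (hc : ∀ τ : Equiv.Perm V, (eqv u τ b).card ≤ c) : (eqa V u b).card ≤ (affs V).card * c := by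
  have h1 : eqa V u b ⊆ (affs V).biUnion (fun τ => eqv u τ b) := by
    intro f hf
    rw [mem_eqa] at hf
    obtain ⟨⟨τ, hτ, hf1⟩, hf2⟩ := hf
    rw [mem_biUnion]
    exact ⟨τ, mem_affs.2 hτ, mem_eqv.2 ⟨hf1, hf2⟩⟩
  refine (card_le_card h1).trans (card_biUnion_le.trans ?_)
  refine (sum_le_card_nsmul _ _ c (fun τ _ => hc τ)).trans ?_
  rw [smul_eq_mul]

theorem eqa_conj {w g : Equiv.Perm X} {b : ℕ} {f : X → Option V} :
    f ∈ eqa V (g⁻¹ * w * g) b ↔ (fun x => f (g⁻¹ x)) ∈ eqa V w b := by
  rw [mem_eqa, mem_eqa]
  have h2 : ∀ v, (univ.filter (fun x => f (g⁻¹ x) = some v)).card =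
      (univ.filter (fun x => f x = some v)).card := by
    intro v
    have : (univ.filter (fun x => f x = some v)).map g.toEmbedding =
        univ.filter (fun x => f (g⁻¹ x) = some v) := by
      ext x
      simp only [mem_map, mem_filter, mem_univ, true_and, Equiv.coe_toEmbedding]
      constructor
      · rintro ⟨y, hy, rfl⟩
        simpa using hy
      · intro hx
        exact ⟨g⁻¹ x, hx, by simp⟩
    rw [← this, card_map]
  constructor
  · rintro ⟨⟨τ, hτ, hf⟩, hb⟩
    refine ⟨⟨τ, hτ, fun x => ?_⟩, fun v => by rw [h2, hb]⟩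
    have := hf (g⁻¹ x)
    simp only [Equiv.Perm.mul_apply] at this
    rw [← this]
    simp
  · rintro ⟨⟨τ, hτ, hf⟩, hb⟩
    refine ⟨⟨τ, hτ, fun x => ?_⟩, fun v => by rw [← h2, hb]⟩
    have := hf (g x)
    simp only [Equiv.Perm.mul_apply]
    rw [this]
    simp

theorem card_intertwine_le (f f' : X → Option V) (b : ℕ)
    (hf' : ∀ v, (univ.filter (fun x => f' x = some v)).card = b) :
    (univ.filter (fun g : Equiv.Perm X => (fun x => f (g⁻¹ x)) = f')).card ≤
      b.factorial ^ (Fintype.card V) * (Fintype.card X - b * Fintype.card V).factorial := by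
  rcases (univ.filter (fun g : Equiv.Perm X => (fun x => f (g⁻¹ x)) = f')).eq_empty_or_nonempty
    with he | ⟨g0, hg0⟩
  · rw [he, card_empty]; exact Nat.zero_le _
  rw [mem_filter] at hg0
  have hg0' := hg0.2
  have h1 : (univ.filter (fun g : Equiv.Perm X => (fun x => f (g⁻¹ x)) = f')).card ≤
      Fintype.card {h : Equiv.Perm X // f' ∘ h = f'} := by
    rw [Fintype.card_subtype]
    apply card_le_card_of_injOn (fun g => g * g0⁻¹)
    · intro g hg
      rw [mem_coe, mem_filter] at hg
      rw [mem_coe, mem_filter]
      refine ⟨mem_univ _, ?_⟩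
      funext x
      have h2 := congrFun hg.2 (g (g0⁻¹ x))
      have h3 := congrFun hg0' x
      simp only [Function.comp_apply, Equiv.Perm.mul_apply] at h2 h3 ⊢
      rw [← h2, ← h3]
      simp
    · intro g hg g' hg' heq
      exact mul_right_cancel heq
  refine h1.trans (le_of_eq ?_)
  rw [DomMulAct.stabilizer_card, Fintype.prod_option]
  have h4 : ∀ v : V, (Fintype.card {a // f' a = some v}).factorial = b.factorial := by
    intro v
    rw [Fintype.card_subtype, hf']
  rw [prod_congr rfl (fun v _ => h4 v), prod_const, card_univ, mul_comm]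
  congr 2
  have h5 := supp_card hf'
  have h6 : Fintype.card {a // f' a = none} = (univ \ supp f').card := by
    rw [Fintype.card_subtype]
    congr 1
    ext x
    simp [mem_supp]
  rw [h6, card_sdiff_of_subset (subset_univ _), h5, card_univ]

open Classical in
/-- The bad permutations. -/
noncomputable def bad (V : Type) [AddCommGroup V] [Fintype V] [DecidableEq V]
    (u w : Equiv.Perm X) (b : ℕ) : Finset (Equiv.Perm X) :=
  univ.filter (fun g => ∃ f, f ∈ eqa V u b ∧ f ∈ eqa V (g⁻¹ * w * g) b)

theorem card_bad_le {u w : Equiv.Perm X} {b cu cw : ℕ} (hb : 1 ≤ b)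
    (hu : ∀ τ : Equiv.Perm V, (eqv u τ b).card ≤ cu)
    (hw : ∀ τ : Equiv.Perm V, (eqv w τ b).card ≤ cw) :
    (bad V u w b).card ≤ (affs V).card * (cu * cw *
      (b.factorial ^ (Fintype.card V) * (Fintype.card X - b * Fintype.card V).factorial)) := by
  classical
  set M := b.factorial ^ (Fintype.card V) * (Fintype.card X - b * Fintype.card V).factorial with hM
  let S : Finset (Equiv.Perm X × (X → Option V)) :=
    univ.filter (fun p => p.2 ∈ eqa V u b ∧ (fun x => p.2 (p.1⁻¹ x)) ∈ eqa V w b)
  have hS1 : (bad V u w b).card * (affs V).card ≤ S.card := by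
    have h1 : S.card = ∑ g : Equiv.Perm X, (S.filter (fun p => p.1 = g)).card :=
      card_eq_sum_card_fiberwise (fun _ _ => mem_coe.2 (mem_univ _))
    rw [h1]
    have h2 : (bad V u w b).card * (affs V).card ≤
        ∑ g ∈ bad V u w b, (S.filter (fun p => p.1 = g)).card := by
      rw [← smul_eq_mul]
      apply card_nsmul_le_sum
      intro g hg
      rw [bad, mem_filter] at hg
      obtain ⟨_, f, hfu, hfw⟩ := hg
      rw [eqa_conj] at hfw
      apply card_le_card_of_injOn
        (fun α : Equiv.Perm V => ((g, fun x => (f x).map α) : Equiv.Perm X × (X → Option V)))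
      · intro α hα
        rw [mem_coe, mem_affs] at hα
        rw [mem_coe, mem_filter, mem_filter]
        have key : ∀ (y : Equiv.Perm X) (f : X → Option V), f ∈ eqa V y b →
            (fun x => (f x).map α) ∈ eqa V y b := by
          intro y f hf
          rw [mem_eqa] at hf ⊢
          obtain ⟨⟨τ, hτ, hf1⟩, hf2⟩ := hf
          refine ⟨⟨α * τ * α⁻¹, (hα.mul hτ).mul hα.inv, fun x => ?_⟩, fun v => ?_⟩
          · simp only [hf1, Option.map_map]
            congr 1
            funext v
            simp
          · rw [← hf2 (α⁻¹ v)]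
            congr 1
            ext x
            simp only [mem_filter, mem_univ, true_and]
            rw [Option.map_eq_some_iff]
            constructor
            · rintro ⟨a, ha, rfl⟩
              simp [ha]
            · intro hx
              exact ⟨_, hx, by simp⟩
        exact ⟨⟨mem_univ _, key u f hfu, key w _ hfw⟩, rfl⟩
      · intro α hα β hβ heq
        simp only [Prod.mk.injEq, true_and] at heq
        ext v
        have h3 := (mem_eqa.1 hfu).2 v
        have h4 : 0 < (univ.filter (fun x => f x = some v)).card := by omega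
        obtain ⟨x, hx⟩ := card_pos.1 h4
        rw [mem_filter] at hx
        have h5 := congrFun heq x
        simp only [hx.2, Option.map_some] at h5
        exact Option.some.inj h5
    exact h2.trans (sum_le_sum_of_subset (subset_univ _))
  have hS2 : S.card ≤ M * ((eqa V u b).card * (eqa V w b).card) := by
    have h1 := card_le_mul_card_image (f := fun p : Equiv.Perm X × (X → Option V) =>
      (p.2, fun x => p.2 (p.1⁻¹ x))) S M ?_
    · refine h1.trans (Nat.mul_le_mul_left _ ?_)
      rw [← card_product]
      apply card_le_card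
      intro q hq
      rw [mem_image] at hq
      obtain ⟨p, hp, rfl⟩ := hq
      rw [mem_filter] at hp
      rw [mem_product]
      exact ⟨hp.2.1, hp.2.2⟩
    · rintro ⟨f, f'⟩ hq
      rw [mem_image] at hq
      obtain ⟨p, hp, hpe⟩ := hq
      rw [mem_filter] at hp
      simp only [Prod.mk.injEq] at hpe
      have hf' : ∀ v, (univ.filter (fun x => f' x = some v)).card = b := by
        rw [← hpe.2]
        exact (mem_eqa.1 hp.2.2).2
      refine le_trans ?_ (card_intertwine_le f f' b hf')
      apply card_le_card_of_injOn Prod.fst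
      · intro q hq
        rw [mem_coe, mem_filter] at hq
        rw [mem_coe, mem_filter]
        have := hq.2
        simp only [Prod.mk.injEq] at this
        refine ⟨mem_univ _, ?_⟩
        rw [← this.2, this.1]
      · intro q hq q' hq' heq
        rw [mem_coe, mem_filter] at hq hq'
        have h2 := hq.2
        have h3 := hq'.2
        simp only [Prod.mk.injEq] at h2 h3
        exact Prod.ext heq (h2.1.trans h3.1.symm)
  have h3 : (bad V u w b).card * (affs V).card ≤
      (affs V).card * (cu * cw * M) * (affs V).card := by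
    calc (bad V u w b).card * (affs V).card ≤ M * ((eqa V u b).card * (eqa V w b).card) :=
          hS1.trans hS2
      _ ≤ M * (((affs V).card * cu) * ((affs V).card * cw)) :=
          Nat.mul_le_mul_left _ (Nat.mul_le_mul (card_eqa_le hu) (card_eqa_le hw))
      _ = (affs V).card * (cu * cw * M) * (affs V).card := by ring
  exact Nat.le_of_mul_le_mul_right h3 affs_pos

end Pool.Agent.Lib.MPcff1c1
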