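import Mathlib
import Pool.Agent.Lib.MP_cff1c1_al.Double

/-! Structure of soluble groups generated by two permutations of odd order. -/

set_option linter.all false

namespace Pool.Agent.Lib.MPcff1c1

open Finset

variable {X : Type} [Fintype X] [DecidableEq X]

theorem smul_mem_orbit_iff' {G Y : Type} [Group G] [MulAction G Y] (g : G) (x y : Y) :
    g • y ∈ MulAction.orbit G x ↔ y ∈ MulAction.orbit G x := by
  rw [MulAction.mem_orbit_iff, MulAction.mem_orbit_iff]
  constructor
  · rintro ⟨h, hh⟩
    exact ⟨g⁻¹ * h, by rw [mul_smul, hh, inv_smul_smul]⟩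
  · rintro ⟨h, hh⟩
    exact ⟨g * h, by rw [mul_smul, hh]⟩

/-- An invariant set of size `b` gives membership in `bad` for the trivial module. -/
theorem mem_bad_of_inv {u w g : Equiv.Perm X} (A : Finset X) (hu : ∀ x, u x ∈ A ↔ x ∈ A)
    (hw : ∀ x, (g⁻¹ * w * g) x ∈ A ↔ x ∈ A) : g ∈ bad (Fin 0 → ZMod 2) u w A.card := by
  classical
  rw [bad, mem_filter]
  refine ⟨mem_univ _, fun x => if x ∈ A then some 0 else none, ?_, ?_⟩
  · rw [mem_eqa]
    refine ⟨⟨1, IsAff.one, fun x => ?_⟩, fun v => ?_⟩
    · simp only [hu]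
      split_ifs <;> simp
    · congr 1
      ext x
      simp only [mem_filter, mem_univ, true_and]
      split_ifs with hx
      · simp only [hx, iff_true]
        congr 1
        exact Subsingleton.elim _ _
      · simp [hx]
  · rw [mem_eqa]
    refine ⟨⟨1, IsAff.one, fun x => ?_⟩, fun v => ?_⟩
    · simp only [hw]
      split_ifs <;> simp
    · congr 1
      ext x
      simp only [mem_filter, mem_univ, true_and]
      split_ifs with hx
      · simp only [hx, iff_true]
        congr 1
        exact Subsingleton.elim _ _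
      · simp [hx]

theorem exists_inv_or_large (u w : Equiv.Perm X) (hn : 0 < Fintype.card X) :
    (∃ A : Finset X, (∀ x, u x ∈ A ↔ x ∈ A) ∧ (∀ x, w x ∈ A ↔ x ∈ A) ∧
      Fintype.card X ≤ 3 * A.card ∧ 2 * A.card ≤ Fintype.card X) ∨
    ∃ x : X, 2 * Fintype.card X < 3 * Nat.card (MulAction.orbit (Subgroup.closure {u, w}) x) := by
  classical
  set H := Subgroup.closure {u, w} with hH
  have huH : u ∈ H := Subgroup.subset_closure (by simp)
  have hwH : w ∈ H := Subgroup.subset_closure (by simp)
  let Inv : Finset X → Prop := fun A => (∀ x, u x ∈ A ↔ x ∈ A) ∧ (∀ x, w x ∈ A ↔ x ∈ A)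
  let O : X → Finset X := fun x => univ.filter (fun y => y ∈ MulAction.orbit H x)
  have hOcard : ∀ x, Nat.card (MulAction.orbit H x) = (O x).card := by
    intro x
    rw [Nat.card_eq_fintype_card, Fintype.card_subtype]
  have horb : ∀ (h : Equiv.Perm X) (hh : h ∈ H) x y, h y ∈ O x ↔ y ∈ O x := by
    intro h hh x y
    simp only [O, mem_filter, mem_univ, true_and]
    have : h y = (⟨h, hh⟩ : H) • y := rfl
    rw [this]
    exact smul_mem_orbit_iff' _ _ _
  have hOinv : ∀ x, Inv (O x) := fun x => ⟨fun y => horb u huH x y, fun y => horb w hwH x y⟩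
  have hcompl : ∀ A, Inv A → Inv Aᶜ := by
    intro A hA
    exact ⟨fun x => by rw [mem_compl, mem_compl, hA.1], fun x => by rw [mem_compl, mem_compl, hA.2]⟩
  have key : ∀ A, Inv A → Fintype.card X ≤ 3 * A.card → 3 * A.card ≤ 2 * Fintype.card X →
      ∃ A : Finset X, (∀ x, u x ∈ A ↔ x ∈ A) ∧ (∀ x, w x ∈ A ↔ x ∈ A) ∧
      Fintype.card X ≤ 3 * A.card ∧ 2 * A.card ≤ Fintype.card X := by
    intro A hA h1 h2
    by_cases h3 : 2 * A.card ≤ Fintype.card X
    · exact ⟨A, hA.1, hA.2, h1, h3⟩
    · refine ⟨Aᶜ, (hcompl A hA).1, (hcompl A hA).2, ?_, ?_⟩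
      · rw [card_compl]; omega
      · rw [card_compl]; omega
  by_cases hlarge : ∃ x : X, 2 * Fintype.card X < 3 * Nat.card (MulAction.orbit H x)
  · exact Or.inr hlarge
  left
  push Not at hlarge
  by_cases hmid : ∃ x, Fintype.card X ≤ 3 * (O x).card
  · obtain ⟨x, hx⟩ := hmid
    apply key (O x) (hOinv x) hx
    rw [← hOcard]
    exact hlarge x
  · push Not at hmid
    have hne : ((univ : Finset (Finset X)).filter
        (fun A => Inv A ∧ Fintype.card X ≤ 3 * A.card)).Nonempty := by
      refine ⟨univ, ?_⟩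
      rw [mem_filter]
      refine ⟨mem_univ _, ⟨by simp, by simp⟩, ?_⟩
      rw [card_univ]; omega
    obtain ⟨A, hA, hmin⟩ := exists_min_image _ (fun A => A.card) hne
    rw [mem_filter] at hA
    obtain ⟨_, hAinv, hAn⟩ := hA
    have hApos : 0 < A.card := by omega
    obtain ⟨x, hx⟩ := card_pos.1 hApos
    have hB : Inv (A \ O x) := by
      refine ⟨fun y => ?_, fun y => ?_⟩
      · rw [mem_sdiff, mem_sdiff, hAinv.1, (hOinv x).1]
      · rw [mem_sdiff, mem_sdiff, hAinv.2, (hOinv x).2]
    have hxO : x ∈ O x := by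
      simp only [O, mem_filter, mem_univ, true_and]
      exact MulAction.mem_orbit_self x
    have hlt : (A \ O x).card < A.card := by
      apply card_lt_card
      rw [ssubset_iff_of_subset sdiff_subset]
      exact ⟨x, hx, by simp [hxO]⟩
    have h3 : 3 * (A \ O x).card < Fintype.card X := by
      by_contra hcon
      push Not at hcon
      have := hmin (A \ O x) (by rw [mem_filter]; exact ⟨mem_univ _, hB, hcon⟩)
      omega
    have h4 : A.card ≤ (A \ O x).card + (O x).card := by
      have := card_le_card (subset_union_left (s₁ := A) (s₂ := O x))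
      rw [← sdiff_union_self_eq_union] at this
      exact this.trans (card_union_le _ _)
    apply key A hAinv hAn
    have := hmid x
    omega

theorem perm_two {V : Type} [Fintype V] [DecidableEq V] (hV : Fintype.card V = 2)
    (τ : Equiv.Perm V) {r : ℕ} (hr : Odd r) (h : τ ^ r = 1) : τ = 1 := by
  have h1 : τ ^ 2 = 1 := by
    have h2 : Fintype.card (Equiv.Perm V) = 2 := by rw [Fintype.card_perm, hV]; rfl
    rw [← h2]
    exact pow_card_eq_one
  obtain ⟨k, rfl⟩ := hr
  rw [pow_add, pow_mul, h1, one_pow, one_mul, pow_one] at h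
  exact h

theorem large_orbit {u w g : Equiv.Perm X} {r s : ℕ} (hr : Odd r) (hs : Odd s) (hur : u ^ r = 1)
    (hws : w ^ s = 1) (hsol : Group.IsSolvable (Subgroup.closure {u, g⁻¹ * w * g}))
    (hn : 2 ≤ Fintype.card X) (x : X)
    (hx : 2 * Fintype.card X <
      3 * Nat.card (MulAction.orbit (Subgroup.closure {u, g⁻¹ * w * g}) x)) :
    ∃ (q e b : ℕ) (hq : Fact q.Prime), 1 ≤ e ∧ 3 ≤ q ^ e ∧ 1 ≤ b ∧
      2 * Fintype.card X < 3 * (b * q ^ e) ∧ b * q ^ e ≤ Fintype.card X ∧
      g ∈ bad (Fin e → ZMod q) u w b := by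
  classical
  set w' := g⁻¹ * w * g with hw'
  set H := Subgroup.closure {u, w'} with hH
  have huH : u ∈ H := Subgroup.subset_closure (by simp)
  have hwH : w' ∈ H := Subgroup.subset_closure (by simp)
  have hnt : Nontrivial (MulAction.orbit H x) := by
    rw [← Finite.one_lt_card_iff_nontrivial]
    omega
  obtain ⟨q, e, f, hq, he, hfs, hf⟩ := exists_affine_quotient (G := H) (X := MulAction.orbit H x)
  have : Fact q.Prime := ⟨hq⟩
  let V := Fin e → ZMod q
  have hVcard : Fintype.card V = q ^ e := by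
    simp [V, ZMod.card]
  let F : X → Option V := fun y => if hy : y ∈ MulAction.orbit H x then some (f ⟨y, hy⟩) else none
  have hF1 : ∀ (h : Equiv.Perm X) (hh : h ∈ H), ∃ τ : Equiv.Perm V, IsAff τ ∧
      ∀ y, F (h y) = (F y).map τ := by
    intro h hh
    obtain ⟨τ, hτ, hfτ⟩ := hf ⟨h, hh⟩
    refine ⟨τ, hτ, fun y => ?_⟩
    have hiff : h y ∈ MulAction.orbit H x ↔ y ∈ MulAction.orbit H x := by
      have : h y = (⟨h, hh⟩ : H) • y := rfl
      rw [this]
      exact smul_mem_orbit_iff' _ _ _
    by_cases hy : y ∈ MulAction.orbit H x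
    · simp only [F, hy, hiff, dif_pos, Option.map_some]
      congr 1
      exact hfτ ⟨y, hy⟩
    · simp only [F, hy, hiff, dif_neg, Option.map_none, not_false_eq_true]
  have hFsome : ∀ y v, F y = some v ↔ ∃ hy : y ∈ MulAction.orbit H x, f ⟨y, hy⟩ = v := by
    intro y v
    simp only [F]
    split_ifs with hy
    · simp [hy]
    · simp [hy]
  have hle : ∀ v v' : V, (univ.filter (fun y => F y = some v)).card ≤
      (univ.filter (fun y => F y = some v')).card := by
    intro v v'
    obtain ⟨y, hy⟩ := hfs v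
    obtain ⟨y', hy'⟩ := hfs v'
    obtain ⟨h, hh⟩ := MulAction.exists_smul_eq H y y'
    obtain ⟨τ, hτ, hfτ⟩ := hF1 h h.2
    have hτv : τ v = v' := by
      have h1 : F y = some v := (hFsome _ _).2 ⟨y.2, hy⟩
      have h2 : F y' = some v' := (hFsome _ _).2 ⟨y'.2, hy'⟩
      have h3 := hfτ y
      have h4 : (h : Equiv.Perm X) y = y' := congrArg Subtype.val hh
      rw [h4, h1, h2] at h3
      simpa using h3.symm
    apply card_le_card_of_injOn (fun z => (h : Equiv.Perm X) z)
    · intro z hz
      rw [mem_coe, mem_filter] at hz ⊢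
      refine ⟨mem_univ _, ?_⟩
      rw [hfτ, hz.2, Option.map_some, hτv]
    · intro z _ z' _ hzz
      exact (h : Equiv.Perm X).injective hzz
  set b := (univ.filter (fun y => F y = some 0)).card with hb
  have hfib : ∀ v, (univ.filter (fun y => F y = some v)).card = b :=
    fun v => le_antisymm (hle v 0) (hle 0 v)
  have hb1 : 1 ≤ b := by
    obtain ⟨y, hy⟩ := hfs 0
    rw [hb, Nat.one_le_iff_ne_zero, ← Nat.pos_iff_ne_zero, card_pos]
    exact ⟨y, by rw [mem_filter]; exact ⟨mem_univ _, (hFsome _ _).2 ⟨y.2, hy⟩⟩⟩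
  have hcard : Nat.card (MulAction.orbit H x) = b * q ^ e := by
    rw [← hVcard, ← supp_card hfib, Nat.card_eq_fintype_card, Fintype.card_subtype]
    congr 1
    ext y
    rw [mem_filter, mem_supp, Option.isSome_iff_exists]
    constructor
    · rintro ⟨_, hy⟩
      exact ⟨f ⟨y, hy⟩, (hFsome _ _).2 ⟨hy, rfl⟩⟩
    · rintro ⟨v, hv⟩
      obtain ⟨hy, _⟩ := (hFsome _ _).1 hv
      exact ⟨mem_univ _, hy⟩
  have hd3 : 3 ≤ q ^ e := by
    have h2 : 2 ≤ q ^ e := by
      calc 2 ≤ q := hq.two_le
        _ = q ^ 1 := (pow_one q).symm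
        _ ≤ q ^ e := Nat.pow_le_pow_right hq.pos he
    rcases Nat.lt_or_ge (q ^ e) 3 with hlt | hge
    · exfalso
      have hV2 : Fintype.card V = 2 := by rw [hVcard]; omega
      have htriv : ∀ (h : Equiv.Perm X) (hh : h ∈ H) (k : ℕ), Odd k → h ^ k = 1 →
          ∀ y, F (h y) = F y := by
        intro h hh k hk hhk y
        obtain ⟨τ, hτ, hfτ⟩ := hF1 h hh
        have h1 : τ ^ k = 1 := by
          ext v
          obtain ⟨z, hz⟩ := hfs v
          have h2 : F z = some v := (hFsome _ _).2 ⟨z.2, hz⟩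
          have h3 := eqv_pow hfτ k z
          rw [hhk, Equiv.Perm.one_apply, h2] at h3
          have := Option.some.inj h3
          simpa using congrArg (fun v : V => v _) this.symm
        have h4 := perm_two hV2 τ hk h1
        rw [hfτ, h4]
        simp
      have hw's : w' ^ s = 1 := by
        rw [hw']
        have : g⁻¹ * w * g = g⁻¹ * w * (g⁻¹)⁻¹ := by rw [inv_inv]
        rw [this, conj_pow, hws]
        group
      have hall : ∀ h ∈ H, ∀ y, F (h y) = F y := by
        intro h hh
        rw [hH] at hh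
        induction hh using Subgroup.closure_induction with
        | mem y hy =>
          rcases hy with rfl | rfl
          · exact htriv _ huH r hr hur
          · exact htriv _ hwH s hs hw's
        | one => intro y; rfl
        | mul a c _ _ iha ihc => intro y; rw [Equiv.Perm.mul_apply, iha, ihc]
        | inv a _ iha =>
          intro y
          have := iha (a⁻¹ y)
          rw [← Equiv.Perm.mul_apply, mul_inv_cancel, Equiv.Perm.one_apply] at this
          exact this.symm
      have hcon : ∀ v v' : V, v = v' := by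
        intro v v'
        obtain ⟨y, hy⟩ := hfs v
        obtain ⟨y', hy'⟩ := hfs v'
        obtain ⟨h, hh⟩ := MulAction.exists_smul_eq H y y'
        have h1 : F y = some v := (hFsome _ _).2 ⟨y.2, hy⟩
        have h2 : F y' = some v' := (hFsome _ _).2 ⟨y'.2, hy'⟩
        have h4 : (h : Equiv.Perm X) y = y' := congrArg Subtype.val hh
        have h3 := hall h h.2 y
        rw [h4, h1, h2] at h3
        exact (Option.some.inj h3).symm
      have : Fintype.card V ≤ 1 := Fintype.card_le_one_iff.2 hcon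
      omega
    · exact hge
  refine ⟨q, e, b, ⟨hq⟩, he, hd3, hb1, ?_, ?_, ?_⟩
  · rw [← hcard]; exact hx
  · rw [← hcard, Nat.card_eq_fintype_card]
    exact Fintype.card_subtype_le _
  · rw [bad, mem_filter]
    refine ⟨mem_univ _, F, ?_, ?_⟩
    · rw [mem_eqa]; exact ⟨hF1 u huH, hfib⟩
    · rw [mem_eqa]; exact ⟨hF1 w' hwH, hfib⟩

end Pool.Agent.Lib.MPcff1c1
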