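import Mathlib
import Pool.Agent.Lib.MP_cff1c1_al.Struct

/-! The union bound. -/

set_option linter.all false

namespace Pool.Agent.Lib.MPcff1c1

open Finset

theorem card_affs_le (q e : ℕ) [Fact q.Prime] :
    (affs (Fin e → ZMod q)).card ≤ (q ^ e) ^ (e + 1) := by
  classical
  have hV : Fintype.card (Fin e → ZMod q) = q ^ e := by simp [ZMod.card]
  have h1 : (affs (Fin e → ZMod q)).card ≤
      (univ : Finset ((Fin e → ZMod q) × (Fin e → (Fin e → ZMod q)))).card := by
    apply card_le_card_of_injOn (fun τ => (τ 0, fun i => τ (Pi.single i 1)))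
    · intro τ _
      exact mem_coe.2 (mem_univ _)
    · intro τ hτ σ hσ heq
      rw [mem_coe, mem_affs] at hτ hσ
      obtain ⟨A, s, hA⟩ := hτ
      obtain ⟨B, t, hB⟩ := hσ
      simp only [Prod.mk.injEq] at heq
      obtain ⟨h0, h1⟩ := heq
      have hst : s = t := by
        rw [hA, hB, map_zero, map_zero, zero_add, zero_add] at h0
        exact h0
      have h2 : ∀ i, A (Pi.single i 1) = B (Pi.single i 1) := by
        intro i
        have := congrFun h1 i
        simp only [hA, hB, hst] at this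
        exact add_right_cancel this
      ext1 v
      rw [hA, hB, hst]
      congr 1
      have h3 : v = ∑ i, (v i).val • (Pi.single i (1 : ZMod q) : Fin e → ZMod q) := by
        funext j
        rw [Finset.sum_apply]
        simp only [Pi.smul_apply, Pi.single_apply, nsmul_eq_mul, ZMod.natCast_val, mul_ite,
          mul_one, mul_zero]
        simp
      rw [h3, map_sum, map_sum]
      apply sum_congr rfl
      intro i _
      rw [map_nsmul, map_nsmul, h2]
  refine h1.trans (le_of_eq ?_)
  simp only [card_univ, Fintype.card_prod, Fintype.card_fun, Fintype.card_fin, ZMod.card]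
  rw [pow_succ, mul_comm]

/-- Bound for the number of balanced equivariant maps to `V ∪ {∞}` with `|V| = d` and fibres of
size `b`, for a permutation with one fixed point and `m` cycles of length `r`. -/
def cc (m r d b : ℕ) : ℕ :=
  if (b * d) % r ≤ 1 then
    m.choose (b * d / r) * (if b = 1 then r ^ (b * d / r) * (b * d / r).factorial
      else d ^ (b * d / r + b * d % r))
  else 0

/-- The bound for one type of bad event. -/
def tt (n r s d e b : ℕ) : ℕ :=
  d ^ (e + 1) * (cc ((n - 1) / r) r d b * cc ((n - 1) / s) s d b *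
    (b.factorial ^ d * (n - b * d).factorial))

/-- The total bound. -/
def bnd (ppe : ℕ → ℕ) (n r s : ℕ) : ℕ :=
  (∑ b ∈ (range (n + 1)).filter (fun b => n ≤ 3 * b ∧ 2 * b ≤ n), tt n r s 1 0 b) +
  ∑ d ∈ (range (n + 1)).filter (fun d => 3 ≤ d ∧ ppe d ≠ 0),
    ∑ b ∈ (range (n + 1)).filter (fun b => 1 ≤ b ∧ 2 * n < 3 * (b * d) ∧ b * d ≤ n),
      tt n r s d (ppe d) b

variable {X : Type} [Fintype X] [DecidableEq X]

theorem card_eqv_le_cc {V : Type} [Fintype V] [DecidableEq V] {u : Equiv.Perm X} {r : ℕ} {x0 : X}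
    (h : Semi u r x0) (b : ℕ) (τ : Equiv.Perm V) :
    (eqv u τ b).card ≤ cc ((Fintype.card X - 1) / r) r (Fintype.card V) b := by
  have hm : (Fintype.card X - 1) / r = (tr u x0).card := by
    rw [h.card_tr, Nat.add_sub_cancel, Nat.mul_div_cancel_left _ h.prime.pos]
  rw [hm]
  unfold cc
  by_cases hb : b = 1
  · subst hb
    have := card_eqv_one_le (τ := τ) h
    simpa using this
  · have := card_eqv_le (τ := τ) h b
    rw [if_neg hb]
    exact this

theorem card_bad_le_tt {u w : Equiv.Perm X} {r s : ℕ} {x0 y0 : X} (hu : Semi u r x0)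
    (hw : Semi w s y0) (q e b : ℕ) [Fact q.Prime] (hb : 1 ≤ b) :
    (bad (Fin e → ZMod q) u w b).card ≤ tt (Fintype.card X) r s (q ^ e) e b := by
  have hV : Fintype.card (Fin e → ZMod q) = q ^ e := by simp [ZMod.card]
  have h1 := card_bad_le (V := Fin e → ZMod q) hb (fun τ => card_eqv_le_cc hu b τ)
    (fun τ => card_eqv_le_cc hw b τ)
  rw [hV] at h1
  refine h1.trans ?_
  unfold tt
  exact Nat.mul_le_mul_right _ (card_affs_le q e)

theorem prime_pow_inj {q q' e e' : ℕ} (hq : q.Prime) (hq' : q'.Prime) (he : 1 ≤ e) (he' : 1 ≤ e')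
    (h : q ^ e = q' ^ e') : q = q' ∧ e = e' := by
  have h1 : q ∣ q' ^ e' := by
    rw [← h]
    exact dvd_pow_self q (by omega)
  have h2 : q = q' := (Nat.prime_dvd_prime_iff_eq hq hq').1 (hq.dvd_of_dvd_pow h1)
  subst h2
  exact ⟨rfl, Nat.pow_right_injective hq.two_le h⟩

open Classical in
/-- The union of the bad events for a given size `d` of the quotient. -/
noncomputable def badD (u w : Equiv.Perm X) (d b : ℕ) : Finset (Equiv.Perm X) :=
  univ.filter (fun g => ∃ (q e : ℕ) (_ : Fact q.Prime), 1 ≤ e ∧ q ^ e = d ∧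
    g ∈ bad (Fin e → ZMod q) u w b)

theorem card_badD_le {u w : Equiv.Perm X} {r s : ℕ} {x0 y0 : X} (hu : Semi u r x0)
    (hw : Semi w s y0) (ppe : ℕ → ℕ) (d b : ℕ) (hb : 1 ≤ b)
    (hppe : ∀ q e : ℕ, q.Prime → 1 ≤ e → q ^ e = d → ppe d = e) :
    (badD u w d b).card ≤ tt (Fintype.card X) r s d (ppe d) b := by
  classical
  rcases (badD u w d b).eq_empty_or_nonempty with he | ⟨g, hg⟩
  · rw [he, card_empty]; exact Nat.zero_le _
  rw [badD, mem_filter] at hg
  obtain ⟨_, q, e, hq, he, hqe, _⟩ := hg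
  have h1 : badD u w d b ⊆ bad (Fin e → ZMod q) u w b := by
    intro g' hg'
    rw [badD, mem_filter] at hg'
    obtain ⟨_, q', e', hq', he', hqe', hg''⟩ := hg'
    obtain ⟨h2, h3⟩ := prime_pow_inj hq'.out hq.out he' he (hqe'.trans hqe.symm)
    subst h2
    subst h3
    exact hg''
  refine (card_le_card h1).trans ?_
  have h2 := card_bad_le_tt hu hw q e b hb
  rw [hqe] at h2
  rw [hppe q e hq.out he hqe]
  exact h2

open Classical in
theorem card_solvable_le {u w : Equiv.Perm X} {r s : ℕ} {x0 y0 : X} (hu : Semi u r x0)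
    (hw : Semi w s y0) (hr : Odd r) (hs : Odd s) (hn : 2 ≤ Fintype.card X) (ppe : ℕ → ℕ)
    (hppe : ∀ q e : ℕ, q.Prime → 1 ≤ e → q ^ e ≤ Fintype.card X → ppe (q ^ e) = e) :
    (univ.filter (fun g : Equiv.Perm X =>
      Group.IsSolvable (Subgroup.closure {u, g⁻¹ * w * g}))).card ≤
      bnd ppe (Fintype.card X) r s := by
  set n := Fintype.card X with hnX
  set B1 := (range (n + 1)).filter (fun b => n ≤ 3 * b ∧ 2 * b ≤ n) with hB1
  set B2 := (range (n + 1)).filter (fun d => 3 ≤ d ∧ ppe d ≠ 0) with hB2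
  let B3 : ℕ → Finset ℕ := fun d =>
    (range (n + 1)).filter (fun b => 1 ≤ b ∧ 2 * n < 3 * (b * d) ∧ b * d ≤ n)
  have hsub : (univ.filter (fun g : Equiv.Perm X =>
      Group.IsSolvable (Subgroup.closure {u, g⁻¹ * w * g}))) ⊆
      (B1.biUnion (fun b => bad (Fin 0 → ZMod 2) u w b)) ∪
      (B2.biUnion (fun d => (B3 d).biUnion (fun b => badD u w d b))) := by
    intro g hg
    rw [mem_filter] at hg
    rw [mem_union]
    rcases exists_inv_or_large u (g⁻¹ * w * g) (by omega) with ⟨A, hA1, hA2, hA3, hA4⟩ | ⟨x, hx⟩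
    · left
      rw [mem_biUnion]
      refine ⟨A.card, ?_, mem_bad_of_inv A hA1 hA2⟩
      rw [hB1, mem_filter, mem_range]
      omega
    · right
      obtain ⟨q, e, b, hq, he, hd3, hb1, hN1, hN2, hg'⟩ :=
        large_orbit hr hs hu.pow hw.pow hg.2 hn x hx
      have hqe : q ^ e ≤ n := le_trans (Nat.le_mul_of_pos_left _ hb1) hN2
      have hbn : b ≤ n := le_trans (Nat.le_mul_of_pos_right _ (by omega)) hN2
      rw [mem_biUnion]
      refine ⟨q ^ e, ?_, ?_⟩
      · rw [hB2, mem_filter, mem_range, hppe q e hq.out he hqe]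
        omega
      · rw [mem_biUnion]
        refine ⟨b, ?_, ?_⟩
        · simp only [B3, mem_filter, mem_range]
          exact ⟨by omega, hb1, hN1, hN2⟩
        · rw [badD, mem_filter]
          exact ⟨mem_univ _, q, e, hq, he, rfl, hg'⟩
  refine (card_le_card hsub).trans ((card_union_le _ _).trans ?_)
  unfold bnd
  apply Nat.add_le_add
  · refine card_biUnion_le.trans (sum_le_sum ?_)
    intro b hb
    rw [hB1, mem_filter] at hb
    have : Fact (Nat.Prime 2) := ⟨Nat.prime_two⟩
    have h := card_bad_le_tt hu hw 2 0 b (by omega)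
    simpa using h
  · refine card_biUnion_le.trans (sum_le_sum ?_)
    intro d hd
    rw [hB2, mem_filter, mem_range] at hd
    refine card_biUnion_le.trans (sum_le_sum ?_)
    intro b hb
    rw [mem_filter] at hb
    apply card_badD_le hu hw ppe d b hb.2.1
    intro q e hq he hqe
    rw [← hqe]
    exact hppe q e hq he (by omega)

end Pool.Agent.Lib.MPcff1c1
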