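import Mathlib

/-! Kernel evaluation of a numerical inequality in a finite range. -/

set_option linter.all false

namespace Pool.Agent.Lib.MPcff1c1

/-- Kernel-evaluated range of the main numerical inequality. -/
def chk (N d : ℕ) : Bool :=
  Nat.ble (d ^ (2 * N + 3 * Nat.log2 d + 7) * (N / d).factorial ^ (3 * d) * (729 ^ 3 * N ^ 15))
    (32 ^ 3 * N.factorial ^ 3)

theorem chk_all : ∀ N < 300, 101 ≤ N → ∀ d < N, 3 ≤ d → N % d = 0 → chk N d = true := by
  decide +kernel

end Pool.Agent.Lib.MPcff1c1
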