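import Mathlib
import Pool.Agent.Lib.MP_cff1c1_al.Bound

/-! Affine maps of the prime field, and soluble groups containing the translation by one. -/

set_option linter.all false

namespace Pool.Agent.Lib.MPcff1c1

open Finset

/-- Monotonicity of solvability for groups generated by two elements. -/
theorem solvable_pair_mono {G : Type} [Group G] {x y x' y' : G}
    (h : Group.IsSolvable (Subgroup.closure {x, y})) (hx : x' ∈ Subgroup.closure {x, y})
    (hy : y' ∈ Subgroup.closure {x, y}) : Group.IsSolvable (Subgroup.closure {x', y'}) := by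
  have hle : Subgroup.closure {x', y'} ≤ Subgroup.closure {x, y} := by
    rw [Subgroup.closure_le]
    rintro z (rfl | rfl)
    · exact hx
    · exact hy
  exact Group.isSolvable_of_isSolvable_injective (f := Subgroup.inclusion hle)
    (Subgroup.inclusion_injective hle)

theorem solvable_conj {G : Type} [Group G] {x y : G} (t : G)
    (h : Group.IsSolvable (Subgroup.closure {x, y})) :
    Group.IsSolvable (Subgroup.closure {t * x * t⁻¹, t * y * t⁻¹}) := by
  have h1 : Subgroup.closure {t * x * t⁻¹, t * y * t⁻¹} =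
      (Subgroup.closure {x, y}).map (MulAut.conj t).toMonoidHom := by
    rw [MonoidHom.map_closure]
    congr 1
    rw [Set.image_pair]
    rfl
  rw [h1]
  exact Group.isSolvable_of_surjective
    ((MulAut.conj t).toMonoidHom.subgroupMap_surjective (Subgroup.closure {x, y}))

variable {p : ℕ} [Fact p.Prime]

/-- The affine map `x ↦ c x + b`. -/
def af (c : (ZMod p)ˣ) (b : ZMod p) : Equiv.Perm (ZMod p) where
  toFun x := c * x + b
  invFun x := (c⁻¹ : (ZMod p)ˣ) * (x - b)
  left_inv x := by
    beta_reduce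
    rw [add_sub_cancel_right, Units.inv_mul_cancel_left]
  right_inv x := by
    beta_reduce
    rw [Units.mul_inv_cancel_left, sub_add_cancel]

theorem af_apply (c : (ZMod p)ˣ) (b x : ZMod p) : af c b x = c * x + b := rfl

theorem af_mul (c c' : (ZMod p)ˣ) (b b' : ZMod p) :
    af c b * af c' b' = af (c * c') (c * b' + b) := by
  ext1 x
  rw [Equiv.Perm.mul_apply, af_apply, af_apply, af_apply]
  push_cast
  ring

theorem af_one : af (1 : (ZMod p)ˣ) (0 : ZMod p) = 1 := by
  ext1 x
  rw [af_apply]
  simp

theorem af_pow (c : (ZMod p)ˣ) (b : ZMod p) (k : ℕ) : ∃ b', (af c b) ^ k = af (c ^ k) b' := by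
  induction k with
  | zero => exact ⟨0, by rw [pow_zero, pow_zero, af_one]⟩
  | succ k ih =>
    obtain ⟨b', hb'⟩ := ih
    exact ⟨_, by rw [pow_succ, hb', af_mul, pow_succ]⟩

/-- The affine map with multiplier `c` fixing `a`. -/
def U (c : (ZMod p)ˣ) (a : ZMod p) : Equiv.Perm (ZMod p) := af c (a - c * a)

theorem U_apply (c : (ZMod p)ˣ) (a x : ZMod p) : U c a x = c * (x - a) + a := by
  rw [U, af_apply]; ring

theorem U_mul (c c' : (ZMod p)ˣ) (a : ZMod p) : U c a * U c' a = U (c * c') a := by
  ext1 x
  rw [Equiv.Perm.mul_apply, U_apply, U_apply, U_apply]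
  push_cast
  ring

theorem U_one (a : ZMod p) : U (1 : (ZMod p)ˣ) a = 1 := by
  ext1 x
  rw [U_apply]
  simp

theorem U_pow (c : (ZMod p)ˣ) (a : ZMod p) (k : ℕ) : (U c a) ^ k = U (c ^ k) a := by
  induction k with
  | zero => rw [pow_zero, pow_zero, U_one]
  | succ k ih => rw [pow_succ, ih, U_mul, pow_succ]

/-- Translation by `b`. -/
def T (b : ZMod p) : Equiv.Perm (ZMod p) := af 1 b

theorem T_apply (b x : ZMod p) : T b x = x + b := by
  rw [T, af_apply]; simp

theorem T_mul (b b' : ZMod p) : T b * T b' = T (b + b') := by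
  ext1 x
  rw [Equiv.Perm.mul_apply, T_apply, T_apply, T_apply]
  ring

theorem T_zero : T (0 : ZMod p) = 1 := af_one

theorem T_pow (b : ZMod p) (k : ℕ) : (T b) ^ k = T ((k : ZMod p) * b) := by
  induction k with
  | zero => rw [pow_zero, Nat.cast_zero, zero_mul, T_zero]
  | succ k ih =>
    rw [pow_succ, ih, T_mul, Nat.cast_succ, add_mul, one_mul]

theorem T_one_pow_apply (k : ℕ) (x : ZMod p) : ((T (1 : ZMod p)) ^ k) x = x + k := by
  rw [T_pow, T_apply, mul_one]

/-- Every element of a soluble group containing the translation by one is affine. -/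
theorem affine_of_solvable {z : Equiv.Perm (ZMod p)}
    (h : Group.IsSolvable (Subgroup.closure {T (1 : ZMod p), z})) :
    ∃ (c : (ZMod p)ˣ) (b : ZMod p), z = af c b := by
  classical
  have hp : p.Prime := Fact.out
  set H := Subgroup.closure {T (1 : ZMod p), z} with hH
  have hT : T (1 : ZMod p) ∈ H := Subgroup.subset_closure (by simp)
  have hz : z ∈ H := Subgroup.subset_closure (by simp)
  have htrans : MulAction.IsPretransitive H (ZMod p) := by
    constructor
    intro x y
    refine ⟨⟨T 1 ^ (y - x).val, H.pow_mem hT _⟩, ?_⟩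
    change (T 1 ^ (y - x).val) x = y
    rw [T_one_pow_apply, ZMod.natCast_zmod_val]
    ring
  obtain ⟨q, e, f, hq, he, hfs, hf⟩ := exists_affine_quotient (G := H) (X := ZMod p)
  have : Fact q.Prime := ⟨hq⟩
  obtain ⟨τ, ⟨A, t, hA⟩, hτ⟩ := hf ⟨T 1, hT⟩
  obtain ⟨σ, ⟨B, s, hB⟩, hσ⟩ := hf ⟨z, hz⟩
  have hτ1 : ∀ x, f (x + 1) = τ (f x) := by
    intro x
    have := hτ x
    rw [← this]
    congr 1
    change x + 1 = T 1 x
    rw [T_apply]
  have hσ1 : ∀ x, f (z x) = B (f x) + s := by
    intro x
    rw [← hB]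
    exact hσ x
  have hnt : Nontrivial (Fin e → ZMod q) := by
    have : Nonempty (Fin e) := ⟨⟨0, by omega⟩⟩
    infer_instance
  -- f is injective
  have hiter : ∀ (k : ℕ) (x : ZMod p), f (x + k) = (τ ^ k) (f x) := by
    intro k
    induction k with
    | zero => intro x; simp
    | succ k ih =>
      intro x
      rw [Nat.cast_succ, ← add_assoc, hτ1, ih, pow_succ', Equiv.Perm.mul_apply]
  have hinj : Function.Injective f := by
    have hper : Function.IsPeriodicPt τ p (f 0) := by
      have := hiter p 0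
      rw [CharP.cast_eq_zero, add_zero] at this
      rw [Function.IsPeriodicPt, Function.IsFixedPt, ← Equiv.Perm.coe_pow] 
      exact this.symm
    have hmp : Function.minimalPeriod τ (f 0) ∣ p := hper.minimalPeriod_dvd
    rcases (Nat.dvd_prime hp).1 hmp with h1 | h1
    · exfalso
      rw [Function.minimalPeriod_eq_one_iff_isFixedPt] at h1
      have hconst : ∀ x, f x = f 0 := by
        intro x
        have := hiter x.val 0
        rw [zero_add, ZMod.natCast_zmod_val] at this
        rw [this, Equiv.Perm.coe_pow]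
        exact Function.IsFixedPt.iterate h1 _
      obtain ⟨v, w, hvw⟩ := exists_pair_ne (Fin e → ZMod q)
      obtain ⟨x, rfl⟩ := hfs v
      obtain ⟨y, rfl⟩ := hfs w
      exact hvw ((hconst x).trans (hconst y).symm)
    · intro x y hxy
      have hx := hiter x.val 0
      have hy := hiter y.val 0
      rw [zero_add, ZMod.natCast_zmod_val] at hx hy
      rw [hx, hy, Equiv.Perm.coe_pow, Equiv.Perm.coe_pow,
        Function.iterate_eq_iterate_iff_of_lt_minimalPeriod] at hxy
      · exact ZMod.val_injective p hxy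
      · rw [h1]; exact ZMod.val_lt x
      · rw [h1]; exact ZMod.val_lt y
  have hcard : Nat.card (Fin e → ZMod q) = p := by
    rw [← Nat.card_congr (Equiv.ofBijective f ⟨hinj, hfs⟩), Nat.card_zmod]
  -- A is the identity
  have hA1 : ∀ v, A v = v := by
    let K : AddSubgroup (Fin e → ZMod q) :=
      { carrier := {v | A v = v}
        zero_mem' := map_zero A
        add_mem' := by
          intro a b ha hb
          change A (a + b) = a + b
          rw [map_add, ha, hb]
        neg_mem' := by
          intro a ha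
          change A (-a) = -a
          rw [map_neg, ha] }
    have : Fact (Nat.card (Fin e → ZMod q)).Prime := ⟨by rw [hcard]; exact hp⟩
    rcases AddSubgroup.eq_bot_or_eq_top_of_prime_card K with hK | hK
    · exfalso
      have hinjA : Function.Injective (fun v => A v - v) := by
        intro v w hvw
        simp only at hvw
        have : v - w ∈ K := by
          change A (v - w) = v - w
          rw [map_sub, sub_eq_sub_iff_sub_eq_sub]
          exact hvw
        rw [hK, AddSubgroup.mem_bot, sub_eq_zero] at this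
        exact this
      have hsurjA := Finite.surjective_of_injective hinjA
      obtain ⟨v, hv⟩ := hsurjA (-t)
      simp only at hv
      obtain ⟨x, rfl⟩ := hfs v
      have h1 : f (x + 1) = f x := by
        rw [hτ1, hA]
        rw [sub_eq_iff_eq_add] at hv
        rw [hv]
        abel
      have h2 := hinj h1
      have h3 : (1 : ZMod p) = 0 := by
        have := congrArg (· - x) h2
        simpa using this
      exact one_ne_zero h3
    · intro v
      have : v ∈ K := by rw [hK]; trivial
      exact this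
  have hft : ∀ x, f (x + 1) = f x + t := by
    intro x
    rw [hτ1, hA, hA1]
  have hfk : ∀ (k : ℕ) (x : ZMod p), f (x + k) = f x + k • t := by
    intro k
    induction k with
    | zero => intro x; simp
    | succ k ih =>
      intro x
      push_cast
      rw [← add_assoc, hft, ih, succ_nsmul, add_assoc]
  obtain ⟨y, hy⟩ := hfs (f 0 + B t)
  have hyk : B t = y.val • t := by
    have := hfk y.val 0
    rw [zero_add, ZMod.natCast_zmod_val, hy] at this
    exact add_left_cancel this
  have hzstep : ∀ x, z (x + 1) = z x + y := by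
    intro x
    apply hinj
    rw [hσ1, hft, map_add, hyk]
    have := hfk y.val (z x)
    rw [ZMod.natCast_zmod_val, hσ1] at this
    rw [this]
    abel
  have hzk : ∀ (k : ℕ), z (k : ZMod p) = z 0 + k * y := by
    intro k
    induction k with
    | zero => simp
    | succ k ih =>
      push_cast
      rw [hzstep, ih]
      ring
  have hzx : ∀ x, z x = y * x + z 0 := by
    intro x
    have := hzk x.val
    rw [ZMod.natCast_zmod_val] at this
    rw [this]
    ring
  have hy0 : y ≠ 0 := by
    intro h0
    have h1 := hzx 1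
    have h2 := hzx 0
    rw [h0, zero_mul, zero_add] at h1
    exact one_ne_zero (z.injective h1)
  refine ⟨Units.mk0 y hy0, z 0, ?_⟩
  ext1 x
  rw [af_apply, Units.val_mk0, hzx]

/-- The affine map with multiplier `c ≠ 1` has the form `U c a`. -/
theorem af_eq_U {c : (ZMod p)ˣ} (hc : c ≠ 1) (b : ZMod p) : ∃ a, af c b = U c a := by
  have h1 : (1 : ZMod p) - c ≠ 0 := by
    intro h
    apply hc
    rw [sub_eq_zero] at h
    exact Units.ext h.symm
  refine ⟨b / (1 - c), ?_⟩
  ext1 x
  rw [af_apply, U_apply]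
  field_simp
  ring

theorem U_fix {c : (ZMod p)ˣ} (hc : c ≠ 1) (a x : ZMod p) : U c a x = x ↔ x = a := by
  rw [U_apply]
  constructor
  · intro h
    have h2 : ((c : ZMod p) - 1) * (x - a) = 0 := by
      have : ((c : ZMod p) - 1) * (x - a) = (c * (x - a) + a) - x := by ring
      rw [this, h, sub_self]
    rcases mul_eq_zero.1 h2 with h3 | h3
    · exfalso
      apply hc
      exact Units.ext (sub_eq_zero.1 h3)
    · exact sub_eq_zero.1 h3
  · rintro rfl
    ring

theorem U_semi {c : (ZMod p)ˣ} {r : ℕ} (hr : r.Prime) (hc : orderOf c = r) (a : ZMod p) :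
    Semi (U c a) r a := by
  refine ⟨hr, ?_, ?_⟩
  · rw [U_pow, ← hc, pow_orderOf_eq_one, U_one]
  · apply U_fix
    intro h
    rw [h, orderOf_one] at hc
    exact hr.one_lt.ne hc

theorem sign_neg_one (hp4 : p % 4 = 3) (a : ZMod p) : Equiv.Perm.sign (U (-1 : (ZMod p)ˣ) a) = -1 := by
  have hp : p.Prime := Fact.out
  have hne : (-1 : (ZMod p)ˣ) ≠ 1 := by
    intro h
    have h1 : ((-1 : (ZMod p)ˣ) : ZMod p) = 1 := by rw [h]; rfl
    rw [Units.val_neg, Units.val_one] at h1
    have h2 : ((2 : ℕ) : ZMod p) = 0 := by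
      have : (1 : ZMod p) + 1 = 0 := by
        nth_rewrite 1 [← h1]
        ring
      push_cast
      rw [← this]
      norm_num
    rw [ZMod.natCast_eq_zero_iff] at h2
    have := Nat.le_of_dvd (by norm_num) h2
    omega
  have hpow : (U (-1 : (ZMod p)ˣ) a) ^ 2 = 1 := by
    rw [U_pow]
    simp [U_one]
  have h2 : Fact (Nat.Prime 2) := ⟨Nat.prime_two⟩
  have hct := Equiv.Perm.cycleType_of_pow_prime_eq_one hpow
  have hsum := (U (-1 : (ZMod p)ˣ) a).sum_cycleType
  have hsupp : (U (-1 : (ZMod p)ˣ) a).support.card = p - 1 := by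
    have : (U (-1 : (ZMod p)ˣ) a).support = univ.erase a := by
      ext x
      rw [Equiv.Perm.mem_support, mem_erase]
      simp only [mem_univ, and_true, ne_eq]
      rw [U_fix hne]
    rw [this, card_erase_of_mem (mem_univ _), card_univ, ZMod.card]
  rw [hsupp] at hsum
  have hcard : Multiset.card (U (-1 : (ZMod p)ˣ) a).cycleType * 2 = p - 1 := by
    rw [← hsum]
    conv_rhs => rw [hct]
    rw [Multiset.sum_replicate, smul_eq_mul]
  rw [Equiv.Perm.sign_of_cycleType, hsum]
  have hodd : Odd (p - 1 + Multiset.card (U (-1 : (ZMod p)ˣ) a).cycleType) := by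
    rw [Nat.odd_iff]
    omega
  exact hodd.neg_one_pow

theorem af_mem_T {c : (ZMod p)ˣ} {b : ZMod p} (hne : af c b ≠ 1) (hc : c = 1) :
    T (1 : ZMod p) ∈ Subgroup.zpowers (af c b) := by
  subst hc
  have hb : b ≠ 0 := by
    rintro rfl
    exact hne af_one
  rw [Subgroup.mem_zpowers_iff]
  refine ⟨((b⁻¹).val : ℤ), ?_⟩
  rw [zpow_natCast]
  change (T b) ^ _ = _
  rw [T_pow, ZMod.natCast_zmod_val, inv_mul_cancel₀ hb]

/-- The set of relevant primes. -/
def RR (p : ℕ) : Finset ℕ := ((p - 1) / 2).primeFactors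

theorem type_of_affine (hp4 : p % 4 = 3) (ζ : ℕ → (ZMod p)ˣ)
    (hζ : ∀ r ∈ RR p, orderOf (ζ r) = r) {c : (ZMod p)ˣ} {b : ZMod p}
    (hsign : Equiv.Perm.sign (af c b) = 1) (hc : c ≠ 1) :
    ∃ r ∈ RR p, ∃ a, U (ζ r) a ∈ Subgroup.zpowers (af c b) := by
  have hp : p.Prime := Fact.out
  set m := orderOf c with hm
  have hmpos : 0 < m := orderOf_pos c
  have hmdvd : m ∣ p - 1 := by
    rw [← ZMod.card_units p]
    exact orderOf_dvd_card
  have hodd : ¬ 2 ∣ m := by
    intro h2
    obtain ⟨k, hk⟩ := h2
    have hk0 : 0 < k := by omega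
    have hck : c ^ k = -1 := by
      have h3 : (c ^ k) ^ 2 = 1 := by
        rw [← pow_mul, mul_comm k 2, ← hk, hm, pow_orderOf_eq_one]
      have h4 : (((c ^ k : (ZMod p)ˣ)) : ZMod p) ^ 2 = 1 := by
        rw [← Units.val_pow_eq_pow_val, h3, Units.val_one]
      rw [pow_two, mul_self_eq_one_iff] at h4
      rcases h4 with h5 | h5
      · exfalso
        have h6 : c ^ k = 1 := Units.ext h5
        have h7 : m ∣ k := orderOf_dvd_of_pow_eq_one h6
        have := Nat.le_of_dvd hk0 h7
        omega
      · apply Units.ext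
        rw [h5, Units.val_neg, Units.val_one]
    obtain ⟨b', hb'⟩ := af_pow c b k
    have hne : (-1 : (ZMod p)ˣ) ≠ 1 := by
      intro h
      rw [h] at hck
      have h7 : m ∣ k := orderOf_dvd_of_pow_eq_one hck
      have := Nat.le_of_dvd hk0 h7
      omega
    rw [hck] at hb'
    obtain ⟨a, ha⟩ := af_eq_U hne b'
    rw [ha] at hb'
    have h8 := congrArg Equiv.Perm.sign hb'
    rw [map_pow, hsign, one_pow, sign_neg_one hp4] at h8
    exact absurd h8 (by decide)
  have hm1 : m ≠ 1 := by
    intro h
    apply hc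
    rw [← orderOf_eq_one_iff, ← hm, h]
  set r := m.minFac with hr
  have hrp : r.Prime := Nat.minFac_prime hm1
  have hrm : r ∣ m := Nat.minFac_dvd m
  have hr2 : ¬ r = 2 := by
    intro h
    apply hodd
    rw [← h]
    exact hrm
  have hrR : r ∈ RR p := by
    rw [RR, Nat.mem_primeFactors]
    refine ⟨hrp, ?_, ?_⟩
    · have h1 : r ∣ 2 * ((p - 1) / 2) := by
        have : 2 * ((p - 1) / 2) = p - 1 := by omega
        rw [this]
        exact hrm.trans hmdvd
      rcases (Nat.Prime.dvd_mul hrp).1 h1 with h2 | h2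
      · exfalso
        exact hr2 ((Nat.prime_dvd_prime_iff_eq hrp Nat.prime_two).1 h2)
      · exact h2
    · omega
  refine ⟨r, hrR, ?_⟩
  obtain ⟨b', hb'⟩ := af_pow c b (m / r)
  have hmr : m / r ≠ 0 := by
    have := Nat.div_pos (Nat.le_of_dvd hmpos hrm) hrp.pos
    omega
  have hord : orderOf (c ^ (m / r)) = r := by
    rw [orderOf_pow_of_dvd hmr (by rw [← hm]; exact Nat.div_dvd_of_dvd hrm), ← hm]
    exact Nat.div_div_self hrm hmpos.ne'
  have hc1 : c ^ (m / r) ≠ 1 := by
    intro h
    rw [h, orderOf_one] at hord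
    exact hrp.one_lt.ne hord
  obtain ⟨a, ha⟩ := af_eq_U hc1 b'
  refine ⟨a, ?_⟩
  have hprim : IsPrimitiveRoot ((c ^ (m / r) : (ZMod p)ˣ) : ZMod p) r := by
    rw [IsPrimitiveRoot.coe_units_iff]
    have := IsPrimitiveRoot.orderOf (c ^ (m / r))
    rw [hord] at this
    exact this
  have : NeZero r := ⟨hrp.ne_zero⟩
  obtain ⟨i, _, hi⟩ := hprim.eq_pow_of_pow_eq_one (ξ := ((ζ r : (ZMod p)ˣ) : ZMod p)) (by
    have h1 : (ζ r) ^ r = 1 := by
      have := pow_orderOf_eq_one (ζ r)
      rw [hζ r hrR] at this
      exact this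
    rw [← Units.val_pow_eq_pow_val, h1, Units.val_one])
  have hi' : (c ^ (m / r)) ^ i = ζ r := by
    apply Units.ext
    rw [Units.val_pow_eq_pow_val]
    exact hi
  rw [← hi', ← U_pow, ← ha, ← hb']
  exact Subgroup.pow_mem _ (Subgroup.pow_mem _ (Subgroup.mem_zpowers _) _) _

/-- `g` is good if all pairs of elements of the relevant prime orders in the two point stabilisers
generate insoluble groups. -/
def Good (ζ : ℕ → (ZMod p)ˣ) (g : Equiv.Perm (ZMod p)) : Prop :=
  ∀ r ∈ RR p, ∀ s ∈ RR p, ∀ a b : ZMod p,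
    ¬ Group.IsSolvable (Subgroup.closure {U (ζ r) a, g⁻¹ * U (ζ s) b * g})

theorem solvable_self {G : Type} [Group G] {x y : G} (h : y ∈ Subgroup.zpowers x) :
    Group.IsSolvable (Subgroup.closure {x, y}) := by
  have h1 : Subgroup.closure {x, y} = Subgroup.zpowers x := by
    apply le_antisymm
    · rw [Subgroup.closure_le]
      rintro z (rfl | rfl)
      · exact Subgroup.mem_zpowers _
      · exact h
    · rw [Subgroup.zpowers_le]
      exact Subgroup.subset_closure (by simp)
  rw [h1]
  refine Group.isSolvable_of_comm (fun a b => Subtype.ext ?_)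
  obtain ⟨i, hi⟩ := Subgroup.mem_zpowers_iff.1 a.2
  obtain ⟨j, hj⟩ := Subgroup.mem_zpowers_iff.1 b.2
  change (a : G) * b = b * a
  rw [← hi, ← hj]
  exact Commute.zpow_zpow_self x i j

theorem mem_closure_of_zpowers_left {G : Type} [Group G] {x y z : G} (h : z ∈ Subgroup.zpowers x) :
    z ∈ Subgroup.closure {x, y} := by
  have : Subgroup.zpowers x ≤ Subgroup.closure {x, y} := by
    rw [Subgroup.zpowers_le]
    exact Subgroup.subset_closure (by simp)
  exact this h

theorem mem_closure_of_zpowers_right {G : Type} [Group G] {x y z : G} (h : z ∈ Subgroup.zpowers y) :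
    z ∈ Subgroup.closure {x, y} := by
  have : Subgroup.zpowers y ≤ Subgroup.closure {x, y} := by
    rw [Subgroup.zpowers_le]
    exact Subgroup.subset_closure (by simp)
  exact this h

theorem conj_mem_zpowers {G : Type} [Group G] {x y : G} (g : G) (h : y ∈ Subgroup.zpowers x) :
    g * y * g⁻¹ ∈ Subgroup.zpowers (g * x * g⁻¹) := by
  rw [Subgroup.mem_zpowers_iff] at h ⊢
  obtain ⟨k, rfl⟩ := h
  exact ⟨k, conj_zpow⟩

/-- The central conclusion: a good `g` produces two `p`-cycles at distance at least four. -/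
theorem no_path (hp4 : p % 4 = 3) (hp7 : 7 ≤ p) (ζ : ℕ → (ZMod p)ˣ)
    (hζ : ∀ r ∈ RR p, orderOf (ζ r) = r) {g : Equiv.Perm (ZMod p)} (hg : Good ζ g)
    {z z' : Equiv.Perm (ZMod p)} (hz : Equiv.Perm.sign z = 1) (hz' : Equiv.Perm.sign z' = 1)
    (hz1 : z ≠ 1) (hz1' : z' ≠ 1)
    (h1 : Group.IsSolvable (Subgroup.closure {T (1 : ZMod p), z}))
    (h2 : Group.IsSolvable (Subgroup.closure {z, z'}))
    (h3 : Group.IsSolvable (Subgroup.closure {z', g⁻¹ * T (1 : ZMod p) * g})) : False := by
  have hp : p.Prime := Fact.out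
  -- a relevant prime
  obtain ⟨r0, hr0⟩ : ∃ r, r ∈ RR p := by
    have : (p - 1) / 2 ≠ 1 := by omega
    exact ⟨_, Nat.mem_primeFactors.2 ⟨Nat.minFac_prime this, Nat.minFac_dvd _, by omega⟩⟩
  -- U never lies in a cyclic group generated by a translation: order considerations
  have hUT : ∀ r ∈ RR p, ∀ a (t : Equiv.Perm (ZMod p)), t ^ p = 1 →
      U (ζ r) a ∉ Subgroup.zpowers t := by
    intro r hr a t ht hmem
    have hrp := Nat.prime_of_mem_primeFactors hr
    have hrdvd := Nat.dvd_of_mem_primeFactors hr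
    rw [Subgroup.mem_zpowers_iff] at hmem
    obtain ⟨k, hk⟩ := hmem
    have h4 : (U (ζ r) a) ^ p = 1 := by
      rw [← hk, ← zpow_natCast, ← zpow_mul, mul_comm, zpow_mul, zpow_natCast, ht, one_zpow]
    rw [U_pow] at h4
    have h5 : (ζ r) ^ p = 1 := by
      by_contra hne
      have h6 := (U_fix hne a (a + 1)).1 (by rw [h4]; rfl)
      exact one_ne_zero (add_eq_left.1 h6)
    have h7 : r ∣ p := by
      rw [← hζ r hr]
      exact orderOf_dvd_of_pow_eq_one h5
    have h8 : r = p := (Nat.prime_dvd_prime_iff_eq hrp hp).1 h7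
    have h9 := Nat.le_of_dvd (by omega) hrdvd
    omega
  have hTp : (T (1 : ZMod p)) ^ p = 1 := by
    rw [T_pow, CharP.cast_eq_zero, zero_mul, T_zero]
  have hconjpow : ∀ (t h : Equiv.Perm (ZMod p)) (k : ℕ), t ^ k = 1 → (h * t * h⁻¹) ^ k = 1 := by
    intro t h k ht
    rw [conj_pow, ht, mul_one, mul_inv_cancel]
  -- an affine even nontrivial conjugate of a `U` gives a contradiction
  have key : ∀ r ∈ RR p, ∀ a, (∃ c b, g * U (ζ r) a * g⁻¹ = af c b) → False := by
    rintro r hr a ⟨c, b, hcb⟩
    have hrp := Nat.prime_of_mem_primeFactors hr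
    have hsU := U_semi hrp (hζ r hr) a
    have hsg : Equiv.Perm.sign (af c b) = 1 := by
      rw [← hcb, map_mul, map_mul, Equiv.Perm.sign_inv, mul_comm (Equiv.Perm.sign g), mul_assoc,
        Int.units_mul_self, mul_one]
      have h4 := congrArg Equiv.Perm.sign hsU.pow
      rw [map_pow, map_one] at h4
      have hodd : Odd r := by
        have hrdvd := Nat.dvd_of_mem_primeFactors hr
        have : Odd ((p - 1) / 2) := by rw [Nat.odd_iff]; omega
        exact this.of_dvd_nat hrdvd
      rcases Int.units_eq_one_or (Equiv.Perm.sign (U (ζ r) a)) with h5 | h5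
      · exact h5
      · rw [h5, hodd.neg_one_pow] at h4
        exact absurd h4 (by decide)
    by_cases hc : c = 1
    · -- translation of order dividing p
      subst hc
      have h4 : (g * U (ζ r) a * g⁻¹) ^ p = 1 := by
        rw [hcb]
        change (T b) ^ p = 1
        rw [T_pow, CharP.cast_eq_zero, zero_mul, T_zero]
      have h5 : (U (ζ r) a) ^ p = 1 := by
        have := hconjpow _ g⁻¹ p h4
        have h6 : g⁻¹ * (g * U (ζ r) a * g⁻¹) * g⁻¹⁻¹ = U (ζ r) a := by group
        rw [h6] at this
        exact this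
      exact hUT r hr a (U (ζ r) a) h5 (Subgroup.mem_zpowers _)
    · obtain ⟨s, hs, b', hb'⟩ := type_of_affine hp4 ζ hζ hsg hc
      rw [← hcb] at hb'
      apply hg r hr s hs a b'
      apply solvable_self
      have := conj_mem_zpowers g⁻¹ hb'
      have h6 : g⁻¹ * (g * U (ζ r) a * g⁻¹) * g⁻¹⁻¹ = U (ζ r) a := by group
      rw [h6, inv_inv] at this
      exact this
  obtain ⟨c, b, hzcb⟩ := affine_of_solvable h1
  have h3' : Group.IsSolvable (Subgroup.closure {T (1 : ZMod p), g * z' * g⁻¹}) := by
    have h4 := solvable_conj g h3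
    have h5 : g * (g⁻¹ * T (1 : ZMod p) * g) * g⁻¹ = T 1 := by group
    rw [h5, Set.pair_comm] at h4
    exact h4
  obtain ⟨c', b', hz'cb⟩ := affine_of_solvable h3'
  have hsz : Equiv.Perm.sign (af c b) = 1 := by rw [← hzcb]; exact hz
  have hsz' : Equiv.Perm.sign (af c' b') = 1 := by
    rw [← hz'cb, map_mul, map_mul, Equiv.Perm.sign_inv, mul_comm (Equiv.Perm.sign g), mul_assoc,
        Int.units_mul_self, mul_one]
    exact hz'
  by_cases hc : c = 1
  · -- z is a translation
    have hT1 : T (1 : ZMod p) ∈ Subgroup.zpowers z := by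
      rw [hzcb]
      exact af_mem_T (by rw [← hzcb]; exact hz1) hc
    have h4 : Group.IsSolvable (Subgroup.closure {T (1 : ZMod p), z'}) :=
      solvable_pair_mono h2 (mem_closure_of_zpowers_left hT1)
        (Subgroup.subset_closure (by simp))
    obtain ⟨c2, b2, hz2⟩ := affine_of_solvable h4
    by_cases hc2 : c2 = 1
    · -- z' is a translation
      have hT2 : T (1 : ZMod p) ∈ Subgroup.zpowers z' := by
        rw [hz2]
        exact af_mem_T (by rw [← hz2]; exact hz1') hc2
      by_cases hc' : c' = 1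
      · -- g normalises the translations
        have hT3 := conj_mem_zpowers g hT2
        rw [hz'cb, hc', Subgroup.mem_zpowers_iff] at hT3
        obtain ⟨k, hk⟩ := hT3
        have hk2 : ∃ y, g * T (1 : ZMod p) * g⁻¹ = T y := by
          rw [← hk]
          obtain ⟨k, rfl | rfl⟩ := k.eq_nat_or_neg
          · refine ⟨(k : ZMod p) * b', ?_⟩
            rw [zpow_natCast]
            exact T_pow b' k
          · refine ⟨-((k : ZMod p) * b'), ?_⟩
            rw [zpow_neg, zpow_natCast]
            have : (af 1 b') ^ k = T ((k : ZMod p) * b') := T_pow b' k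
            rw [this, inv_eq_iff_mul_eq_one, T_mul, add_neg_cancel, T_zero]
        obtain ⟨y, hy⟩ := hk2
        have hstep : ∀ x, g (x + 1) = g x + y := by
          intro x
          have := congrArg (fun σ : Equiv.Perm (ZMod p) => σ (g x)) hy
          simp only [Equiv.Perm.mul_apply, T_apply] at this
          rw [← this]
          simp
        have hlin : ∀ x, g x = y * x + g 0 := by
          intro x
          have hk : ∀ k : ℕ, g (k : ZMod p) = g 0 + k * y := by
            intro k
            induction k with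
            | zero => simp
            | succ k ih =>
              rw [Nat.cast_succ, hstep, ih]
              ring
          have := hk x.val
          rw [ZMod.natCast_zmod_val] at this
          rw [this]
          ring
        apply hg r0 hr0 r0 hr0 0 (g 0)
        have h5 : g⁻¹ * U (ζ r0) (g 0) * g = U (ζ r0) 0 := by
          rw [mul_assoc, inv_mul_eq_iff_eq_mul]
          ext1 x
          rw [Equiv.Perm.mul_apply, Equiv.Perm.mul_apply, U_apply, U_apply, hlin x,
            hlin (((ζ r0 : (ZMod p)ˣ) : ZMod p) * (x - 0) + 0)]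
          ring
        rw [h5]
        exact solvable_self (Subgroup.mem_zpowers _)
      · -- z'' of type U but of order p
        obtain ⟨s, hs, b3, hb3⟩ := type_of_affine hp4 ζ hζ hsz' hc'
        refine hUT s hs b3 _ ?_ hb3
        rw [← hz'cb]
        apply hconjpow
        rw [hz2, hc2]
        change (T b2) ^ p = 1
        rw [T_pow, CharP.cast_eq_zero, zero_mul, T_zero]
    · obtain ⟨r, hr, a, ha⟩ := type_of_affine hp4 ζ hζ (by rw [← hz2]; exact hz') hc2
      rw [← hz2] at ha
      apply key r hr a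
      have h5 := conj_mem_zpowers g ha
      rw [hz'cb, Subgroup.mem_zpowers_iff] at h5
      obtain ⟨k, hk⟩ := h5
      rw [← hk]
      obtain ⟨k, rfl | rfl⟩ := k.eq_nat_or_neg
      · rw [zpow_natCast]
        obtain ⟨b4, hb4⟩ := af_pow c' b' k
        exact ⟨_, _, hb4⟩
      · rw [zpow_neg, zpow_natCast]
        obtain ⟨b4, hb4⟩ := af_pow c' b' k
        rw [hb4]
        refine ⟨(c' ^ k)⁻¹, -((((c' ^ k)⁻¹ : (ZMod p)ˣ) : ZMod p) * b4), ?_⟩
        rw [inv_eq_iff_mul_eq_one, af_mul]
        rw [mul_inv_cancel, mul_neg, Units.mul_inv_cancel_left, neg_add_cancel, af_one]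
  · obtain ⟨r, hr, a, ha⟩ := type_of_affine hp4 ζ hζ hsz hc
    rw [← hzcb] at ha
    by_cases hc' : c' = 1
    · have hT2 : T (1 : ZMod p) ∈ Subgroup.zpowers (g * z' * g⁻¹) := by
        rw [hz'cb]
        apply af_mem_T _ hc'
        rw [← hz'cb]
        intro h
        apply hz1'
        have : z' = g⁻¹ * (g * z' * g⁻¹) * g := by group
        rw [this, h]
        group
      have h4 := solvable_conj g h2
      have h5 : Group.IsSolvable (Subgroup.closure {T (1 : ZMod p), g * z * g⁻¹}) := by
        apply solvable_pair_mono h4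
        · exact mem_closure_of_zpowers_right hT2
        · exact Subgroup.subset_closure (by simp)
      obtain ⟨c5, b5, hc5⟩ := affine_of_solvable h5
      apply key r hr a
      have h6 := conj_mem_zpowers g ha
      rw [hc5, Subgroup.mem_zpowers_iff] at h6
      obtain ⟨k, hk⟩ := h6
      rw [← hk]
      obtain ⟨k, rfl | rfl⟩ := k.eq_nat_or_neg
      · rw [zpow_natCast]
        obtain ⟨b4, hb4⟩ := af_pow c5 b5 k
        exact ⟨_, _, hb4⟩
      · rw [zpow_neg, zpow_natCast]
        obtain ⟨b4, hb4⟩ := af_pow c5 b5 k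
        rw [hb4]
        refine ⟨(c5 ^ k)⁻¹, -((((c5 ^ k)⁻¹ : (ZMod p)ˣ) : ZMod p) * b4), ?_⟩
        rw [inv_eq_iff_mul_eq_one, af_mul]
        rw [mul_inv_cancel, mul_neg, Units.mul_inv_cancel_left, neg_add_cancel, af_one]
    · obtain ⟨s, hs, b3, hb3⟩ := type_of_affine hp4 ζ hζ hsz' hc'
      rw [← hz'cb] at hb3
      apply hg r hr s hs a b3
      apply solvable_pair_mono h2
      · exact mem_closure_of_zpowers_left ha
      · have := conj_mem_zpowers g⁻¹ hb3
        have h6 : g⁻¹ * (g * z' * g⁻¹) * g⁻¹⁻¹ = z' := by group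
        rw [h6, inv_inv] at this
        exact mem_closure_of_zpowers_right this

end Pool.Agent.Lib.MPcff1c1
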