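import Mathlib
import Pool.Agent.Lib.MP_cff1c1_al.Prime
import Pool.Agent.Lib.MP_cff1c1_al.Basic

/-! Codes of permutations as natural numbers, and a checker for the small primes. -/

set_option linter.all false

namespace Pool.Agent.Lib.MPcff1c1

/-- `∑_{i<k} f i * 256^i`. -/
def bsum (f : ℕ → ℕ) (k : ℕ) : ℕ :=
  Nat.rec 0 (fun i acc => Nat.add acc (Nat.shiftLeft (f i) (Nat.mul 8 i))) k

def look (P x : ℕ) : ℕ := Nat.mod (Nat.shiftRight P x) 256

theorem bsum_succ (f : ℕ → ℕ) (k : ℕ) : bsum f (k + 1) = bsum f k + f k * 256 ^ k := by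
  change bsum f k + (f k) <<< (8 * k) = _
  rw [Nat.shiftLeft_eq, pow_mul, show (2 : ℕ) ^ 8 = 256 by norm_num]

theorem bsum_lt (f : ℕ → ℕ) (k : ℕ) (hf : ∀ i < k, f i < 256) : bsum f k < 256 ^ k := by
  induction k with
  | zero => change 0 < _; simp
  | succ k ih =>
      rw [bsum_succ]
      have h1 := ih (fun i hi => hf i (by omega))
      have h2 : f k ≤ 255 := by have := hf k (by omega); omega
      have h3 : f k * 256 ^ k ≤ 255 * 256 ^ k := Nat.mul_le_mul_right _ h2
      rw [pow_succ]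
      omega

theorem bsum_congr {f g : ℕ → ℕ} {k : ℕ} (h : ∀ i < k, f i = g i) : bsum f k = bsum g k := by
  induction k with
  | zero => rfl
  | succ k ih =>
      rw [bsum_succ, bsum_succ, ih (fun i hi => h i (by omega)), h k (by omega)]

theorem look_eq (P x : ℕ) : look P (8 * x) = P / 256 ^ x % 256 := by
  change (P >>> (8 * x)) % 256 = _
  rw [Nat.shiftRight_eq_div_pow, pow_mul, show (2 : ℕ) ^ 8 = 256 by norm_num]

theorem look_bsum (f : ℕ → ℕ) (k : ℕ) (hf : ∀ i < k, f i < 256) (j : ℕ) (hj : j < k) :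
    look (bsum f k) (8 * j) = f j := by
  rw [look_eq]
  induction k with
  | zero => omega
  | succ k ih =>
      rw [bsum_succ]
      rcases Nat.lt_succ_iff_lt_or_eq.1 hj with h | h
      · have h1 : f k * 256 ^ k = 256 ^ j * (256 * (f k * 256 ^ (k - j - 1))) := by
          have : 256 ^ k = 256 ^ j * 256 * 256 ^ (k - j - 1) := by
            rw [← pow_succ, ← pow_add]
            congr 1
            omega
          rw [this]
          ring
        rw [h1, Nat.add_mul_div_left _ _ (by positivity), Nat.add_mul_mod_self_left]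
        exact ih (fun i hi => hf i (by omega)) h
      · subst h
        have h1 := bsum_lt f j (fun i hi => hf i (by omega))
        rw [mul_comm, Nat.add_mul_div_left _ _ (by positivity), Nat.div_eq_of_lt h1, Nat.zero_add]
        exact Nat.mod_eq_of_lt (hf j (by omega))

variable {p : ℕ} [Fact p.Prime]

def code (σ : Equiv.Perm (ZMod p)) : ℕ := bsum (fun i => 8 * (σ (i : ZMod p)).val) p

theorem code_bound (hp : p ≤ 32) (σ : Equiv.Perm (ZMod p)) (x : ZMod p) :
    8 * (σ x).val < 256 := by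
  haveI : NeZero p := ⟨(Fact.out : p.Prime).ne_zero⟩
  have := ZMod.val_lt (σ x)
  omega

theorem look_code (hp : p ≤ 32) (σ : Equiv.Perm (ZMod p)) (x : ZMod p) :
    look (code σ) (8 * x.val) = 8 * (σ x).val := by
  haveI : NeZero p := ⟨(Fact.out : p.Prime).ne_zero⟩
  unfold code
  rw [look_bsum _ _ (fun i _ => code_bound hp σ _) _ (ZMod.val_lt x), ZMod.natCast_zmod_val]

theorem look_code' (hp : p ≤ 32) (σ : Equiv.Perm (ZMod p)) {i : ℕ} (hi : i < p) :
    look (code σ) (8 * i) = 8 * (σ (i : ZMod p)).val := by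
  have := look_code hp σ (i : ZMod p)
  rwa [ZMod.val_natCast, Nat.mod_eq_of_lt hi] at this

theorem code_inj (hp : p ≤ 32) {σ τ : Equiv.Perm (ZMod p)} (h : code σ = code τ) : σ = τ := by
  haveI : NeZero p := ⟨(Fact.out : p.Prime).ne_zero⟩
  apply Equiv.ext
  intro x
  have h1 := look_code hp σ x
  rw [h, look_code hp τ x] at h1
  exact ZMod.val_injective p (by omega)

/-- composition -/
def bcomp (k P Q : ℕ) : ℕ := bsum (fun i => look P (look Q (Nat.mul 8 i))) k

theorem bcomp_code (hp : p ≤ 32) (σ τ : Equiv.Perm (ZMod p)) :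
    bcomp p (code σ) (code τ) = code (σ * τ) := by
  apply bsum_congr
  intro i hi
  change look (code σ) (look (code τ) (8 * i)) = _
  rw [look_code' hp τ hi, look_code hp]
  rfl

/-- identity -/
def bid (k : ℕ) : ℕ := bsum (fun i => Nat.mul 8 i) k

theorem bid_eq : bid p = code (1 : Equiv.Perm (ZMod p)) := by
  apply bsum_congr
  intro i hi
  change 8 * i = 8 * ((i : ZMod p)).val
  rw [ZMod.val_natCast, Nat.mod_eq_of_lt hi]

/-- the map `x ↦ z (x - a) + a` -/
def ugen (k z a : ℕ) : ℕ :=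
  bsum (fun i => Nat.mul 8 (Nat.mod (Nat.add (Nat.mul z (Nat.add i (Nat.sub k a))) a) k)) k

theorem aff_nat (c : (ZMod p)ˣ) (z : ℕ) (hz : (c : ZMod p) = (z : ZMod p)) {a : ℕ} (ha : a < p)
    (i : ℕ) : (z * (i + (p - a)) + a) % p = (U c (a : ZMod p) (i : ZMod p)).val := by
  have h1 : U c (a : ZMod p) (i : ZMod p) = ((z * (i + (p - a)) + a : ℕ) : ZMod p) := by
    rw [U_apply, hz]
    push_cast [Nat.cast_sub ha.le]
    rw [ZMod.natCast_self]
    ring
  rw [h1, ZMod.val_natCast]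

theorem ugen_eq (c : (ZMod p)ˣ) (z : ℕ) (hz : (c : ZMod p) = (z : ZMod p)) {a : ℕ} (ha : a < p) :
    ugen p z a = code (U c (a : ZMod p)) := by
  apply bsum_congr
  intro i hi
  change 8 * ((z * (i + (p - a)) + a) % p) = _
  rw [aff_nat c z hz ha]

/-- the conjugate `G⁻¹ (x ↦ z (x - b) + b) G` -/
def wgen (k G G' z b : ℕ) : ℕ :=
  bsum (fun i => look G' (Nat.mul 8 (Nat.mod (Nat.add (Nat.mul z (Nat.add
    (Nat.shiftRight (look G (Nat.mul 8 i)) 3) (Nat.sub k b))) b) k))) k

theorem wgen_eq (hp : p ≤ 32) (c : (ZMod p)ˣ) (z : ℕ) (hz : (c : ZMod p) = (z : ZMod p)) {b : ℕ}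
    (hb : b < p) (g : Equiv.Perm (ZMod p)) :
    wgen p (code g) (code g⁻¹) z b = code (g⁻¹ * U c (b : ZMod p) * g) := by
  haveI : NeZero p := ⟨(Fact.out : p.Prime).ne_zero⟩
  apply bsum_congr
  intro i hi
  change look (code g⁻¹) (8 * ((z * ((look (code g) (8 * i)) >>> 3 + (p - b)) + b) % p)) = _
  rw [look_code' hp g hi, Nat.shiftRight_eq_div_pow]
  have h1 : 8 * (g (i : ZMod p)).val / 2 ^ 3 = (g (i : ZMod p)).val := by
    rw [show (2 : ℕ) ^ 3 = 8 by norm_num]
    omega
  rw [h1, aff_nat c z hz hb, look_code hp, ZMod.natCast_zmod_val]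
  rfl

def blet (u w m i : ℕ) : ℕ := cond (Nat.beq (Nat.mod (Nat.shiftRight m i) 2) 1) w u

def bword (k u w m l : ℕ) : ℕ :=
  Nat.rec (blet u w m 0) (fun i ih => bcomp k (blet u w m (Nat.succ i)) ih) l

theorem blet_spec (x y : Equiv.Perm (ZMod p)) (m i : ℕ) :
    ∃ z ∈ Subgroup.closure {x, y}, blet (code x) (code y) m i = code z := by
  unfold blet
  cases (Nat.beq (Nat.mod (Nat.shiftRight m i) 2) 1)
  · exact ⟨x, Subgroup.subset_closure (by simp), rfl⟩
  · exact ⟨y, Subgroup.subset_closure (by simp), rfl⟩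

theorem bword_spec (hp : p ≤ 32) (x y : Equiv.Perm (ZMod p)) (m l : ℕ) :
    ∃ z ∈ Subgroup.closure {x, y}, bword p (code x) (code y) m l = code z := by
  induction l with
  | zero => exact blet_spec x y m 0
  | succ l ih =>
      obtain ⟨z, hz, h1⟩ := ih
      obtain ⟨z', hz', h2⟩ := blet_spec x y m (Nat.succ l)
      refine ⟨z' * z, Subgroup.mul_mem _ hz' hz, ?_⟩
      change bcomp p (blet (code x) (code y) m (Nat.succ l)) (bword p (code x) (code y) m l) = _
      rw [h1, h2, bcomp_code hp]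

def bpow (k : ℕ) (fuel : ℕ) : ℕ → ℕ → ℕ :=
  Nat.rec (fun P _ => P) (fun _ ih P n =>
    cond (Nat.beq n 1) P
      (cond (Nat.beq (Nat.mod n 2) 0) (ih (bcomp k P P) (Nat.div n 2))
        (bcomp k P (ih (bcomp k P P) (Nat.div n 2))))) fuel

theorem bpow_succ (k fuel P n : ℕ) : bpow k (fuel + 1) P n =
    cond (Nat.beq n 1) P
      (cond (Nat.beq (n % 2) 0) (bpow k fuel (bcomp k P P) (n / 2))
        (bcomp k P (bpow k fuel (bcomp k P P) (n / 2)))) := rfl

theorem bpow_mem (hp : p ≤ 32) (fuel : ℕ) (σ : Equiv.Perm (ZMod p)) (n : ℕ) :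
    ∃ j : ℕ, bpow p fuel (code σ) n = code (σ ^ j) := by
  induction fuel generalizing σ n with
  | zero => exact ⟨1, by rw [pow_one]; rfl⟩
  | succ f ih =>
      rw [bpow_succ]
      cases Nat.beq n 1
      · cases Nat.beq (n % 2) 0
        · obtain ⟨j, hj⟩ := ih (σ * σ) (n / 2)
          refine ⟨1 + 2 * j, ?_⟩
          change bcomp p (code σ) (bpow p f (bcomp p (code σ) (code σ)) (n / 2)) = _
          rw [bcomp_code hp, hj, bcomp_code hp, pow_add, pow_mul, pow_one, pow_two]
        · obtain ⟨j, hj⟩ := ih (σ * σ) (n / 2)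
          refine ⟨2 * j, ?_⟩
          change bpow p f (bcomp p (code σ) (code σ)) (n / 2) = _
          rw [bcomp_code hp, hj, pow_mul, pow_two]
      · exact ⟨1, by rw [pow_one]; rfl⟩

theorem bpow_spec (hp : p ≤ 32) (fuel : ℕ) (σ : Equiv.Perm (ZMod p)) (n : ℕ) (h1 : 1 ≤ n)
    (h2 : n < 2 ^ (fuel + 1)) : bpow p fuel (code σ) n = code (σ ^ n) := by
  induction fuel generalizing σ n with
  | zero =>
      have : n = 1 := by omega
      subst this
      rw [pow_one]
      rfl
  | succ f ih =>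
      rw [bpow_succ]
      by_cases h3 : n = 1
      · subst h3
        rw [pow_one]
        rfl
      · have h4 : Nat.beq n 1 = false := by
          cases hb : Nat.beq n 1
          · rfl
          · exact absurd (Nat.eq_of_beq_eq_true hb) h3
        have h5 : n / 2 < 2 ^ (f + 1) := by
          rw [pow_succ] at h2
          omega
        have h6 : 1 ≤ n / 2 := by omega
        rw [h4, bcomp_code hp, ih (σ * σ) (n / 2) h6 h5]
        rcases Nat.mod_two_eq_zero_or_one n with h7 | h7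
        · have h8 : Nat.beq (n % 2) 0 = true := by rw [h7]; rfl
          rw [h8]
          change code _ = _
          congr 1
          rw [← pow_two, ← pow_mul]
          congr 1
          omega
        · have h8 : Nat.beq (n % 2) 0 = false := by rw [h7]; rfl
          rw [h8]
          change bcomp p _ (code _) = _
          rw [bcomp_code hp]
          congr 1
          rw [← pow_two, ← pow_mul, ← pow_succ']
          congr 1
          omega

/-- `P ^ n = 1` -/
def chkOrd (k ID P n : ℕ) : Bool :=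
  and (Nat.ble 1 n) (and (Nat.ble n 1023) (Nat.beq (bpow k 9 P n) ID))

theorem chkOrd_spec (hp : p ≤ 32) (σ : Equiv.Perm (ZMod p)) (n : ℕ)
    (h : chkOrd p (bid p) (code σ) n = true) : σ ^ n = 1 := by
  unfold chkOrd at h
  rw [Bool.and_eq_true, Bool.and_eq_true] at h
  obtain ⟨h1, h2, h3⟩ := h
  have h1' := Nat.le_of_ble_eq_true h1
  have h2' := Nat.le_of_ble_eq_true h2
  have h3' := Nat.eq_of_beq_eq_true h3
  rw [bpow_spec hp 9 σ n h1' (by omega), bid_eq] at h3'
  exact code_inj hp h3'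

/-- coprimality -/
def chkTriple (k ID A B a b c : ℕ) : Bool :=
  and (Nat.beq (Nat.gcd a b) 1) (and (Nat.beq (Nat.gcd a c) 1) (and (Nat.beq (Nat.gcd b c) 1)
    (and (not (Nat.beq A ID)) (and (chkOrd k ID A a) (and (chkOrd k ID B b)
      (chkOrd k ID (bcomp k A B) c))))))

theorem chkTriple_spec (hp : p ≤ 32) (σ τ : Equiv.Perm (ZMod p)) (a b c : ℕ)
    (h : chkTriple p (bid p) (code σ) (code τ) a b c = true) (H : Subgroup (Equiv.Perm (ZMod p)))
    (hσ : σ ∈ H) (hτ : τ ∈ H) : ¬ Group.IsSolvable H := by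
  intro hH
  unfold chkTriple at h
  simp only [Bool.and_eq_true] at h
  obtain ⟨h1, h2, h3, h4, h5, h6, h7⟩ := h
  have h1' := Nat.eq_of_beq_eq_true h1
  have h2' := Nat.eq_of_beq_eq_true h2
  have h3' := Nat.eq_of_beq_eq_true h3
  have h5' := chkOrd_spec hp σ a h5
  have h6' := chkOrd_spec hp τ b h6
  rw [bcomp_code hp] at h7
  have h7' := chkOrd_spec hp (σ * τ) c h7
  have h8 : σ = 1 := eq_one_of_coprime_triple H hσ hτ h1' h2' h3' h5' h6' h7'
  rw [h8, bid_eq] at h4
  rw [Bool.not_eq_true', ← Bool.not_eq_true] at h4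
  apply h4
  have h9 : ∀ n, Nat.beq n n = true := by
    intro n
    induction n with
    | zero => rfl
    | succ n ih => exact ih
  exact h9 _

def fld (E j : ℕ) : ℕ := Nat.mod (Nat.shiftRight E (Nat.mul 10 j)) 1024

/-- one entry -/
def chkE (k ID u w E : ℕ) : Bool :=
  chkTriple k ID (bpow k 9 (bword k u w (fld E 0) (fld E 1)) (fld E 2))
    (bpow k 9 (bword k u w (fld E 3) (fld E 4)) (fld E 5)) (fld E 6) (fld E 7) (fld E 8)

theorem chkE_spec (hp : p ≤ 32) (x y : Equiv.Perm (ZMod p)) (E : ℕ)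
    (h : chkE p (bid p) (code x) (code y) E = true) :
    ¬ Group.IsSolvable (Subgroup.closure {x, y}) := by
  unfold chkE at h
  obtain ⟨z, hz, h1⟩ := bword_spec hp x y (fld E 0) (fld E 1)
  obtain ⟨z', hz', h2⟩ := bword_spec hp x y (fld E 3) (fld E 4)
  obtain ⟨j, hj⟩ := bpow_mem hp 9 z (fld E 2)
  obtain ⟨j', hj'⟩ := bpow_mem hp 9 z' (fld E 5)
  rw [h1, h2, hj, hj'] at h
  exact chkTriple_spec hp _ _ _ _ _ h _ (Subgroup.pow_mem _ hz _) (Subgroup.pow_mem _ hz' _)

/-- a row -/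
def chkRow (k ID G G' zr zs a R : ℕ) : Bool :=
  Nat.rec true (fun b ih => and ih (chkE k ID (ugen k zr a) (wgen k G G' zs b)
    (Nat.shiftRight R (Nat.mul 90 b)))) k

/-- a block of rows `a = a₀, …, a₀ + n - 1` -/
def chkRows (k ID G G' zr zs a₀ n R : ℕ) : Bool :=
  Nat.rec true (fun a ih => and ih (chkRow k ID G G' zr zs (Nat.add a₀ a)
    (Nat.shiftRight R (Nat.mul (Nat.mul 90 k) a)))) n

theorem and_rec_spec (f : ℕ → Bool) (k : ℕ)
    (h : (Nat.rec true (fun b ih => and ih (f b)) k : Bool) = true) : ∀ b < k, f b = true := by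
  induction k with
  | zero => intro b hb; omega
  | succ k ih =>
      change and (Nat.rec true (fun b ih => and ih (f b)) k : Bool) (f k) = true at h
      rw [Bool.and_eq_true] at h
      intro b hb
      rcases Nat.lt_succ_iff_lt_or_eq.1 hb with h1 | h1
      · exact ih h.1 b h1
      · rw [h1]; exact h.2

theorem chkRow_spec (hp : p ≤ 32) (g : Equiv.Perm (ZMod p)) (c d : (ZMod p)ˣ) (zr zs : ℕ)
    (hc : (c : ZMod p) = (zr : ZMod p)) (hd : (d : ZMod p) = (zs : ZMod p)) (a : ℕ) (ha : a < p)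
    (R : ℕ) (h : chkRow p (bid p) (code g) (code g⁻¹) zr zs a R = true) (b : ZMod p) :
    ¬ Group.IsSolvable (Subgroup.closure {U c (a : ZMod p), g⁻¹ * U d b * g}) := by
  haveI : NeZero p := ⟨(Fact.out : p.Prime).ne_zero⟩
  have h1 := and_rec_spec _ _ h b.val (ZMod.val_lt b)
  rw [ugen_eq c zr hc ha, wgen_eq hp d zs hd (ZMod.val_lt b), ZMod.natCast_zmod_val] at h1
  exact chkE_spec hp _ _ _ h1

theorem chkRows_spec (hp : p ≤ 32) (g : Equiv.Perm (ZMod p)) (c d : (ZMod p)ˣ) (zr zs : ℕ)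
    (hc : (c : ZMod p) = (zr : ZMod p)) (hd : (d : ZMod p) = (zs : ZMod p)) (a₀ n : ℕ)
    (R : ℕ) (h : chkRows p (bid p) (code g) (code g⁻¹) zr zs a₀ n R = true) (a : ℕ) (ha : a < p)
    (h1 : a₀ ≤ a) (h2 : a < a₀ + n) (b : ZMod p) :
    ¬ Group.IsSolvable (Subgroup.closure {U c (a : ZMod p), g⁻¹ * U d b * g}) := by
  have h3 := and_rec_spec _ _ h (a - a₀) (by omega)
  have h4 : Nat.add a₀ (a - a₀) = a := by
    change a₀ + (a - a₀) = a
    omega
  rw [h4] at h3
  exact chkRow_spec hp g c d zr zs hc hd a ha _ h3 b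

end Pool.Agent.Lib.MPcff1c1
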