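import Mathlib

/-!
# The soluble graph of a group

* `solubleRadical G` is the join of all soluble normal subgroups of `G`; for a finite group it is
  the largest soluble normal subgroup `R(G)`.
* `solubleGraph G` has vertex set `G \ R(G)`, and two distinct vertices `x`, `y` are adjacent if
  and only if the subgroup `⟨x, y⟩` is soluble.
-/

namespace Pool.Agent.Lib.MPcff1c1

/-- The soluble radical of `G`: the join of all soluble normal subgroups of `G`. -/
def solubleRadical (G : Type) [Group G] : Subgroup G :=
  sSup {N : Subgroup G | N.Normal ∧ Group.IsSolvable N}

/-- The soluble graph of `G`: the vertices are the elements of `G` outside the soluble radical,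
and two distinct vertices are adjacent iff they generate a soluble subgroup. -/
def solubleGraph (G : Type) [Group G] : SimpleGraph {x : G // x ∉ solubleRadical G} where
  Adj x y := x ≠ y ∧ Group.IsSolvable (Subgroup.closure ({(x : G), (y : G)} : Set G))
  symm := ⟨fun x y h => ⟨h.1.symm, by rw [Set.pair_comm]; exact h.2⟩⟩
  loopless := ⟨fun x h => h.1 rfl⟩

end Pool.Agent.Lib.MPcff1c1
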