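import Mathlib
import Pool.Agent.Lib.MP_cff1c1_al.Prime

/-! The union bound over all pairs of point stabilisers. -/

set_option linter.all false

namespace Pool.Agent.Lib.MPcff1c1

open Finset

variable {p : ℕ} [Fact p.Prime]

theorem U_eq_conj (c : (ZMod p)ˣ) (a : ZMod p) : U c a = T a * U c 0 * (T a)⁻¹ := by
  rw [eq_mul_inv_iff_mul_eq]
  ext1 x
  rw [Equiv.Perm.mul_apply, Equiv.Perm.mul_apply, U_apply, U_apply, T_apply, T_apply]
  ring

theorem odd_of_mem_RR (hp4 : p % 4 = 3) {r : ℕ} (hr : r ∈ RR p) : Odd r := by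
  have hrdvd := Nat.dvd_of_mem_primeFactors hr
  have : Odd ((p - 1) / 2) := by rw [Nat.odd_iff]; omega
  exact this.of_dvd_nat hrdvd

open Classical in
theorem card_pair_le (hp4 : p % 4 = 3) (hp7 : 7 ≤ p) (ζ : ℕ → (ZMod p)ˣ)
    (hζ : ∀ r ∈ RR p, orderOf (ζ r) = r) (ppe : ℕ → ℕ)
    (hppe : ∀ q e : ℕ, q.Prime → 1 ≤ e → q ^ e ≤ p → ppe (q ^ e) = e) {r s : ℕ} (hr : r ∈ RR p)
    (hs : s ∈ RR p) (a b : ZMod p) :
    (univ.filter (fun g : Equiv.Perm (ZMod p) =>
      Group.IsSolvable (Subgroup.closure {U (ζ r) a, g⁻¹ * U (ζ s) b * g}))).card ≤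
      bnd ppe p r s := by
  have h1 : (univ.filter (fun g : Equiv.Perm (ZMod p) =>
      Group.IsSolvable (Subgroup.closure {U (ζ r) a, g⁻¹ * U (ζ s) b * g}))).card ≤
      (univ.filter (fun g : Equiv.Perm (ZMod p) =>
      Group.IsSolvable (Subgroup.closure {U (ζ r) 0, g⁻¹ * U (ζ s) 0 * g}))).card := by
    apply card_le_card_of_injOn (fun g => (T b)⁻¹ * g * T a)
    · intro g hg
      rw [mem_coe, mem_filter] at hg ⊢
      refine ⟨mem_univ _, ?_⟩
      have h2 := solvable_conj (T a)⁻¹ hg.2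
      have e1 : (T a)⁻¹ * U (ζ r) a * (T a)⁻¹⁻¹ = U (ζ r) 0 := by
        rw [U_eq_conj (ζ r) a]; group
      have e2 : (T a)⁻¹ * (g⁻¹ * U (ζ s) b * g) * (T a)⁻¹⁻¹ =
          ((T b)⁻¹ * g * T a)⁻¹ * U (ζ s) 0 * ((T b)⁻¹ * g * T a) := by
        rw [U_eq_conj (ζ s) b]; group
      rw [e1, e2] at h2
      exact h2
    · intro g _ g' _ heq
      exact mul_left_cancel (mul_right_cancel heq)
  refine h1.trans ?_
  have hcard : Fintype.card (ZMod p) = p := ZMod.card p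
  have h2 := card_solvable_le (U_semi (Nat.prime_of_mem_primeFactors hr) (hζ r hr) (0 : ZMod p))
    (U_semi (Nat.prime_of_mem_primeFactors hs) (hζ s hs) (0 : ZMod p))
    (odd_of_mem_RR hp4 hr) (odd_of_mem_RR hp4 hs) (by rw [hcard]; omega) ppe (by rw [hcard]; exact hppe)
  rw [hcard] at h2
  exact h2

theorem exists_good (hp4 : p % 4 = 3) (hp7 : 7 ≤ p) (ζ : ℕ → (ZMod p)ˣ)
    (hζ : ∀ r ∈ RR p, orderOf (ζ r) = r) (ppe : ℕ → ℕ)
    (hppe : ∀ q e : ℕ, q.Prime → 1 ≤ e → q ^ e ≤ p → ppe (q ^ e) = e)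
    (hlt : p ^ 2 * ∑ r ∈ RR p, ∑ s ∈ RR p, bnd ppe p r s < p.factorial) :
    ∃ g, Good ζ g := by
  classical
  by_contra hcon
  push Not at hcon
  have hsub : (univ : Finset (Equiv.Perm (ZMod p))) ⊆
      (RR p).biUnion (fun r => (RR p).biUnion (fun s =>
        (univ : Finset (ZMod p × ZMod p)).biUnion (fun ab =>
          univ.filter (fun g : Equiv.Perm (ZMod p) =>
            Group.IsSolvable (Subgroup.closure {U (ζ r) ab.1, g⁻¹ * U (ζ s) ab.2 * g}))))) := by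
    intro g _
    have hg := hcon g
    unfold Good at hg
    push Not at hg
    obtain ⟨r, hr, s, hs, a, b, hab⟩ := hg
    rw [mem_biUnion]
    refine ⟨r, hr, ?_⟩
    rw [mem_biUnion]
    refine ⟨s, hs, ?_⟩
    rw [mem_biUnion]
    refine ⟨(a, b), mem_univ _, ?_⟩
    rw [mem_filter]
    exact ⟨mem_univ _, hab⟩
  have h1 := card_le_card hsub
  have hcard : Fintype.card (ZMod p) = p := ZMod.card p
  rw [card_univ, Fintype.card_perm, hcard] at h1
  have h2 : ((RR p).biUnion (fun r => (RR p).biUnion (fun s =>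
        (univ : Finset (ZMod p × ZMod p)).biUnion (fun ab =>
          univ.filter (fun g : Equiv.Perm (ZMod p) =>
            Group.IsSolvable (Subgroup.closure {U (ζ r) ab.1, g⁻¹ * U (ζ s) ab.2 * g})))))).card ≤
      ∑ r ∈ RR p, ∑ s ∈ RR p, p ^ 2 * bnd ppe p r s := by
    refine card_biUnion_le.trans (sum_le_sum fun r hr => ?_)
    refine card_biUnion_le.trans (sum_le_sum fun s hs => ?_)
    refine card_biUnion_le.trans ?_
    refine (sum_le_card_nsmul _ _ (bnd ppe p r s) (fun ab _ =>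
      card_pair_le hp4 hp7 ζ hζ ppe hppe hr hs ab.1 ab.2)).trans ?_
    rw [card_univ, Fintype.card_prod, hcard, smul_eq_mul, pow_two]
  have h3 : ∑ r ∈ RR p, ∑ s ∈ RR p, p ^ 2 * bnd ppe p r s =
      p ^ 2 * ∑ r ∈ RR p, ∑ s ∈ RR p, bnd ppe p r s := by
    rw [mul_sum]
    apply sum_congr rfl
    intro r _
    rw [mul_sum]
  omega

/-- Elements of prescribed prime order exist. -/
theorem exists_zeta (hp3 : p % 4 = 3) : ∃ ζ : ℕ → (ZMod p)ˣ, ∀ r ∈ RR p, orderOf (ζ r) = r := by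
  have h : ∀ r : ℕ, ∃ c : (ZMod p)ˣ, r ∈ RR p → orderOf c = r := by
    intro r
    by_cases hr : r ∈ RR p
    · have hrp := Nat.prime_of_mem_primeFactors hr
      have : Fact r.Prime := ⟨hrp⟩
      have hd : r ∣ Fintype.card (ZMod p)ˣ := by
        rw [ZMod.card_units p]
        have h1 := Nat.dvd_of_mem_primeFactors hr
        exact h1.trans (Nat.div_dvd_of_dvd (by omega))
      obtain ⟨c, hc⟩ := exists_prime_orderOf_dvd_card r hd
      exact ⟨c, fun _ => hc⟩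
    · exact ⟨1, fun h => absurd h hr⟩
  choose ζ hζ using h
  exact ⟨ζ, hζ⟩

end Pool.Agent.Lib.MPcff1c1
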