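import Mathlib
import Pool.Agent.Lib.MP_cff1c1_al.Defs
import Pool.Agent.Lib.MP_cff1c1_al.Prime
import Pool.Agent.Lib.MP_cff1c1_al.Union

/-! Connectivity of the soluble graph of the alternating group. -/

set_option linter.all false

namespace Pool.Agent.Lib.MPcff1c1

open Equiv Equiv.Perm

/-- If `y` normalises `⟨x⟩` then `⟨x, y⟩` is soluble. -/
theorem solvable_of_normalize {G : Type} [Group G] [Finite G] {x y : G}
    (h : y * x * y⁻¹ ∈ Subgroup.zpowers x) :
    Group.IsSolvable (Subgroup.closure {x, y}) := by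
  classical
  set H := Subgroup.closure {x, y} with hH
  have hxH : x ∈ H := Subgroup.subset_closure (by simp)
  have hyH : y ∈ H := Subgroup.subset_closure (by simp)
  have hmap : (Subgroup.zpowers x).map (MulAut.conj y).toMonoidHom = Subgroup.zpowers x := by
    have h1 : (Subgroup.zpowers x).map (MulAut.conj y).toMonoidHom ≤ Subgroup.zpowers x := by
      rw [MonoidHom.map_zpowers, Subgroup.zpowers_le]
      exact h
    refine Subgroup.eq_of_le_of_card_ge h1 ?_
    rw [Subgroup.card_map_of_injective (MulAut.conj y).injective]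
  have hN : H ≤ Subgroup.normalizer (Subgroup.zpowers x : Set G) := by
    rw [hH, Subgroup.closure_le]
    rintro z (rfl | rfl)
    · exact Subgroup.le_normalizer (Subgroup.mem_zpowers _)
    · change z ∈ Subgroup.normalizer _
      rw [Subgroup.mem_normalizer_iff]
      intro w
      constructor
      · intro hw
        rw [← SetLike.mem_coe, ← hmap]
        exact ⟨w, hw, rfl⟩
      · intro hw
        have hw' : z * w * z⁻¹ ∈ (Subgroup.zpowers x).map (MulAut.conj z).toMonoidHom := by
          rw [hmap]; exact hw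
        obtain ⟨w', hw1, hw2⟩ := hw'
        have : z * w' * z⁻¹ = z * w * z⁻¹ := hw2
        have : w' = w := by simpa using this
        rw [← this]
        exact hw1
  set N := (Subgroup.zpowers x).subgroupOf H with hNdef
  haveI hnorm : N.Normal := by
    constructor
    intro n hn g
    rw [hNdef, Subgroup.mem_subgroupOf] at hn ⊢
    have := (Subgroup.mem_normalizer_iff.1 (hN g.2) (n : G)).1 hn
    simpa using this
  rw [Group.isSolvable_iff_subgroup_quotient N]
  constructor
  · refine Group.isSolvable_of_comm (fun a b => ?_)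
    apply Subtype.ext
    apply Subtype.ext
    have ha : ((a : H) : G) ∈ Subgroup.zpowers x := Subgroup.mem_subgroupOf.1 a.2
    have hb : ((b : H) : G) ∈ Subgroup.zpowers x := Subgroup.mem_subgroupOf.1 b.2
    obtain ⟨i, hi⟩ := Subgroup.mem_zpowers_iff.1 ha
    obtain ⟨j, hj⟩ := Subgroup.mem_zpowers_iff.1 hb
    change ((a : H) : G) * ((b : H) : G) = ((b : H) : G) * ((a : H) : G)
    rw [← hi, ← hj]
    exact Commute.zpow_zpow_self x i j
  · set q : H →* H ⧸ N := QuotientGroup.mk' N with hq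
    set t : H ⧸ N := q ⟨y, hyH⟩ with ht
    have key : ∀ z (hz : z ∈ H), q ⟨z, hz⟩ ∈ Subgroup.zpowers t := by
      intro z hz
      induction hz using Subgroup.closure_induction with
      | mem z hz' =>
          rcases hz' with rfl | rfl
          · have : q ⟨z, hxH⟩ = 1 := by
              rw [hq, QuotientGroup.mk'_apply, QuotientGroup.eq_one_iff, hNdef,
                Subgroup.mem_subgroupOf]
              exact Subgroup.mem_zpowers _
            rw [this]
            exact Subgroup.one_mem _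
          · exact Subgroup.mem_zpowers _
      | one => 
          have : q ⟨1, Subgroup.one_mem _⟩ = 1 := map_one q
          rw [this]
          exact Subgroup.one_mem _
      | mul z w hz hw ihz ihw =>
          have : q ⟨z * w, Subgroup.mul_mem _ hz hw⟩ = q ⟨z, hz⟩ * q ⟨w, hw⟩ := by
            rw [← map_mul]; rfl
          rw [this]
          exact Subgroup.mul_mem _ ihz ihw
      | inv z hz ihz =>
          have : q ⟨z⁻¹, Subgroup.inv_mem _ hz⟩ = (q ⟨z, hz⟩)⁻¹ := by
            rw [← map_inv]; rfl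
          rw [this]
          exact Subgroup.inv_mem _ ihz
    refine Group.isSolvable_of_comm (fun a b => ?_)
    obtain ⟨a', rfl⟩ := QuotientGroup.mk'_surjective N a
    obtain ⟨b', rfl⟩ := QuotientGroup.mk'_surjective N b
    obtain ⟨i, hi⟩ := Subgroup.mem_zpowers_iff.1 (key a'.1 a'.2)
    obtain ⟨j, hj⟩ := Subgroup.mem_zpowers_iff.1 (key b'.1 b'.2)
    change q a' * q b' = q b' * q a'
    have hi' : q a' = t ^ i := hi.symm
    have hj' : q b' = t ^ j := hj.symm
    rw [hi', hj']
    exact Commute.zpow_zpow_self t i j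

theorem solvable_of_commute {G : Type} [Group G] [Finite G] {x y : G} (h : Commute x y) :
    Group.IsSolvable (Subgroup.closure {x, y}) := by
  apply solvable_of_normalize
  have : y * x * y⁻¹ = x := by
    rw [← h.eq, mul_inv_cancel_right]
  rw [this]
  exact Subgroup.mem_zpowers x

/-- Solubility of a two-generator subgroup is preserved under injective homomorphisms. -/
theorem solvable_map_iff {G H : Type} [Group G] [Group H] (f : G →* H)
    (hf : Function.Injective f) (x y : G) :
    Group.IsSolvable (Subgroup.closure {f x, f y}) ↔ Group.IsSolvable (Subgroup.closure {x, y}) := by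
  have h1 : Subgroup.closure {f x, f y} = (Subgroup.closure {x, y}).map f := by
    rw [MonoidHom.map_closure, Set.image_pair]
  rw [h1]
  let e := (Subgroup.closure {x, y}).equivMapOfInjective f hf
  constructor
  · intro h
    exact Group.isSolvable_of_surjective (f := e.symm.toMonoidHom) e.symm.surjective
  · intro h
    exact Group.isSolvable_of_surjective (f := e.toMonoidHom) e.surjective

variable {X : Type} [Fintype X] [DecidableEq X]

theorem solubleRadical_eq_bot (hX : 5 ≤ Fintype.card X) :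
    solubleRadical (alternatingGroup X) = ⊥ := by
  haveI := alternatingGroup.isSimpleGroup (α := X) (by rw [Nat.card_eq_fintype_card]; exact hX)
  unfold solubleRadical
  rw [sSup_eq_bot]
  rintro N ⟨hN, hs⟩
  rcases hN.eq_bot_or_eq_top with h | h
  · exact h
  · exfalso
    subst h
    have h1 : Group.IsSolvable (alternatingGroup X) :=
      Group.isSolvable_of_surjective (f := (Subgroup.topEquiv (G := alternatingGroup X)).toMonoidHom)
        (Subgroup.topEquiv (G := alternatingGroup X)).surjective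
    have h2 := (IsSimpleGroup.comm_iff_isSolvable (G := alternatingGroup X)).2 h1
    have h3 : IsMulCommutative (alternatingGroup X) := ⟨⟨h2⟩⟩
    rw [alternatingGroup.isMulCommutative_iff_card_le_three, Nat.card_eq_fintype_card] at h3
    omega

/-- Nonidentity even permutations. -/
def EV (X : Type) [Fintype X] [DecidableEq X] : Type := {σ : Perm X // sign σ = 1 ∧ σ ≠ 1}

/-- the vertex attached to a nonidentity even permutation -/
def vtx (hX : 5 ≤ Fintype.card X) (σ : EV X) :
    {x : alternatingGroup X // x ∉ solubleRadical (alternatingGroup X)} :=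
  ⟨⟨σ.1, mem_alternatingGroup.2 σ.2.1⟩, by
    rw [solubleRadical_eq_bot hX, Subgroup.mem_bot]
    intro h
    exact σ.2.2 (congrArg Subtype.val h)⟩

theorem vtx_surjective (hX : 5 ≤ Fintype.card X)
    (v : {x : alternatingGroup X // x ∉ solubleRadical (alternatingGroup X)}) :
    ∃ σ : EV X, vtx hX σ = v := by
  refine ⟨⟨v.1.1, mem_alternatingGroup.1 v.1.2, ?_⟩, rfl⟩
  intro h
  apply v.2
  have : v.1 = 1 := Subtype.ext h
  rw [this]
  exact Subgroup.one_mem _

theorem solvable_vtx_iff (hX : 5 ≤ Fintype.card X) (σ τ : EV X) :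
    Group.IsSolvable (Subgroup.closure ({((vtx hX σ).1 : alternatingGroup X),
      ((vtx hX τ).1 : alternatingGroup X)} : Set (alternatingGroup X))) ↔
    Group.IsSolvable (Subgroup.closure {σ.1, τ.1}) :=
  (solvable_map_iff (alternatingGroup X).subtype (Subgroup.subtype_injective _) _ _).symm

/-- Reachability. -/
def Rch (hX : 5 ≤ Fintype.card X) (σ τ : EV X) : Prop :=
  (solubleGraph (alternatingGroup X)).Reachable (vtx hX σ) (vtx hX τ)

theorem Rch.trans {hX : 5 ≤ Fintype.card X} {σ τ ρ : EV X} (h1 : Rch hX σ τ) (h2 : Rch hX τ ρ) :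
    Rch hX σ ρ := SimpleGraph.Reachable.trans h1 h2

theorem Rch.symm {hX : 5 ≤ Fintype.card X} {σ τ : EV X} (h1 : Rch hX σ τ) :
    Rch hX τ σ := SimpleGraph.Reachable.symm h1

theorem rch_of_solvable (hX : 5 ≤ Fintype.card X) (σ τ : EV X)
    (h : Group.IsSolvable (Subgroup.closure {σ.1, τ.1})) : Rch hX σ τ := by
  by_cases hne : vtx hX σ = vtx hX τ
  · unfold Rch
    rw [hne]
  · exact SimpleGraph.Adj.reachable ⟨hne, (solvable_vtx_iff hX σ τ).2 h⟩

theorem rch_of_normalize (hX : 5 ≤ Fintype.card X) (σ τ : EV X)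
    (h : τ.1 * σ.1 * τ.1⁻¹ ∈ Subgroup.zpowers σ.1) : Rch hX σ τ :=
  rch_of_solvable hX σ τ (solvable_of_normalize h)

theorem rch_of_commute (hX : 5 ≤ Fintype.card X) (σ τ : EV X)
    (h : Commute σ.1 τ.1) : Rch hX σ τ :=
  rch_of_solvable hX σ τ (solvable_of_commute h)

/-- A 3-cycle as a vertex. -/
def tc (σ : Perm X) (h : σ.IsThreeCycle) : EV X := ⟨σ, h.sign, h.ne_one⟩

/-- three points outside a small set -/
theorem exists_threeCycle_outside (F : Finset X) (hF : F.card + 3 ≤ Fintype.card X) :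
    ∃ c : Perm X, c.IsThreeCycle ∧ ∀ x ∈ F, c x = x := by
  have h1 : 3 ≤ Fᶜ.card := by
    rw [Finset.card_compl]
    omega
  obtain ⟨s, hs, hs3⟩ := Finset.exists_subset_card_eq h1
  obtain ⟨a, b, d, hab, had, hbd, rfl⟩ := Finset.card_eq_three.1 hs3
  refine ⟨swap a b * swap a d, isThreeCycle_swap_mul_swap_same hab had hbd, ?_⟩
  intro x hx
  have hxs : ∀ y ∈ ({a, b, d} : Finset X), x ≠ y := by
    intro y hy hxy
    have := hs hy
    rw [← hxy, Finset.mem_compl] at this
    exact this hx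
  have h2 : x ≠ a := hxs a (by simp)
  have h3 : x ≠ b := hxs b (by simp)
  have h4 : x ≠ d := hxs d (by simp)
  rw [Perm.mul_apply, swap_apply_of_ne_of_ne h2 h4, swap_apply_of_ne_of_ne h2 h3]

theorem commute_of_fix (F : Finset X) {σ c : Perm X} (h1 : ∀ x, x ∉ F → σ x = x)
    (h2 : ∀ x ∈ F, c x = x) : Commute σ c := by
  apply Disjoint.commute
  intro x
  by_cases hx : x ∈ F
  · exact Or.inr (h2 x hx)
  · exact Or.inl (h1 x hx)

/-- `σ` is linked with a three-cycle. -/
def Good3 (hX : 5 ≤ Fintype.card X) (σ : EV X) : Prop :=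
  ∃ (c : Perm X) (h : c.IsThreeCycle), Rch hX σ (tc c h)

theorem Good3.of_rch {hX : 5 ≤ Fintype.card X} {σ τ : EV X} (h : Rch hX σ τ) (h2 : Good3 hX τ) :
    Good3 hX σ := by
  obtain ⟨c, hc, h3⟩ := h2
  exact ⟨c, hc, h.trans h3⟩

theorem good3_of_small (hX : 5 ≤ Fintype.card X) (σ : EV X) (F : Finset X)
    (hF : F.card + 3 ≤ Fintype.card X) (h : ∀ x, x ∉ F → σ.1 x = x) : Good3 hX σ := by
  obtain ⟨c, hc, h2⟩ := exists_threeCycle_outside F hF
  exact ⟨c, hc, rch_of_commute hX σ (tc c hc) (commute_of_fix F h h2)⟩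

theorem rch_threeCycles (hX : 5 ≤ Fintype.card X) (hX9 : 9 ≤ Fintype.card X) {c c' : Perm X}
    (h : c.IsThreeCycle) (h' : c'.IsThreeCycle) : Rch hX (tc c h) (tc c' h') := by
  have hF : (c.support ∪ c'.support).card + 3 ≤ Fintype.card X := by
    have h1 := Finset.card_union_le c.support c'.support
    rw [h.card_support, h'.card_support] at h1
    omega
  obtain ⟨d, hd, h2⟩ := exists_threeCycle_outside _ hF
  have h3 : Rch hX (tc c h) (tc d hd) := by
    apply rch_of_commute
    apply commute_of_fix (c.support ∪ c'.support) _ h2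
    intro x hx
    rw [Finset.notMem_union] at hx
    exact Perm.notMem_support.1 hx.1
  have h4 : Rch hX (tc c' h') (tc d hd) := by
    apply rch_of_commute
    apply commute_of_fix (c.support ∪ c'.support) _ h2
    intro x hx
    rw [Finset.notMem_union] at hx
    exact Perm.notMem_support.1 hx.2
  exact h3.trans h4.symm

/-- powers -/
theorem good3_of_pow (hX : 5 ≤ Fintype.card X) (σ : EV X) (k : ℕ) (h1 : σ.1 ^ k ≠ 1)
    (h2 : ∀ τ : EV X, τ.1 = σ.1 ^ k → Good3 hX τ) : Good3 hX σ := by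
  let τ : EV X := ⟨σ.1 ^ k, by rw [map_pow, σ.2.1, one_pow], h1⟩
  exact Good3.of_rch (rch_of_commute hX σ τ (Commute.pow_right (Commute.refl _) k)) (h2 τ rfl)

/-- involutions -/
theorem good3_involution (hX : 5 ≤ Fintype.card X) (hX7 : 7 ≤ Fintype.card X) (σ : EV X)
    (h2 : σ.1 ^ 2 = 1) : Good3 hX σ := by
  have hinv : ∀ x, σ.1 (σ.1 x) = x := by
    intro x
    have := congrArg (fun τ : Perm X => τ x) h2
    simpa [pow_two] using this
  obtain ⟨a, ha⟩ : ∃ a, σ.1 a ≠ a := by
    by_contra hcon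
    push Not at hcon
    exact σ.2.2 (Equiv.ext hcon)
  obtain ⟨b, hb, hba, hba'⟩ : ∃ b, σ.1 b ≠ b ∧ b ≠ a ∧ b ≠ σ.1 a := by
    by_contra hcon
    push Not at hcon
    have h3 : σ.1 = swap a (σ.1 a) := by
      apply Equiv.ext
      intro x
      by_cases h4 : x = a
      · rw [h4, swap_apply_left]
      · by_cases h5 : x = σ.1 a
        · rw [h5, swap_apply_right, hinv]
        · rw [swap_apply_of_ne_of_ne h4 h5]
          by_contra h6
          exact h5 (hcon x h6 h4)
    have h4 := congrArg sign h3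
    rw [σ.2.1, sign_swap ha.symm] at h4
    exact absurd h4 (by decide)
  have h3 : b ≠ σ.1 b := hb.symm
  have hab : a ≠ σ.1 b := by
    intro h
    apply hba'
    rw [h, hinv]
  have hsab : σ.1 a ≠ σ.1 b := fun h => hba (σ.1.injective h).symm
  have hconj : ∀ x, σ.1 * swap x (σ.1 x) = swap x (σ.1 x) * σ.1 := by
    intro x
    have : σ.1 * swap x (σ.1 x) * σ.1⁻¹ = swap x (σ.1 x) := by
      rw [← swap_apply_apply, hinv, swap_comm]
    rw [mul_inv_eq_iff_eq_mul] at this
    exact this
  let t : Perm X := swap a (σ.1 a) * swap b (σ.1 b)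
  have hta : t a = σ.1 a := by
    change swap a (σ.1 a) (swap b (σ.1 b) a) = _
    rw [swap_apply_of_ne_of_ne hba.symm hab, swap_apply_left]
  let τ : EV X := ⟨t, by
    rw [Perm.sign_mul, sign_swap ha.symm, sign_swap h3]
    decide, by
    intro h
    rw [h] at hta
    exact ha hta.symm⟩
  have hcomm : Commute σ.1 τ.1 := by
    change σ.1 * (swap a (σ.1 a) * swap b (σ.1 b)) = (swap a (σ.1 a) * swap b (σ.1 b)) * σ.1
    rw [← mul_assoc, hconj, mul_assoc, hconj, mul_assoc]
  refine Good3.of_rch (rch_of_commute hX σ τ hcomm) ?_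
  apply good3_of_small hX τ {a, σ.1 a, b, σ.1 b}
  · have := Finset.card_le_four (a := a) (b := σ.1 a) (c := b) (d := σ.1 b)
    omega
  · intro x hx
    simp only [Finset.mem_insert, Finset.mem_singleton, not_or] at hx
    obtain ⟨h4, h5, h6, h7⟩ := hx
    change swap a (σ.1 a) (swap b (σ.1 b) x) = x
    rw [swap_apply_of_ne_of_ne h6 h7, swap_apply_of_ne_of_ne h4 h5]

/-- the cycle factor of an element of odd prime order -/
theorem exists_factor (σ : EV X) {q : ℕ} (hq : q.Prime) (hq2 : q ≠ 2) (h : σ.1 ^ q = 1) :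
    ∃ τ : EV X, Commute σ.1 τ.1 ∧ τ.1.IsCycle ∧ τ.1.support.card = q := by
  obtain ⟨a, ha⟩ : ∃ a, σ.1 a ≠ a := by
    by_contra hcon
    push Not at hcon
    exact σ.2.2 (Equiv.ext hcon)
  have hc : (σ.1.cycleOf a) ∈ σ.1.cycleFactorsFinset :=
    cycleOf_mem_cycleFactorsFinset_iff.2 (Perm.mem_support.2 ha)
  have hcyc : (σ.1.cycleOf a).IsCycle := isCycle_cycleOf _ ha
  have hord : orderOf (σ.1.cycleOf a) = q := by
    have h1 : orderOf (σ.1.cycleOf a) ∣ q :=
      (orderOf_cycleOf_dvd_orderOf σ.1 a).trans (orderOf_dvd_of_pow_eq_one h)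
    rcases (Nat.dvd_prime hq).1 h1 with h2 | h2
    · exact absurd (orderOf_eq_one_iff.1 h2) hcyc.ne_one
    · exact h2
  have hsign : sign (σ.1.cycleOf a) = 1 := by
    have h1 : sign (σ.1.cycleOf a) ^ q = 1 := by
      rw [← map_pow, ← hord, pow_orderOf_eq_one, map_one]
    rcases Int.units_eq_one_or (sign (σ.1.cycleOf a)) with h2 | h2
    · exact h2
    · rw [h2, (hq.odd_of_ne_two hq2).neg_one_pow] at h1
      exact absurd h1 (by decide)
  refine ⟨⟨σ.1.cycleOf a, hsign, hcyc.ne_one⟩, ?_, hcyc, ?_⟩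
  · exact (self_mem_cycle_factors_commute hc).symm
  · change (σ.1.cycleOf a).support.card = q
    rw [← hcyc.orderOf, hord]

/-- inverted cycles with two fixed points -/
theorem good3_inverted (hX : 5 ≤ Fintype.card X) (hX7 : 7 ≤ Fintype.card X) (σ : EV X)
    (hc : σ.1.support.card + 2 = Fintype.card X) (hodd : σ.1 ^ 2 ≠ 1) : Good3 hX σ := by
  obtain ⟨c, hc1⟩ : ∃ c : Perm X, c * σ.1 * c⁻¹ = σ.1⁻¹ :=
    isConj_iff.1 (isConj_iff_cycleType_eq.2 (cycleType_inv σ.1).symm)
  obtain ⟨t, ht1, ht2⟩ : ∃ t : Perm X, t * σ.1 * t⁻¹ = σ.1⁻¹ ∧ sign t = 1 := by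
    rcases Int.units_eq_one_or (sign c) with h | h
    · exact ⟨c, hc1, h⟩
    · have h1 : 1 < (σ.1.support)ᶜ.card := by
        rw [Finset.card_compl]
        omega
      obtain ⟨a, ha, b, hb, hab⟩ := Finset.one_lt_card.1 h1
      rw [Finset.mem_compl, Perm.notMem_support] at ha hb
      have h2 : swap a b * σ.1 * (swap a b)⁻¹ = σ.1 := by
        have : Commute σ.1 (swap a b) := by
          apply commute_of_fix σ.1.support (fun x hx => Perm.notMem_support.1 hx)
          intro x hx
          rw [Perm.mem_support] at hx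
          rw [swap_apply_of_ne_of_ne]
          · rintro rfl; exact hx ha
          · rintro rfl; exact hx hb
        rw [← this.eq, mul_inv_cancel_right]
      refine ⟨c * swap a b, ?_, ?_⟩
      · calc c * swap a b * σ.1 * (c * swap a b)⁻¹
            = c * (swap a b * σ.1 * (swap a b)⁻¹) * c⁻¹ := by group
          _ = σ.1⁻¹ := by rw [h2, hc1]
      · rw [Perm.sign_mul, h, sign_swap hab]
        decide
  have hne : σ.1⁻¹ ≠ σ.1 := by
    intro h
    apply hodd
    rw [pow_two]
    nth_rewrite 1 [← h]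
    exact inv_mul_cancel _
  have ht0 : t ≠ 1 := by
    intro h
    rw [h, one_mul, inv_one, mul_one] at ht1
    exact hne ht1.symm
  have hcomm : Commute (t ^ 2) σ.1 := by
    have h1 : t * σ.1⁻¹ * t⁻¹ = σ.1 := by
      have := congrArg (·⁻¹) ht1
      simp only [mul_inv_rev, inv_inv] at this
      rw [← mul_assoc] at this
      exact this
    have h2 : t ^ 2 * σ.1 * (t ^ 2)⁻¹ = σ.1 := by
      calc t ^ 2 * σ.1 * (t ^ 2)⁻¹ = t * (t * σ.1 * t⁻¹) * t⁻¹ := by
            rw [pow_two, mul_inv_rev]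
            simp only [mul_assoc]
        _ = σ.1 := by rw [ht1, h1]
    change t ^ 2 * σ.1 = σ.1 * t ^ 2
    rw [mul_inv_eq_iff_eq_mul] at h2
    exact h2
  have heven : orderOf t % 2 = 0 := by
    by_contra hcon
    have h1 : orderOf t = 2 * (orderOf t / 2) + 1 := by omega
    have h2 : t ^ (2 * (orderOf t / 2)) * t = 1 := by
      rw [← pow_succ, ← h1, pow_orderOf_eq_one]
    have h3 : t = (t ^ (2 * (orderOf t / 2)))⁻¹ := (inv_eq_of_mul_eq_one_right h2).symm
    have h4 : Commute t σ.1 := by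
      rw [h3, pow_mul]
      exact (hcomm.pow_left _).inv_left
    rw [h4.eq, mul_inv_cancel_right] at ht1
    exact hne ht1.symm
  have hpos : 0 < orderOf t := orderOf_pos t
  let τ : EV X := ⟨t, ht2, ht0⟩
  refine Good3.of_rch (rch_of_normalize hX σ τ ?_) ?_
  · change t * σ.1 * t⁻¹ ∈ _
    rw [ht1]
    exact Subgroup.inv_mem _ (Subgroup.mem_zpowers _)
  · apply good3_of_pow hX τ (orderOf t / 2)
    · intro h
      have h1 : orderOf t ∣ orderOf t / 2 := orderOf_dvd_of_pow_eq_one h
      have h2 := Nat.le_of_dvd (by omega) h1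
      omega
    · intro ρ hρ
      apply good3_involution hX hX7
      rw [hρ, ← pow_mul]
      change t ^ (orderOf t / 2 * 2) = 1
      rw [Nat.div_mul_cancel (Nat.dvd_of_mod_eq_zero heven), pow_orderOf_eq_one]

/-- the full cycle -/
theorem good3_full {p : ℕ} [Fact p.Prime] (hp4 : p % 4 = 3) (hp11 : 11 ≤ p)
    (hX : 5 ≤ Fintype.card X) (hXp : Fintype.card X = p) (σ : EV X) (hcyc : σ.1.IsCycle)
    (hc : σ.1.support.card = p)
    (hsmall : ∀ (τ : EV X) (r : ℕ), r.Prime → r ≠ 2 → r + 3 ≤ p → τ.1 ^ r = 1 → Good3 hX τ) :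
    Good3 hX σ := by
  have hp : p.Prime := Fact.out
  haveI : NeZero p := ⟨hp.ne_zero⟩
  obtain ⟨ζ, hζ⟩ := exists_zeta (p := p) hp4
  obtain ⟨r, hr⟩ : (RR p).Nonempty := by
    unfold RR
    rw [Nat.nonempty_primeFactors]
    omega
  have hrp : r.Prime := Nat.prime_of_mem_primeFactors hr
  have hrd : r ∣ (p - 1) / 2 := Nat.dvd_of_mem_primeFactors hr
  have hrle : r ≤ (p - 1) / 2 := Nat.le_of_dvd (by omega) hrd
  have hrodd : Odd r := odd_of_mem_RR hp4 hr
  have hr2 : r ≠ 2 := by
    rintro rfl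
    exact absurd hrodd (by decide)
  have e : ZMod p ≃ X := Fintype.equivOfCardEq (by rw [ZMod.card, hXp])
  set f : Perm (ZMod p) →* Perm X := e.permCongrHom.toMonoidHom with hf
  have hfinj : Function.Injective f := e.permCongrHom.injective
  have hTne : T (1 : ZMod p) ≠ 1 := by
    intro h
    have := congrArg (fun τ : Perm (ZMod p) => τ 0) h
    simp only [T_apply, zero_add, Perm.one_apply] at this
    exact one_ne_zero this
  have hTord : orderOf (T (1 : ZMod p)) = p := by
    apply orderOf_eq_prime _ hTne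
    rw [T_pow, mul_one, ZMod.natCast_self, T_zero]
  have hford : orderOf (f (T (1 : ZMod p))) = p := by
    rw [orderOf_injective f hfinj, hTord]
  have hfc : (f (T (1 : ZMod p))).IsCycle :=
    isCycle_of_prime_order'' (by rw [hXp]; exact hp) (by rw [hXp]; exact hford)
  have hconj : IsConj σ.1 (f (T (1 : ZMod p))) := by
    rw [isConj_iff_cycleType_eq, hcyc.cycleType, hfc.cycleType, ← hfc.orderOf, hford, hc]
  obtain ⟨c, hcσ⟩ := isConj_iff.1 hconj
  have hUne : U (ζ r) (0 : ZMod p) ≠ 1 := by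
    intro h
    have h1 : (ζ r) ≠ 1 := by
      intro h2
      have := hζ r hr
      rw [h2, orderOf_one] at this
      exact hrp.one_lt.ne this
    have := (U_fix h1 (0 : ZMod p) 1).1 (by rw [h]; rfl)
    exact one_ne_zero this
  have hUr : (U (ζ r) (0 : ZMod p)) ^ r = 1 := by
    have h1 : (ζ r) ^ r = 1 := by
      have h2 := pow_orderOf_eq_one (ζ r)
      rw [hζ r hr] at h2
      exact h2
    rw [U_pow, h1, U_one]
  have hUT : U (ζ r) (0 : ZMod p) * T (1 : ZMod p) * (U (ζ r) (0 : ZMod p))⁻¹ =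
      (T (1 : ZMod p)) ^ ((ζ r : (ZMod p)ˣ) : ZMod p).val := by
    rw [mul_inv_eq_iff_eq_mul, T_pow, ZMod.natCast_zmod_val]
    apply Equiv.ext
    intro x
    rw [Perm.mul_apply, Perm.mul_apply, T_apply, T_apply, U_apply, U_apply]
    ring
  set k := ((ζ r : (ZMod p)ˣ) : ZMod p).val with hk
  let t : Perm X := c⁻¹ * f (U (ζ r) (0 : ZMod p)) * c
  have htr : t ^ r = 1 := by
    have : t ^ r = c⁻¹ * (f (U (ζ r) (0 : ZMod p))) ^ r * c := by
      have h1 := conj_pow (a := c⁻¹) (b := f (U (ζ r) (0 : ZMod p))) (i := r)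
      rw [inv_inv] at h1
      exact h1
    rw [this, ← map_pow, hUr, map_one, mul_one, inv_mul_cancel]
  have htne : t ≠ 1 := by
    intro h
    have h1 : f (U (ζ r) (0 : ZMod p)) = 1 := by
      have h2 : c * t * c⁻¹ = f (U (ζ r) (0 : ZMod p)) := by
        change c * (c⁻¹ * f (U (ζ r) (0 : ZMod p)) * c) * c⁻¹ = _
        simp only [mul_assoc, mul_inv_cancel_left, mul_inv_cancel, mul_one]
      rw [← h2, h, mul_one, mul_inv_cancel]
    exact hUne (hfinj (by rw [h1, map_one]))
  have htsign : sign t = 1 := by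
    have h1 : sign t ^ r = 1 := by rw [← map_pow, htr, map_one]
    rcases Int.units_eq_one_or (sign t) with h2 | h2
    · exact h2
    · rw [h2, hrodd.neg_one_pow] at h1
      exact absurd h1 (by decide)
  let τ : EV X := ⟨t, htsign, htne⟩
  refine Good3.of_rch (rch_of_normalize hX σ τ ?_) (hsmall τ r hrp hr2 (by omega) htr)
  have h1 : τ.1 * σ.1 * τ.1⁻¹ = σ.1 ^ k := by
    have h2 : f (U (ζ r) (0 : ZMod p)) * f (T 1) * (f (U (ζ r) (0 : ZMod p)))⁻¹ =
        (f (T 1)) ^ k := by
      rw [← map_pow, ← hUT, map_mul, map_mul, map_inv]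
    have h3 : σ.1 = c⁻¹ * f (T 1) * c := by
      rw [← hcσ]
      simp only [mul_assoc, inv_mul_cancel_left, inv_mul_cancel, mul_one]
    have h4 : σ.1 ^ k = c⁻¹ * (f (T 1)) ^ k * c := by
      rw [h3]
      have h1 := conj_pow (a := c⁻¹) (b := f (T (1 : ZMod p))) (i := k)
      rw [inv_inv] at h1
      exact h1
    rw [h4, ← h2]
    change (c⁻¹ * f (U (ζ r) (0 : ZMod p)) * c) * σ.1 *
      (c⁻¹ * f (U (ζ r) (0 : ZMod p)) * c)⁻¹ = _
    rw [h3]
    simp only [mul_assoc, mul_inv_rev, inv_inv, mul_inv_cancel_left]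
  rw [h1]
  exact Subgroup.npow_mem_zpowers _ _

theorem good3_prime {p : ℕ} [Fact p.Prime] (hp4 : p % 4 = 3) (hp11 : 11 ≤ p)
    (hX : 5 ≤ Fintype.card X) (hXp : Fintype.card X = p) (σ : EV X) {q : ℕ} (hq : q.Prime)
    (hq2 : q ≠ 2) (hσ : σ.1 ^ q = 1) : Good3 hX σ := by
  have hsmall : ∀ (τ : EV X) (r : ℕ), r.Prime → r ≠ 2 → r + 3 ≤ p → τ.1 ^ r = 1 → Good3 hX τ := by
    intro τ r hr hr2 hr3 hτ
    obtain ⟨ρ, h1, h2, h3⟩ := exists_factor τ hr hr2 hτ
    refine Good3.of_rch (rch_of_commute hX τ ρ h1) ?_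
    apply good3_of_small hX ρ ρ.1.support
    · rw [h3, hXp]
      exact hr3
    · intro x hx
      exact Perm.notMem_support.1 hx
  obtain ⟨ρ, h1, h2, h3⟩ := exists_factor σ hq hq2 hσ
  refine Good3.of_rch (rch_of_commute hX σ ρ h1) ?_
  have hρq : orderOf ρ.1 = q := by rw [h2.orderOf, h3]
  have hqle : q ≤ p := by
    rw [← h3, ← hXp]
    exact Finset.card_le_univ _
  have hqodd : q % 2 = 1 := hq.eq_two_or_odd.resolve_left hq2
  by_cases h4 : q + 3 ≤ p
  · exact hsmall ρ q hq hq2 h4 (by rw [← hρq, pow_orderOf_eq_one])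
  · by_cases h5 : q = p
    · exact good3_full hp4 hp11 hX hXp ρ h2 (by rw [h3, h5]) hsmall
    · have h6 : q + 2 = p := by omega
      apply good3_inverted hX (by omega) ρ
      · rw [h3, hXp, h6]
      · intro h7
        have h8 : q ∣ 2 := by
          rw [← hρq]
          exact orderOf_dvd_of_pow_eq_one h7
        have := Nat.le_of_dvd (by norm_num) h8
        omega

theorem good3_all {p : ℕ} [Fact p.Prime] (hp4 : p % 4 = 3) (hp11 : 11 ≤ p)
    (hX : 5 ≤ Fintype.card X) (hXp : Fintype.card X = p) (σ : EV X) : Good3 hX σ := by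
  have h1 : orderOf σ.1 ≠ 1 := fun h => σ.2.2 (orderOf_eq_one_iff.1 h)
  set q := (orderOf σ.1).minFac with hq
  have hqp : q.Prime := Nat.minFac_prime h1
  have hqd : q ∣ orderOf σ.1 := Nat.minFac_dvd _
  have hpos : 0 < orderOf σ.1 := orderOf_pos _
  apply good3_of_pow hX σ (orderOf σ.1 / q)
  · intro h
    have h2 : orderOf σ.1 ∣ orderOf σ.1 / q := orderOf_dvd_of_pow_eq_one h
    have h3 : orderOf σ.1 / q < orderOf σ.1 := Nat.div_lt_self hpos hqp.one_lt
    have h4 : 0 < orderOf σ.1 / q := Nat.div_pos (Nat.le_of_dvd hpos hqd) hqp.pos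
    have := Nat.le_of_dvd h4 h2
    omega
  · intro τ hτ
    have h2 : τ.1 ^ q = 1 := by
      rw [hτ, ← pow_mul, Nat.div_mul_cancel hqd, pow_orderOf_eq_one]
    by_cases h3 : q = 2
    · rw [h3] at h2
      exact good3_involution hX (by omega) τ h2
    · exact good3_prime hp4 hp11 hX hXp τ hqp h3 h2

/-- Connectivity. -/
theorem connected_alt {p : ℕ} [Fact p.Prime] (hp4 : p % 4 = 3) (hp11 : 11 ≤ p)
    (hXp : Fintype.card X = p) : (solubleGraph (alternatingGroup X)).Connected := by
  have hX : 5 ≤ Fintype.card X := by omega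
  rw [SimpleGraph.connected_iff]
  constructor
  · intro v w
    obtain ⟨σ, rfl⟩ := vtx_surjective hX v
    obtain ⟨τ, rfl⟩ := vtx_surjective hX w
    obtain ⟨c, hc, h1⟩ := good3_all hp4 hp11 hX hXp σ
    obtain ⟨d, hd, h2⟩ := good3_all hp4 hp11 hX hXp τ
    exact (h1.trans (rch_threeCycles hX (by omega) hc hd)).trans h2.symm
  · obtain ⟨c, hc, -⟩ := exists_threeCycle_outside (∅ : Finset X) (by
      rw [Finset.card_empty]; omega)
    exact ⟨vtx hX (tc c hc)⟩

end Pool.Agent.Lib.MPcff1c1
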