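import Mathlib
import Pool.Agent.Lib.MP_cff1c1_al.Union

/-! The numerical estimate for large primes. -/

set_option linter.all false

namespace Pool.Agent.Lib.MPcff1c1

open Finset

theorem choose_pow_le (m i r : ℕ) : (m.choose i) ^ r ≤ (r * m).choose (r * i) := by
  induction r with
  | zero => simp
  | succ r ih =>
    have h1 : (r * m).choose (r * i) * m.choose i ≤ ((r + 1) * m).choose ((r + 1) * i) := by
      rw [add_mul, one_mul, add_mul, one_mul, Nat.add_choose_eq]
      have : (r * i, i) ∈ antidiagonal (r * i + i) := by simp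
      exact single_le_sum (f := fun ij : ℕ × ℕ => (r * m).choose ij.1 * m.choose ij.2)
        (fun _ _ => Nat.zero_le _) this
    rw [pow_succ]
    exact (Nat.mul_le_mul_right _ ih).trans h1

theorem choose_cube_le {m r n N : ℕ} (hr : 3 ≤ r) (hn : n = r * m + 1) (hN : N % r ≤ 1) :
    (m.choose (N / r)) ^ 3 ≤ n.choose N := by
  rcases Nat.eq_zero_or_pos (m.choose (N / r)) with h0 | h0
  · rw [h0]; simp
  have h1 : (m.choose (N / r)) ^ 3 ≤ (m.choose (N / r)) ^ r := Nat.pow_le_pow_right h0 hr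
  refine h1.trans ((choose_pow_le m (N / r) r).trans ?_)
  have h2 := Nat.div_add_mod N r
  rcases Nat.le_one_iff_eq_zero_or_eq_one.1 hN with h3 | h3
  · rw [h3, add_zero] at h2
    rw [h2, hn]
    exact Nat.choose_le_succ _ _
  · rw [h3] at h2
    rw [hn]
    conv_rhs => rw [← h2]
    rw [Nat.choose_succ_succ]
    exact Nat.le_add_right _ _

theorem pow_fact_cube (r i : ℕ) (hr : 3 ≤ r) :
    2 * (r ^ (i + 1) * (i + 1).factorial) ^ 3 ≤ 9 * (i + 1) * (r * (i + 1)).factorial := by
  induction i with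
  | zero =>
    obtain ⟨k, rfl⟩ : ∃ k, r = k + 3 := ⟨r - 3, by omega⟩
    simp only [zero_add, pow_one, mul_one, Nat.factorial_one]
    have h1 : (k + 3).factorial = (k + 3) * (k + 2) * (k + 1) * k.factorial := by
      rw [Nat.factorial_succ, Nat.factorial_succ, Nat.factorial_succ]; ring
    have h2 : 1 ≤ k.factorial := Nat.factorial_pos k
    rw [h1]
    have h3 : 2 * (k + 3) ^ 3 ≤ 9 * ((k + 3) * (k + 2) * (k + 1)) := by nlinarith [sq_nonneg k]
    calc 2 * (k + 3) ^ 3 ≤ 9 * ((k + 3) * (k + 2) * (k + 1)) * 1 := by rw [mul_one]; exact h3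
      _ ≤ 9 * ((k + 3) * (k + 2) * (k + 1)) * k.factorial := Nat.mul_le_mul_left _ h2
      _ = 9 * ((k + 3) * (k + 2) * (k + 1) * k.factorial) := by ring
  | succ i ih =>
    obtain ⟨y, hy⟩ : ∃ y, r * (i + 2) = y + 3 := ⟨r * (i + 2) - 3, by
      have : 3 ≤ r * (i + 2) := le_trans hr (Nat.le_mul_of_pos_right _ (by omega))
      omega⟩
    have h1 : (y + 3).factorial = (y + 3) * (y + 2) * (y + 1) * y.factorial := by
      rw [Nat.factorial_succ, Nat.factorial_succ, Nat.factorial_succ]; ring
    have h2 : (r * (i + 1)).factorial ≤ y.factorial := by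
      apply Nat.factorial_le
      have : r * (i + 2) = r * (i + 1) + r := by ring
      omega
    have h3 : 3 * (i + 2) ≤ y + 3 := by
      rw [← hy]
      exact Nat.mul_le_mul_right _ hr
    have h4 : (y + 3) ^ 3 * (i + 1) ≤ (i + 2) * ((y + 3) * (y + 2) * (y + 1)) := by
      obtain ⟨t, ht⟩ : ∃ t, y + 3 = 3 * (i + 2) + t := ⟨y + 3 - 3 * (i + 2), by omega⟩
      have hy2 : y = 3 * i + 3 + t := by omega
      subst hy2
      nlinarith [Nat.zero_le (i * t), Nat.zero_le (t * t), Nat.zero_le (i * i),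
        Nat.zero_le (t * t * t), Nat.zero_le (i * t * t), Nat.zero_le (i * i * t)]
    have e1 : i + 1 + 1 = i + 2 := rfl
    rw [e1, hy, h1]
    have h5 : (r ^ (i + 2) * (i + 2).factorial) = (y + 3) * (r ^ (i + 1) * (i + 1).factorial) := by
      rw [← hy, Nat.factorial_succ (i + 1), pow_succ]
      ring
    rw [h5]
    calc 2 * ((y + 3) * (r ^ (i + 1) * (i + 1).factorial)) ^ 3
        = (y + 3) ^ 3 * (2 * (r ^ (i + 1) * (i + 1).factorial) ^ 3) := by ring
      _ ≤ (y + 3) ^ 3 * (9 * (i + 1) * (r * (i + 1)).factorial) := Nat.mul_le_mul_left _ ih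
      _ = 9 * ((y + 3) ^ 3 * (i + 1)) * (r * (i + 1)).factorial := by ring
      _ ≤ 9 * ((i + 2) * ((y + 3) * (y + 2) * (y + 1))) * y.factorial :=
          Nat.mul_le_mul (Nat.mul_le_mul_left _ h4) h2
      _ = 9 * (i + 2) * ((y + 3) * (y + 2) * (y + 1) * y.factorial) := by ring

theorem choose_mul_fact {n k : ℕ} (h : k ≤ n) :
    n.choose k * (k.factorial * (n - k).factorial) = n.factorial := by
  rw [← mul_assoc]
  exact Nat.choose_mul_factorial_mul_factorial h

theorem six_pow_le_base : 6 ^ 50 * (Nat.factorial 50 * Nat.factorial (3 * 50 - 50)) ≤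
    Nat.factorial (3 * 50) := by
  decide +kernel

theorem six_pow_le (k : ℕ) (hk : 50 ≤ k) : 27 * (3 * k + 2) ^ 15 < 6 ^ k ∧
    6 ^ k ≤ (3 * k).choose k := by
  induction k, hk using Nat.le_induction with
  | base =>
    refine ⟨by norm_num, ?_⟩
    have h2 := six_pow_le_base
    rw [← choose_mul_fact (n := 3 * 50) (k := 50) (by norm_num)] at h2
    exact Nat.le_of_mul_le_mul_right h2
      (Nat.mul_pos (Nat.factorial_pos _) (Nat.factorial_pos _))
  | succ k hk ih =>
    obtain ⟨ih1, ih2⟩ := ih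
    constructor
    · have h1 : 50 * (3 * (k + 1) + 2) ≤ 51 * (3 * k + 2) := by omega
      have h2 := Nat.pow_le_pow_left h1 15
      rw [mul_pow, mul_pow] at h2
      have h3 : (51 : ℕ) ^ 15 ≤ 6 * 50 ^ 15 := by norm_num
      have h4 : 50 ^ 15 * (3 * (k + 1) + 2) ^ 15 ≤ 50 ^ 15 * (6 * (3 * k + 2) ^ 15) := by
        calc 50 ^ 15 * (3 * (k + 1) + 2) ^ 15 ≤ 51 ^ 15 * (3 * k + 2) ^ 15 := h2
          _ ≤ (6 * 50 ^ 15) * (3 * k + 2) ^ 15 := Nat.mul_le_mul_right _ h3
          _ = 50 ^ 15 * (6 * (3 * k + 2) ^ 15) := by ring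
      have h5 := Nat.le_of_mul_le_mul_left h4 (by positivity)
      calc 27 * (3 * (k + 1) + 2) ^ 15 ≤ 27 * (6 * (3 * k + 2) ^ 15) := Nat.mul_le_mul_left _ h5
        _ = 6 * (27 * (3 * k + 2) ^ 15) := by ring
        _ < 6 * 6 ^ k := Nat.mul_lt_mul_of_pos_left ih1 (by norm_num)
        _ = 6 ^ (k + 1) := by rw [pow_succ, mul_comm]
    · have e : 3 * (k + 1) = 3 * k + 3 := by ring
      rw [e, pow_succ]
      have h1 : (3 * k + 3).choose (k + 1) * ((k + 1) * (2 * k + 2) * (2 * k + 1)) =
          (3 * k).choose k * ((3 * k + 3) * (3 * k + 2) * (3 * k + 1)) := by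
        have a1 : (3 * k + 3).choose (k + 1) * ((k + 1).factorial * (2 * k + 2).factorial) =
            (3 * k + 3).factorial := by
          rw [← mul_assoc]
          have := Nat.choose_mul_factorial_mul_factorial (n := 3 * k + 3) (k := k + 1) (by omega)
          have e2 : 3 * k + 3 - (k + 1) = 2 * k + 2 := by omega
          rw [e2] at this
          exact this
        have a2 : (3 * k).choose k * (k.factorial * (2 * k).factorial) = (3 * k).factorial := by
          rw [← mul_assoc]
          have := Nat.choose_mul_factorial_mul_factorial (n := 3 * k) (k := k) (by omega)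
          have e2 : 3 * k - k = 2 * k := by omega
          rw [e2] at this
          exact this
        have a3 : (3 * k + 3).factorial = (3 * k + 3) * (3 * k + 2) * (3 * k + 1) *
            (3 * k).factorial := by
          rw [Nat.factorial_succ, Nat.factorial_succ, Nat.factorial_succ]; ring
        have a4 : (2 * k + 2).factorial = (2 * k + 2) * (2 * k + 1) * (2 * k).factorial := by
          rw [Nat.factorial_succ, Nat.factorial_succ]; ring
        have a5 : (k + 1).factorial = (k + 1) * k.factorial := Nat.factorial_succ k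
        have hpos : 0 < k.factorial * (2 * k).factorial := by positivity
        apply Nat.eq_of_mul_eq_mul_right hpos
        calc (3 * k + 3).choose (k + 1) * ((k + 1) * (2 * k + 2) * (2 * k + 1)) *
              (k.factorial * (2 * k).factorial)
            = (3 * k + 3).choose (k + 1) * ((k + 1).factorial * (2 * k + 2).factorial) := by
              rw [a4, a5]; ring
          _ = (3 * k + 3) * (3 * k + 2) * (3 * k + 1) * (3 * k).factorial := by rw [a1, a3]
          _ = (3 * k).choose k * ((3 * k + 3) * (3 * k + 2) * (3 * k + 1)) *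
              (k.factorial * (2 * k).factorial) := by rw [← a2]; ring
      have h2 : 6 * ((k + 1) * (2 * k + 2) * (2 * k + 1)) ≤
          (3 * k + 3) * (3 * k + 2) * (3 * k + 1) := by
        have h3 : 2 * ((2 * k + 2) * (2 * k + 1)) ≤ (3 * k + 2) * (3 * k + 1) := by nlinarith
        calc 6 * ((k + 1) * (2 * k + 2) * (2 * k + 1))
            = 3 * (k + 1) * (2 * ((2 * k + 2) * (2 * k + 1))) := by ring
          _ ≤ 3 * (k + 1) * ((3 * k + 2) * (3 * k + 1)) := Nat.mul_le_mul_left _ h3
          _ = (3 * k + 3) * (3 * k + 2) * (3 * k + 1) := by ring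
      have hpos : 0 < (k + 1) * (2 * k + 2) * (2 * k + 1) := by positivity
      apply Nat.le_of_mul_le_mul_right _ hpos
      calc 6 ^ k * 6 * ((k + 1) * (2 * k + 2) * (2 * k + 1))
          = 6 ^ k * (6 * ((k + 1) * (2 * k + 2) * (2 * k + 1))) := by ring
        _ ≤ (3 * k).choose k * ((3 * k + 3) * (3 * k + 2) * (3 * k + 1)) :=
            Nat.mul_le_mul ih2 h2
        _ = (3 * k + 3).choose (k + 1) * ((k + 1) * (2 * k + 2) * (2 * k + 1)) := h1.symm

theorem choose_mono_half {n : ℕ} {a b : ℕ} (hab : a ≤ b) (hb : 2 * b ≤ n) :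
    n.choose a ≤ n.choose b := by
  induction b, hab using Nat.le_induction with
  | base => exact le_refl _
  | succ b hab ih =>
    exact (ih (by omega)).trans (Nat.choose_le_succ_of_lt_half_left (by omega))

theorem I1 {n j : ℕ} (hn : 151 ≤ n) (h1 : n ≤ 3 * j) (h2 : 2 * j ≤ n) :
    (3 * n ^ 5) ^ 3 < n.choose j := by
  have hk : 50 ≤ n / 3 := by omega
  obtain ⟨h3, h4⟩ := six_pow_le (n / 3) hk
  have h5 : n ≤ 3 * (n / 3) + 2 := by omega
  calc (3 * n ^ 5) ^ 3 = 27 * n ^ 15 := by ring
    _ ≤ 27 * (3 * (n / 3) + 2) ^ 15 := Nat.mul_le_mul_left _ (Nat.pow_le_pow_left h5 15)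
    _ < 6 ^ (n / 3) := h3
    _ ≤ (3 * (n / 3)).choose (n / 3) := h4
    _ ≤ n.choose (n / 3) := Nat.choose_le_choose _ (by omega)
    _ ≤ n.choose j := choose_mono_half (by omega) h2

end Pool.Agent.Lib.MPcff1c1
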