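import Mathlib
import Pool.Agent.Lib.MP_cff1c1_al.Large
import Pool.Agent.Lib.MP_cff1c1_al.Chk

/-! The numerical estimate for large primes, second part. -/

set_option linter.all false

namespace Pool.Agent.Lib.MPcff1c1

open Finset

theorem fact_upper (b : ℕ) (hb : 1 ≤ b) :
    (b.factorial : ℝ) * Real.exp ((b : ℝ) - 1) ≤ (b : ℝ) ^ (b + 1) := by
  induction b, hb using Nat.le_induction with
  | base => simp
  | succ b hb ih =>
    have hb0 : (0 : ℝ) < b := by exact_mod_cast hb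
    have h1 : Real.exp 1 * (b : ℝ) ^ (b + 1) ≤ ((b : ℝ) + 1) ^ (b + 1) := by
      have h2 : 1 - ((1 : ℝ) + 1 / b)⁻¹ ≤ Real.log (1 + 1 / b) :=
        Real.one_sub_inv_le_log_of_pos (by positivity)
      have h3 : 1 - ((1 : ℝ) + 1 / b)⁻¹ = 1 / (b + 1) := by field_simp; ring
      rw [h3] at h2
      have h4 : (1 : ℝ) ≤ (b + 1) * Real.log (1 + 1 / b) := by
        have : (b + 1 : ℝ) * (1 / (b + 1)) = 1 := by field_simp
        calc (1 : ℝ) = (b + 1) * (1 / (b + 1)) := this.symm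
          _ ≤ (b + 1) * Real.log (1 + 1 / b) := by
            apply mul_le_mul_of_nonneg_left h2 (by positivity)
      have h5 : Real.exp 1 ≤ (1 + 1 / b) ^ (b + 1) := by
        calc Real.exp 1 ≤ Real.exp ((b + 1) * Real.log (1 + 1 / b)) := Real.exp_le_exp.2 h4
          _ = (1 + 1 / (b : ℝ)) ^ (b + 1) := by
            rw [mul_comm, Real.exp_mul, Real.exp_log (by positivity)]
            rw [← Real.rpow_natCast]
            push_cast
            rfl
      calc Real.exp 1 * (b : ℝ) ^ (b + 1) ≤ (1 + 1 / (b : ℝ)) ^ (b + 1) * (b : ℝ) ^ (b + 1) := by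
            apply mul_le_mul_of_nonneg_right h5 (by positivity)
        _ = ((b : ℝ) + 1) ^ (b + 1) := by
            rw [← mul_pow]
            congr 1
            field_simp
    rw [Nat.factorial_succ]
    push_cast
    have h6 : Real.exp ((b : ℝ) + 1 - 1) = Real.exp 1 * Real.exp ((b : ℝ) - 1) := by
      rw [← Real.exp_add]; congr 1; ring
    rw [h6]
    calc ((b : ℝ) + 1) * (b.factorial : ℝ) * (Real.exp 1 * Real.exp ((b : ℝ) - 1))
        = ((b : ℝ) + 1) * Real.exp 1 * ((b.factorial : ℝ) * Real.exp ((b : ℝ) - 1)) := by ring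
      _ ≤ ((b : ℝ) + 1) * Real.exp 1 * (b : ℝ) ^ (b + 1) := by
          apply mul_le_mul_of_nonneg_left ih (by positivity)
      _ = ((b : ℝ) + 1) * (Real.exp 1 * (b : ℝ) ^ (b + 1)) := by ring
      _ ≤ ((b : ℝ) + 1) * ((b : ℝ) + 1) ^ (b + 1) := by
          apply mul_le_mul_of_nonneg_left h1 (by positivity)
      _ = ((b : ℝ) + 1) ^ (b + 1 + 1) := by ring

theorem fact_lower (N : ℕ) : (N : ℝ) ^ N ≤ Real.exp N * N.factorial := by
  have h := Real.pow_div_factorial_le_exp (N : ℝ) (by positivity) N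
  rw [div_le_iff₀ (by positivity)] at h
  exact h

theorem stir (b d : ℕ) (hb : 1 ≤ b) :
    d ^ (b * d) * b.factorial ^ d ≤ (b * d).factorial * (3 * b) ^ d := by
  have h1 := pow_le_pow_left₀ (by positivity) (fact_upper b hb) d
  rw [mul_pow, ← Real.exp_nat_mul, ← pow_mul] at h1
  have h2 := fact_lower (b * d)
  have hE : Real.exp ((d : ℝ) * ((b : ℝ) - 1)) * Real.exp d = Real.exp ((b * d : ℕ) : ℝ) := by
    rw [← Real.exp_add]
    congr 1
    push_cast
    ring
  have h3 : (d : ℝ) ^ (b * d) * (b.factorial : ℝ) ^ d * Real.exp ((b * d : ℕ) : ℝ) ≤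
      ((b * d).factorial : ℝ) * (3 * b) ^ d * Real.exp ((b * d : ℕ) : ℝ) := by
    calc (d : ℝ) ^ (b * d) * (b.factorial : ℝ) ^ d * Real.exp ((b * d : ℕ) : ℝ)
        = (d : ℝ) ^ (b * d) * ((b.factorial : ℝ) ^ d * Real.exp ((d : ℝ) * ((b : ℝ) - 1))) *
            Real.exp d := by rw [← hE]; ring
      _ ≤ (d : ℝ) ^ (b * d) * ((b : ℝ) ^ ((b + 1) * d)) * Real.exp d := by
          gcongr
      _ = ((b * d : ℕ) : ℝ) ^ (b * d) * (b : ℝ) ^ d * Real.exp d := by
          push_cast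
          rw [add_mul, one_mul, pow_add, mul_pow]
          ring
      _ ≤ (Real.exp ((b * d : ℕ) : ℝ) * (b * d).factorial) * (b : ℝ) ^ d * 3 ^ d := by
          have h4 : Real.exp (d : ℝ) ≤ 3 ^ d := by
            have : Real.exp (d : ℝ) = (Real.exp 1) ^ d := by
              rw [← Real.exp_nat_mul, mul_one]
            rw [this]
            exact pow_le_pow_left₀ (by positivity) Real.exp_one_lt_three.le d
          gcongr
      _ = ((b * d).factorial : ℝ) * (3 * b) ^ d * Real.exp ((b * d : ℕ) : ℝ) := by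
          rw [mul_pow]; ring
  have h5 := le_of_mul_le_mul_right h3 (Real.exp_pos _)
  exact_mod_cast h5

theorem pow5_le_aux (b : ℕ) (hb : 20 ≤ b) : (27 * b ^ 3) ^ 5 ≤ 3 ^ (3 * b) := by
  have h : b ^ 5 ≤ 3 ^ (b - 5) := by
    induction b, hb using Nat.le_induction with
    | base => norm_num
    | succ b hb ih =>
      have h1 : 20 * (b + 1) ≤ 21 * b := by omega
      have h2 := Nat.pow_le_pow_left h1 5
      rw [mul_pow, mul_pow] at h2
      have h3 : (21 : ℕ) ^ 5 ≤ 3 * 20 ^ 5 := by norm_num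
      have h4 : 20 ^ 5 * (b + 1) ^ 5 ≤ 20 ^ 5 * (3 * b ^ 5) := by
        calc 20 ^ 5 * (b + 1) ^ 5 ≤ 21 ^ 5 * b ^ 5 := h2
          _ ≤ (3 * 20 ^ 5) * b ^ 5 := Nat.mul_le_mul_right _ h3
          _ = 20 ^ 5 * (3 * b ^ 5) := by ring
      have h5 := Nat.le_of_mul_le_mul_left h4 (by positivity)
      have e : b + 1 - 5 = (b - 5) + 1 := by omega
      rw [e, pow_succ 3]
      calc (b + 1) ^ 5 ≤ 3 * b ^ 5 := h5
        _ ≤ 3 * 3 ^ (b - 5) := Nat.mul_le_mul_left _ ih
        _ = 3 ^ (b - 5) * 3 := mul_comm _ _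
  have h2 := Nat.pow_le_pow_left h 3
  calc (27 * b ^ 3) ^ 5 = 3 ^ 15 * (b ^ 5) ^ 3 := by ring
    _ ≤ 3 ^ 15 * (3 ^ (b - 5)) ^ 3 := Nat.mul_le_mul_left _ h2
    _ = 3 ^ (3 * b) := by
      rw [← pow_mul, ← pow_add]
      congr 1
      omega

theorem pow5_le (b d : ℕ) (hb : 2 ≤ b) (hd : 3 ≤ d) (hN : 300 ≤ b * d) :
    (27 * b ^ 3) ^ 5 ≤ d ^ (3 * b) := by
  rcases Nat.lt_or_ge b 20 with h | h
  · have key : ∀ b < 20, 2 ≤ b → (27 * b ^ 3) ^ 5 ≤ ((299 + b) / b) ^ (3 * b) := by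
      decide +kernel
    refine (key b h hb).trans (Nat.pow_le_pow_left ?_ _)
    apply Nat.lt_succ_iff.1
    rw [Nat.div_lt_iff_lt_mul (by omega), Nat.succ_mul, mul_comm d b]
    omega
  · exact (pow5_le_aux b h).trans (Nat.pow_le_pow_left hd _)

theorem base_le (N : ℕ) (hN : 300 ≤ N) : (729 ^ 3 * N ^ 15) ^ 10 ≤ 32 ^ 30 * 3 ^ (3 * N) := by
  induction N, hN using Nat.le_induction with
  | base => decide +kernel
  | succ N hN ih =>
    have h1 : 300 * (N + 1) ≤ 301 * N := by omega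
    have h2 := Nat.pow_le_pow_left h1 150
    rw [mul_pow, mul_pow] at h2
    have h3 : (301 : ℕ) ^ 150 ≤ 27 * 300 ^ 150 := by decide +kernel
    have h4 : 300 ^ 150 * (N + 1) ^ 150 ≤ 300 ^ 150 * (27 * N ^ 150) := by
      calc 300 ^ 150 * (N + 1) ^ 150 ≤ 301 ^ 150 * N ^ 150 := h2
        _ ≤ (27 * 300 ^ 150) * N ^ 150 := Nat.mul_le_mul_right _ h3
        _ = 300 ^ 150 * (27 * N ^ 150) := by ring
    have h5 : (N + 1) ^ 150 ≤ 27 * N ^ 150 := Nat.le_of_mul_le_mul_left h4 (by positivity)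
    calc (729 ^ 3 * (N + 1) ^ 15) ^ 10 = (729 ^ 3) ^ 10 * (N + 1) ^ 150 := by
          rw [mul_pow, ← pow_mul (N + 1)]
      _ ≤ (729 ^ 3) ^ 10 * (27 * N ^ 150) := Nat.mul_le_mul_left _ h5
      _ = 27 * (729 ^ 3 * N ^ 15) ^ 10 := by rw [mul_pow, ← pow_mul N]; ring
      _ ≤ 27 * (32 ^ 30 * 3 ^ (3 * N)) := Nat.mul_le_mul_left _ ih
      _ = 32 ^ 30 * 3 ^ (3 * (N + 1)) := by
          have : 3 * (N + 1) = 3 * N + 3 := by ring
          rw [this, pow_add]; ring

theorem log_bound (d N : ℕ) (hd : 3 ≤ d) (h2 : 2 * d ≤ N) (hN : 300 ≤ N) :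
    30 * Nat.log 2 d + 70 ≤ N := by
  have h3 : 2 ^ Nat.log 2 d ≤ d := Nat.pow_log_le_self 2 (by omega)
  set e := Nat.log 2 d with he
  rcases Nat.lt_or_ge e 8 with h | h
  · omega
  · have h4 : ∀ k, 8 ≤ k → 30 * k + 70 ≤ 2 * 2 ^ k := by
      intro k hk
      induction k, hk using Nat.le_induction with
      | base => norm_num
      | succ k hk ih =>
        rw [pow_succ]
        have : 2 ^ 8 ≤ 2 ^ k := Nat.pow_le_pow_right (by norm_num) hk
        omega
    have := h4 e h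
    omega

theorem I2 {N d b : ℕ} (hN : N = b * d) (h101 : 101 ≤ N) (hd : 3 ≤ d) (hb : 2 ≤ b) :
    d ^ (2 * N + 3 * Nat.log 2 d + 7) * b.factorial ^ (3 * d) * (729 ^ 3 * N ^ 15) ≤
      32 ^ 3 * N.factorial ^ 3 := by
  have hdN : 2 * d ≤ N := by rw [hN]; exact Nat.mul_le_mul_right _ hb
  rcases Nat.lt_or_ge N 300 with hlt | hge
  · have h1 := chk_all N hlt h101 d (by omega) hd (by rw [hN]; exact Nat.mul_mod_left _ _)
    unfold chk at h1
    rw [Nat.ble_eq] at h1
    have h2 : N / d = b := by rw [hN]; exact Nat.mul_div_cancel _ (by omega)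
    rw [h2, Nat.log2_eq_log_two] at h1
    exact h1
  · set e := Nat.log 2 d with he
    set C := 729 ^ 3 * N ^ 15 with hC
    have hst := stir b d (by omega)
    rw [← hN] at hst
    have hst3 := Nat.pow_le_pow_left hst 3
    have h5 : d ^ (2 * N + 3 * e + 7) * C * (27 * b ^ 3) ^ d ≤ 32 ^ 3 * d ^ (3 * N) := by
      apply le_of_pow_le_pow_left₀ (n := 10) (by norm_num) (Nat.zero_le _)
      have h6 := pow5_le b d hb hd (by rw [← hN]; exact hge)
      have h7 : ((27 * b ^ 3) ^ d) ^ 10 ≤ d ^ (6 * N) := by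
        calc ((27 * b ^ 3) ^ d) ^ 10 = ((27 * b ^ 3) ^ 5) ^ (2 * d) := by
              rw [← pow_mul, ← pow_mul]; congr 1; ring
          _ ≤ (d ^ (3 * b)) ^ (2 * d) := Nat.pow_le_pow_left h6 _
          _ = d ^ (6 * N) := by rw [← pow_mul, hN]; congr 1; ring
      have h8 := base_le N hge
      have h9 := log_bound d N hd hdN hge
      have h10 : (3 : ℕ) ^ (3 * N) ≤ d ^ (3 * N) := Nat.pow_le_pow_left hd _
      calc (d ^ (2 * N + 3 * e + 7) * C * (27 * b ^ 3) ^ d) ^ 10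
          = d ^ (20 * N + (30 * e + 70)) * C ^ 10 * ((27 * b ^ 3) ^ d) ^ 10 := by
            rw [mul_pow, mul_pow, ← pow_mul]; congr 3; ring
        _ ≤ d ^ (20 * N + N) * (32 ^ 30 * d ^ (3 * N)) * d ^ (6 * N) := by
            apply Nat.mul_le_mul _ h7
            apply Nat.mul_le_mul
            · exact Nat.pow_le_pow_right (by omega) (by omega)
            · exact h8.trans (Nat.mul_le_mul_left _ h10)
        _ = (32 ^ 3 * d ^ (3 * N)) ^ 10 := by
            rw [mul_pow, ← pow_mul, ← pow_mul]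
            have : 3 * N * 10 = (20 * N + N) + 3 * N + 6 * N := by ring
            rw [this, pow_add, pow_add]
            ring
    have hpos : 0 < (27 * b ^ 3) ^ d := by positivity
    apply Nat.le_of_mul_le_mul_right _ hpos
    calc d ^ (2 * N + 3 * e + 7) * b.factorial ^ (3 * d) * C * (27 * b ^ 3) ^ d
        = (d ^ (2 * N + 3 * e + 7) * C * (27 * b ^ 3) ^ d) * b.factorial ^ (3 * d) := by ring
      _ ≤ 32 ^ 3 * d ^ (3 * N) * b.factorial ^ (3 * d) := Nat.mul_le_mul_right _ h5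
      _ = 32 ^ 3 * (d ^ N * b.factorial ^ d) ^ 3 := by
          rw [mul_pow, ← pow_mul, ← pow_mul]; ring
      _ ≤ 32 ^ 3 * (N.factorial * (3 * b) ^ d) ^ 3 := Nat.mul_le_mul_left _ hst3
      _ = 32 ^ 3 * N.factorial ^ 3 * (27 * b ^ 3) ^ d := by
          rw [mul_pow, ← pow_mul, mul_comm d 3, pow_mul]
          have : (3 * b) ^ 3 = 27 * b ^ 3 := by ring
          rw [this]; ring

theorem I3 {N : ℕ} (h101 : 101 ≤ N) :
    9 * N ^ (3 * Nat.log 2 N + 5) * (729 ^ 3 * N ^ 15) ≤ 4 * 32 ^ 3 * N.factorial := by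
  set e := Nat.log 2 N with he
  have h1 : 2 ^ e ≤ N := Nat.pow_log_le_self 2 (by omega)
  have h2 : N < 2 ^ (e + 1) := Nat.lt_pow_succ_log_self (by norm_num) N
  have h3 : 6 ≤ e := by
    by_contra hcon
    have : 2 ^ (e + 1) ≤ 2 ^ 6 := Nat.pow_le_pow_right (by norm_num) (by omega)
    omega
  -- factorial lower bound
  have h4 : N ^ N ≤ 3 ^ N * N.factorial := by
    have h := fact_lower N
    have h5 : Real.exp (N : ℝ) ≤ 3 ^ N := by
      have : Real.exp (N : ℝ) = (Real.exp 1) ^ N := by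
        rw [← Real.exp_nat_mul, mul_one]
      rw [this]
      exact pow_le_pow_left₀ (by positivity) Real.exp_one_lt_three.le N
    have h6 : (N : ℝ) ^ N ≤ 3 ^ N * N.factorial :=
      h.trans (mul_le_mul_of_nonneg_right h5 (by positivity))
    exact_mod_cast h6
  have h5 : 32 ^ N ≤ N.factorial := by
    have h6 : (3 * 32) ^ N ≤ N ^ N := Nat.pow_le_pow_left (by omega) N
    have h7 := h6.trans h4
    rw [mul_pow] at h7
    exact Nat.le_of_mul_le_mul_left h7 (by positivity)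
  have h6 : (e + 1) * (3 * e + 20) + 15 ≤ 5 * N := by
    rcases Nat.lt_or_ge e 7 with h | h
    · have : e = 6 := by omega
      rw [this]; omega
    · have h7 : ∀ k, 7 ≤ k → (k + 1) * (3 * k + 20) + 15 ≤ 5 * 2 ^ k := by
        intro k hk
        induction k, hk using Nat.le_induction with
        | base => norm_num
        | succ k hk ih =>
          rw [pow_succ]
          have : 2 ^ 7 ≤ 2 ^ k := Nat.pow_le_pow_right (by norm_num) hk
          nlinarith
      have := h7 e h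
      omega
  calc 9 * N ^ (3 * e + 5) * (729 ^ 3 * N ^ 15) = (9 * 729 ^ 3) * N ^ (3 * e + 20) := by
        have : 3 * e + 20 = (3 * e + 5) + 15 := by ring
        rw [this, pow_add]; ring
    _ ≤ (4 * 32 ^ 3 * 2 ^ 15) * (2 ^ (e + 1)) ^ (3 * e + 20) := by
        apply Nat.mul_le_mul
        · norm_num
        · exact Nat.pow_le_pow_left h2.le _
    _ = 4 * 32 ^ 3 * 2 ^ ((e + 1) * (3 * e + 20) + 15) := by
        rw [← pow_mul, pow_add]; ring
    _ ≤ 4 * 32 ^ 3 * 2 ^ (5 * N) :=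
        Nat.mul_le_mul_left _ (Nat.pow_le_pow_right (by norm_num) h6)
    _ = 4 * 32 ^ 3 * 32 ^ N := by rw [pow_mul]; norm_num
    _ ≤ 4 * 32 ^ 3 * N.factorial := Nat.mul_le_mul_left _ h5

end Pool.Agent.Lib.MPcff1c1
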