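import Mathlib
import Pool.Agent.Lib.MP_cff1c1_al.Large2

/-! The union bound is effective for all primes `p ≥ 151`. -/

set_option linter.all false

namespace Pool.Agent.Lib.MPcff1c1

open Finset

theorem cc_cube {m r n N d b : ℕ} (hr : 3 ≤ r) (hn : n = r * m + 1) (hN : N = b * d) (hb : b ≠ 1)
    (hd : 1 ≤ d) : cc m r d b ^ 3 ≤ n.choose N * d ^ (N + 2) := by
  unfold cc
  rw [← hN]
  split_ifs with h1
  · rw [mul_pow]
    apply Nat.mul_le_mul (choose_cube_le hr hn h1)
    rw [← pow_mul]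
    apply Nat.pow_le_pow_right hd
    have h2 := Nat.div_add_mod N r
    have h3 : 3 * (N / r) ≤ r * (N / r) := Nat.mul_le_mul_right _ hr
    omega
  · simp

theorem cc_cube_one {m r n d : ℕ} (hr : 3 ≤ r) (hn : n = r * m + 1) (hd : 3 ≤ d) :
    2 * cc m r d 1 ^ 3 ≤ n.choose d * (3 * d * d.factorial) := by
  unfold cc
  rw [one_mul]
  simp only [if_true]
  split_ifs with h1
  · have h2 := Nat.div_add_mod d r
    have h3 : d / r ≠ 0 := by
      intro h0
      rw [h0, mul_zero, zero_add] at h2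
      omega
    obtain ⟨i, hi⟩ := Nat.exists_eq_succ_of_ne_zero h3
    have h4 := pow_fact_cube r i hr
    have hi' : d / r = i + 1 := hi
    have h5 : r * (i + 1) ≤ d := by rw [← hi']; omega
    have h6 : 3 * (i + 1) ≤ d := le_trans (Nat.mul_le_mul_right _ hr) h5
    rw [mul_pow]
    calc 2 * ((m.choose (d / r)) ^ 3 * (r ^ (d / r) * (d / r).factorial) ^ 3)
        = (m.choose (d / r)) ^ 3 * (2 * (r ^ (i + 1) * (i + 1).factorial) ^ 3) := by
          rw [hi']; ring
      _ ≤ n.choose d * (9 * (i + 1) * (r * (i + 1)).factorial) :=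
          Nat.mul_le_mul (choose_cube_le hr hn h1) h4
      _ ≤ n.choose d * (3 * d * d.factorial) := by
          apply Nat.mul_le_mul_left
          apply Nat.mul_le_mul
          · omega
          · exact Nat.factorial_le h5
  · simp

theorem t1 {n r s b : ℕ} (hn : 151 ≤ n) (hr : 3 ≤ r) (hs : 3 ≤ s) (hrn : r ∣ n - 1)
    (hsn : s ∣ n - 1) (h1 : n ≤ 3 * b) (h2 : 2 * b ≤ n) :
    3 * n ^ 5 * tt n r s 1 0 b < n.factorial := by
  have hnr : n = r * ((n - 1) / r) + 1 := by rw [Nat.mul_div_cancel' hrn]; omega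
  have hns : n = s * ((n - 1) / s) + 1 := by rw [Nat.mul_div_cancel' hsn]; omega
  have hcr := cc_cube (N := b) (d := 1) (b := b) hr hnr (by rw [mul_one]) (by omega) (le_refl 1)
  have hcs := cc_cube (N := b) (d := 1) (b := b) hs hns (by rw [mul_one]) (by omega) (le_refl 1)
  rw [one_pow, mul_one] at hcr hcs
  have hI := I1 hn h1 h2
  have hfact := choose_mul_fact (n := n) (k := b) (by omega)
  apply lt_of_pow_lt_pow_left₀ 3 (Nat.zero_le _)
  unfold tt
  simp only [mul_one, one_pow, one_mul, pow_one]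
  set C := n.choose b with hC
  have hCpos : 0 < C := Nat.choose_pos (by omega)
  set F := b.factorial * (n - b).factorial with hF
  have hFpos : 0 < F := by positivity
  calc (3 * n ^ 5 * (cc ((n - 1) / r) r 1 b * cc ((n - 1) / s) s 1 b * F)) ^ 3
      = (3 * n ^ 5) ^ 3 * (cc ((n - 1) / r) r 1 b ^ 3 * cc ((n - 1) / s) s 1 b ^ 3) * F ^ 3 := by
        ring
    _ ≤ (3 * n ^ 5) ^ 3 * (C * C) * F ^ 3 := by
        apply Nat.mul_le_mul_right
        apply Nat.mul_le_mul_left
        exact Nat.mul_le_mul hcr hcs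
    _ < C * (C * C) * F ^ 3 := by
        apply Nat.mul_lt_mul_of_pos_right _ (by positivity)
        exact Nat.mul_lt_mul_of_pos_right hI (by positivity)
    _ = n.factorial ^ 3 := by rw [← hfact]; ring

theorem t2 {n r s d e b : ℕ} (hn : 151 ≤ n) (hr : 3 ≤ r) (hs : 3 ≤ s) (hrn : r ∣ n - 1)
    (hsn : s ∣ n - 1) (hd : 3 ≤ d) (hb : 1 ≤ b) (h1 : 2 * n < 3 * (b * d)) (h2 : b * d ≤ n)
    (he : e ≤ Nat.log 2 d) :
    3 * n ^ 5 * tt n r s d e b < n.factorial := by
  have hnr : n = r * ((n - 1) / r) + 1 := by rw [Nat.mul_div_cancel' hrn]; omega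
  have hns : n = s * ((n - 1) / s) + 1 := by rw [Nat.mul_div_cancel' hsn]; omega
  obtain ⟨N, hN⟩ : ∃ N, N = b * d := ⟨_, rfl⟩
  rw [← hN] at h1 h2
  have hfact := choose_mul_fact (n := n) (k := N) h2
  have hK : 32 ^ 3 * (3 * n ^ 5) ^ 3 < 729 ^ 3 * N ^ 15 := by
    have h3 : (2 * n) ^ 15 < (3 * N) ^ 15 := Nat.pow_lt_pow_left h1 (by norm_num)
    rw [mul_pow, mul_pow] at h3
    calc 32 ^ 3 * (3 * n ^ 5) ^ 3 = 27 * (2 ^ 15 * n ^ 15) := by ring
      _ < 27 * (3 ^ 15 * N ^ 15) := Nat.mul_lt_mul_of_pos_left h3 (by norm_num)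
      _ = 729 ^ 3 * N ^ 15 := by ring
  have h101 : 101 ≤ N := by omega
  set C := n.choose N with hC
  have hCpos : 0 < C := Nat.choose_pos h2
  apply lt_of_pow_lt_pow_left₀ 3 (Nat.zero_le _)
  unfold tt
  rw [← hN]
  rcases Nat.eq_or_lt_of_le hb with hb1 | hb2
  · -- fibres of size one
    subst hb1
    rw [one_mul] at hN
    subst hN
    have hcr := cc_cube_one hr hnr hd
    have hcs := cc_cube_one hs hns hd
    have hI := I3 h101
    rw [Nat.factorial_one, one_pow, one_mul]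
    set cr := cc ((n - 1) / r) r N 1
    set cs := cc ((n - 1) / s) s N 1
    set F := (n - N).factorial with hF
    have hFpos : 0 < F := Nat.factorial_pos _
    have hdpos : 0 < N := by omega
    have hfpos : 0 < N.factorial := Nat.factorial_pos _
    have hlog : N ^ (3 * e + 5) ≤ N ^ (3 * Nat.log 2 N + 5) :=
      Nat.pow_le_pow_right hdpos (by omega)
    apply Nat.lt_of_mul_lt_mul_left (a := 4 * 32 ^ 3)
    calc 4 * 32 ^ 3 * (3 * n ^ 5 * (N ^ (e + 1) * (cr * cs * F))) ^ 3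
        = (32 ^ 3 * (3 * n ^ 5) ^ 3) * (N ^ (3 * e + 3) * ((2 * cr ^ 3) * (2 * cs ^ 3)) * F ^ 3) := by
          have : (N ^ (e + 1)) ^ 3 = N ^ (3 * e + 3) := by rw [← pow_mul]; congr 1; ring
          rw [mul_pow, mul_pow, mul_pow, mul_pow, this]
          ring
      _ ≤ (32 ^ 3 * (3 * n ^ 5) ^ 3) * (N ^ (3 * e + 3) * ((C * (3 * N * N.factorial)) *
            (C * (3 * N * N.factorial))) * F ^ 3) := by
          apply Nat.mul_le_mul_left
          apply Nat.mul_le_mul_right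
          apply Nat.mul_le_mul_left
          exact Nat.mul_le_mul hcr hcs
      _ = (32 ^ 3 * (3 * n ^ 5) ^ 3) * (9 * N ^ (3 * e + 5) * (C ^ 2 * N.factorial ^ 2 * F ^ 3)) := by
          have : N ^ (3 * e + 5) = N ^ (3 * e + 3) * N ^ 2 := by rw [← pow_add]
          rw [this]
          ring
      _ < (729 ^ 3 * N ^ 15) * (9 * N ^ (3 * e + 5) * (C ^ 2 * N.factorial ^ 2 * F ^ 3)) :=
          Nat.mul_lt_mul_of_pos_right hK (by positivity)
      _ ≤ (729 ^ 3 * N ^ 15) * (9 * N ^ (3 * Nat.log 2 N + 5) * (C ^ 2 * N.factorial ^ 2 * F ^ 3)) := by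
          apply Nat.mul_le_mul_left
          apply Nat.mul_le_mul_right
          exact Nat.mul_le_mul_left _ hlog
      _ = (9 * N ^ (3 * Nat.log 2 N + 5) * (729 ^ 3 * N ^ 15)) * (C ^ 2 * N.factorial ^ 2 * F ^ 3) := by
          ring
      _ ≤ (4 * 32 ^ 3 * N.factorial) * (C ^ 2 * N.factorial ^ 2 * F ^ 3) :=
          Nat.mul_le_mul_right _ hI
      _ = 4 * 32 ^ 3 * (C ^ 2 * (N.factorial * F) ^ 3) := by ring
      _ ≤ 4 * 32 ^ 3 * (C ^ 3 * (N.factorial * F) ^ 3) := by
          apply Nat.mul_le_mul_left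
          apply Nat.mul_le_mul_right
          exact Nat.pow_le_pow_right hCpos (by norm_num)
      _ = 4 * 32 ^ 3 * n.factorial ^ 3 := by rw [← hfact]; ring
  · -- fibres of size at least two
    have hcr := cc_cube hr hnr hN (by omega) (by omega)
    have hcs := cc_cube hs hns hN (by omega) (by omega)
    have hI := I2 hN h101 hd hb2
    set cr := cc ((n - 1) / r) r d b
    set cs := cc ((n - 1) / s) s d b
    set F := (n - N).factorial with hF
    have hFpos : 0 < F := Nat.factorial_pos _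
    have hbpos : 0 < b.factorial := Nat.factorial_pos _
    have hdpos : 0 < d := by omega
    have hlog : d ^ (2 * N + 3 * e + 7) ≤ d ^ (2 * N + 3 * Nat.log 2 d + 7) :=
      Nat.pow_le_pow_right (by omega) (by omega)
    apply Nat.lt_of_mul_lt_mul_left (a := 32 ^ 3)
    calc 32 ^ 3 * (3 * n ^ 5 * (d ^ (e + 1) * (cr * cs * (b.factorial ^ d * F)))) ^ 3
        = (32 ^ 3 * (3 * n ^ 5) ^ 3) * (d ^ (3 * e + 3) * (cr ^ 3 * cs ^ 3) *
            (b.factorial ^ (3 * d) * F ^ 3)) := by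
          have h3 : (d ^ (e + 1)) ^ 3 = d ^ (3 * e + 3) := by rw [← pow_mul]; congr 1; ring
          have h4 : (b.factorial ^ d) ^ 3 = b.factorial ^ (3 * d) := by
            rw [← pow_mul]; congr 1; ring
          rw [mul_pow, mul_pow, mul_pow, mul_pow, mul_pow, mul_pow (b.factorial ^ d), h3, h4]
          ring
      _ ≤ (32 ^ 3 * (3 * n ^ 5) ^ 3) * (d ^ (3 * e + 3) * ((C * d ^ (N + 2)) * (C * d ^ (N + 2))) *
            (b.factorial ^ (3 * d) * F ^ 3)) := by
          apply Nat.mul_le_mul_left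
          apply Nat.mul_le_mul_right
          apply Nat.mul_le_mul_left
          exact Nat.mul_le_mul hcr hcs
      _ = (32 ^ 3 * (3 * n ^ 5) ^ 3) * (d ^ (2 * N + 3 * e + 7) * b.factorial ^ (3 * d) *
            (C ^ 2 * F ^ 3)) := by
          have : d ^ (2 * N + 3 * e + 7) = d ^ (3 * e + 3) * d ^ (N + 2) * d ^ (N + 2) := by
            rw [← pow_add, ← pow_add]; congr 1; ring
          rw [this]
          ring
      _ < (729 ^ 3 * N ^ 15) * (d ^ (2 * N + 3 * e + 7) * b.factorial ^ (3 * d) *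
            (C ^ 2 * F ^ 3)) :=
          Nat.mul_lt_mul_of_pos_right hK (by positivity)
      _ ≤ (729 ^ 3 * N ^ 15) * (d ^ (2 * N + 3 * Nat.log 2 d + 7) * b.factorial ^ (3 * d) *
            (C ^ 2 * F ^ 3)) := by
          apply Nat.mul_le_mul_left
          apply Nat.mul_le_mul_right
          exact Nat.mul_le_mul_right _ hlog
      _ = (d ^ (2 * N + 3 * Nat.log 2 d + 7) * b.factorial ^ (3 * d) * (729 ^ 3 * N ^ 15)) *
            (C ^ 2 * F ^ 3) := by ring
      _ ≤ (32 ^ 3 * N.factorial ^ 3) * (C ^ 2 * F ^ 3) := Nat.mul_le_mul_right _ hI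
      _ = 32 ^ 3 * (C ^ 2 * (N.factorial * F) ^ 3) := by ring
      _ ≤ 32 ^ 3 * (C ^ 3 * (N.factorial * F) ^ 3) := by
          apply Nat.mul_le_mul_left
          apply Nat.mul_le_mul_right
          exact Nat.pow_le_pow_right hCpos (by norm_num)
      _ = 32 ^ 3 * n.factorial ^ 3 := by rw [← hfact]; ring

/-- The exponent of a prime power. -/
def ppeL (d : ℕ) : ℕ := Nat.log d.minFac d

theorem ppeL_spec (q e : ℕ) (hq : q.Prime) (he : 1 ≤ e) : ppeL (q ^ e) = e := by
  unfold ppeL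
  rw [Nat.Prime.pow_minFac hq (by omega), Nat.log_pow hq.one_lt]

theorem ppeL_le (d : ℕ) (hd : 3 ≤ d) : ppeL d ≤ Nat.log 2 d := by
  unfold ppeL
  exact Nat.log_anti_left (by norm_num) (Nat.minFac_prime (by omega)).two_le

theorem bnd_le {n r s : ℕ} (hn : 151 ≤ n) (hr : 3 ≤ r) (hs : 3 ≤ s) (hrn : r ∣ n - 1)
    (hsn : s ∣ n - 1) : 3 * n ^ 3 * bnd ppeL n r s ≤ n.factorial := by
  have h0 : 3 * n ^ 5 * bnd ppeL n r s ≤ n ^ 2 * n.factorial := by
    unfold bnd
    rw [mul_add, mul_sum, mul_sum]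
    have hA : ∑ b ∈ (range (n + 1)).filter (fun b => n ≤ 3 * b ∧ 2 * b ≤ n),
        3 * n ^ 5 * tt n r s 1 0 b ≤ n * n.factorial := by
      refine (sum_le_card_nsmul _ _ n.factorial (fun b hb => ?_)).trans ?_
      · rw [mem_filter] at hb
        exact (t1 hn hr hs hrn hsn hb.2.1 hb.2.2).le
      · rw [smul_eq_mul]
        apply Nat.mul_le_mul_right
        have : ((range (n + 1)).filter (fun b => n ≤ 3 * b ∧ 2 * b ≤ n)) ⊆ Icc 1 n := by
          intro b hb
          rw [mem_filter] at hb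
          rw [mem_Icc]
          omega
        have h1 := card_le_card this
        rw [Nat.card_Icc] at h1
        omega
    have hB : ∑ d ∈ (range (n + 1)).filter (fun d => 3 ≤ d ∧ ppeL d ≠ 0), 3 * n ^ 5 *
        ∑ b ∈ (range (n + 1)).filter (fun b => 1 ≤ b ∧ 2 * n < 3 * (b * d) ∧ b * d ≤ n),
          tt n r s d (ppeL d) b ≤ (n - 1) * (n * n.factorial) := by
      refine (sum_le_card_nsmul _ _ (n * n.factorial) (fun d hd => ?_)).trans ?_
      · rw [mem_filter] at hd
        rw [mul_sum]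
        refine (sum_le_card_nsmul _ _ n.factorial (fun b hb => ?_)).trans ?_
        · rw [mem_filter] at hb
          exact (t2 hn hr hs hrn hsn hd.2.1 hb.2.1 hb.2.2.1 hb.2.2.2 (ppeL_le d hd.2.1)).le
        · rw [smul_eq_mul]
          apply Nat.mul_le_mul_right
          have : ((range (n + 1)).filter (fun b => 1 ≤ b ∧ 2 * n < 3 * (b * d) ∧ b * d ≤ n)) ⊆
              Icc 1 n := by
            intro b hb
            rw [mem_filter, mem_range] at hb
            rw [mem_Icc]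
            omega
          have h1 := card_le_card this
          rw [Nat.card_Icc] at h1
          omega
      · rw [smul_eq_mul]
        apply Nat.mul_le_mul_right
        have : ((range (n + 1)).filter (fun d => 3 ≤ d ∧ ppeL d ≠ 0)) ⊆ Icc 2 n := by
          intro d hd
          rw [mem_filter, mem_range] at hd
          rw [mem_Icc]
          omega
        have h1 := card_le_card this
        rw [Nat.card_Icc] at h1
        omega
    have hC : n * n.factorial + (n - 1) * (n * n.factorial) = n ^ 2 * n.factorial := by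
      obtain ⟨k, rfl⟩ : ∃ k, n = k + 1 := ⟨n - 1, by omega⟩
      simp only [Nat.add_sub_cancel]
      ring
    omega
  have h1 : n ^ 2 * (3 * n ^ 3 * bnd ppeL n r s) ≤ n ^ 2 * n.factorial := by
    calc n ^ 2 * (3 * n ^ 3 * bnd ppeL n r s) = 3 * n ^ 5 * bnd ppeL n r s := by ring
      _ ≤ _ := h0
  exact Nat.le_of_mul_le_mul_left h1 (by positivity)

theorem sq_le_three_pow (k : ℕ) : k ^ 2 ≤ 3 ^ k := by
  induction k with
  | zero => norm_num
  | succ k ih =>
    rw [pow_succ 3]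
    rcases Nat.lt_or_ge k 1 with h | h
    · have : k = 0 := by omega
      subst this; norm_num
    · rcases Nat.lt_or_ge k 2 with h2 | h2
      · have : k = 1 := by omega
        subst this; norm_num
      · nlinarith

theorem card_RR (p : ℕ) (hp4 : p % 4 = 3) (hp7 : 7 ≤ p) : (RR p).card ^ 2 ≤ p := by
  have h1 : 3 ^ (RR p).card ≤ ∏ r ∈ RR p, r := by
    apply pow_card_le_prod
    intro r hr
    have hrp := Nat.prime_of_mem_primeFactors hr
    have hodd : Odd r := by
      have hrdvd := Nat.dvd_of_mem_primeFactors hr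
      have : Odd ((p - 1) / 2) := by rw [Nat.odd_iff]; omega
      exact this.of_dvd_nat hrdvd
    have := hrp.two_le
    rw [Nat.odd_iff] at hodd
    omega
  have h2 : ∏ r ∈ RR p, r ≤ (p - 1) / 2 := Nat.le_of_dvd (by omega) (Nat.prod_primeFactors_dvd _)
  have h3 := sq_le_three_pow (RR p).card
  omega

theorem exists_good_large {p : ℕ} [Fact p.Prime] (hp4 : p % 4 = 3) (hp : 151 ≤ p) :
    ∃ ζ : ℕ → (ZMod p)ˣ, (∀ r ∈ RR p, orderOf (ζ r) = r) ∧ ∃ g, Good ζ g := by
  obtain ⟨ζ, hζ⟩ := exists_zeta (p := p) hp4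
  refine ⟨ζ, hζ, ?_⟩
  apply exists_good hp4 (by omega) ζ hζ ppeL (fun q e hq he _ => ppeL_spec q e hq he)
  have hR : ∀ r ∈ RR p, 3 ≤ r ∧ r ∣ p - 1 := by
    intro r hr
    have hrp := Nat.prime_of_mem_primeFactors hr
    have hodd := odd_of_mem_RR hp4 hr
    have hrdvd := Nat.dvd_of_mem_primeFactors hr
    refine ⟨?_, hrdvd.trans (Nat.div_dvd_of_dvd (by omega))⟩
    have := hrp.two_le
    rw [Nat.odd_iff] at hodd
    omega
  have h1 : 3 * p ^ 3 * ∑ r ∈ RR p, ∑ s ∈ RR p, bnd ppeL p r s ≤ (RR p).card ^ 2 * p.factorial := by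
    rw [mul_sum]
    have : ∀ r ∈ RR p, 3 * p ^ 3 * ∑ s ∈ RR p, bnd ppeL p r s ≤ (RR p).card * p.factorial := by
      intro r hr
      rw [mul_sum]
      refine (sum_le_card_nsmul _ _ p.factorial (fun s hs => ?_)).trans ?_
      · exact bnd_le hp (hR r hr).1 (hR s hs).1 (hR r hr).2 (hR s hs).2
      · rw [smul_eq_mul]
    refine (sum_le_card_nsmul _ _ _ this).trans ?_
    rw [smul_eq_mul, pow_two, mul_assoc]
  have h2 := card_RR p hp4 (by omega)
  have h3 : 3 * p ^ 3 * ∑ r ∈ RR p, ∑ s ∈ RR p, bnd ppeL p r s ≤ p * p.factorial :=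
    h1.trans (Nat.mul_le_mul_right _ h2)
  have h4 : p * (3 * (p ^ 2 * ∑ r ∈ RR p, ∑ s ∈ RR p, bnd ppeL p r s)) ≤ p * p.factorial := by
    calc p * (3 * (p ^ 2 * ∑ r ∈ RR p, ∑ s ∈ RR p, bnd ppeL p r s))
        = 3 * p ^ 3 * ∑ r ∈ RR p, ∑ s ∈ RR p, bnd ppeL p r s := by ring
      _ ≤ _ := h3
  have h5 := Nat.le_of_mul_le_mul_left h4 (by omega)
  have h6 := Nat.factorial_pos p
  omega

end Pool.Agent.Lib.MPcff1c1
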