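import Mathlib
import Pool.Agent.Lib.MP_cff1c1_al.Union

/-! Kernel evaluation of the union bound for the primes below 151. -/

set_option linter.all false

namespace Pool.Agent.Lib.MPcff1c1

open Finset

/-- `∑ i < k, f i`, in a form suited to evaluation. -/
def sumTo (f : ℕ → ℕ) : ℕ → ℕ
  | 0 => 0
  | k + 1 => sumTo f k + f k

theorem sumTo_eq (f : ℕ → ℕ) (n : ℕ) : sumTo f n = ∑ i ∈ range n, f i := by
  induction n with
  | zero => rfl
  | succ n ih => rw [sumTo, ih, sum_range_succ]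

/-- Binomial coefficients through factorials. -/
def chooseF (m i : ℕ) : ℕ := if i ≤ m then m.factorial / (i.factorial * (m - i).factorial) else 0

theorem chooseF_eq (m i : ℕ) : chooseF m i = m.choose i := by
  unfold chooseF
  split_ifs with h
  · rw [Nat.choose_eq_factorial_div_factorial h]
  · rw [Nat.choose_eq_zero_of_lt (by omega)]

/-- Exponents of prime powers below 140. -/
def tab : List ℕ :=
  [0, 0, 1, 1, 2, 1, 0, 1, 3, 2, 0, 1, 0, 1, 0, 0, 4, 1, 0, 1, 0, 0, 0, 1, 0, 2, 0, 3, 0, 1, 0, 1, 5, 0, 0, 0, 0, 1, 0, 0, 0, 1, 0, 1, 0, 0, 0, 1, 0, 2, 0, 0, 0, 1, 0, 0, 0, 0, 0, 1, 0, 1, 0, 0, 6, 0, 0, 1, 0, 0, 0, 1, 0, 1, 0, 0, 0, 0, 0, 1, 0, 4, 0, 1, 0, 0, 0, 0, 0, 1, 0, 0, 0, 0, 0, 0, 0, 1, 0, 0, 0, 1, 0, 1, 0, 0, 0, 1, 0, 1, 0, 0, 0, 1, 0, 0, 0, 0, 0, 0, 0, 2, 0, 0, 0, 3, 0, 1, 7, 0, 0, 1, 0, 0, 0, 0, 0, 1, 0, 1]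

def ppeS (d : ℕ) : ℕ := tab.getD d 0

theorem tab_one : ∀ d < 140, ppeS d = 1 ∨ d < 2 ∨ ∃ a < d, 2 ≤ a ∧ d % a = 0 := by
  decide +kernel

def tp (q e : ℕ) : Bool :=
  !(decide (2 ≤ e)) || !(decide (q ^ e ≤ 139)) || decide (ppeS (q ^ e) = e) ||
    (decide (q = 0) || decide (q = 1) || decide (q = 4) || decide (q = 6) || decide (q = 8) ||
      decide (q = 9) || decide (q = 10))

theorem tab_pow : ∀ q < 12, ∀ e < 8, tp q e = true := by
  decide +kernel

theorem ppeS_spec (n : ℕ) (hn : n ≤ 139) (q e : ℕ) (hq : q.Prime) (he : 1 ≤ e)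
    (hqe : q ^ e ≤ n) : ppeS (q ^ e) = e := by
  have hno : ∀ a < q, 2 ≤ a → q % a ≠ 0 := by
    intro a ha h2 h0
    have h1 : a ∣ q := Nat.dvd_of_mod_eq_zero h0
    rcases (Nat.dvd_prime hq).1 h1 with h3 | h3 <;> omega
  have hq2 := hq.two_le
  rcases Nat.eq_or_lt_of_le he with h1 | h1
  · subst h1
    rw [pow_one] at hqe ⊢
    rcases tab_one q (by omega) with h | h | ⟨a, ha, h2, h3⟩
    · exact h
    · omega
    · exact absurd h3 (hno a ha h2)
  · have hq12 : q < 12 := by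
      by_contra hcon
      have h2 : 12 ^ 2 ≤ q ^ e :=
        (Nat.pow_le_pow_left (by omega) 2).trans (Nat.pow_le_pow_right (by omega) h1)
      omega
    have he8 : e < 8 := by
      by_contra hcon
      have h2 : 2 ^ 8 ≤ q ^ e :=
        (Nat.pow_le_pow_left hq2 8).trans (Nat.pow_le_pow_right (by omega) (by omega))
      omega
    have h := tab_pow q hq12 e he8
    unfold tp at h
    simp only [Bool.or_eq_true, Bool.not_eq_true', decide_eq_false_iff_not,
      decide_eq_true_eq] at h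
    rcases h with ((h | h) | h) | h
    · omega
    · omega
    · exact h
    · exfalso
      have h4 := hno 2
      have h5 := hno 3
      rcases h with (((((h | h) | h) | h) | h) | h) | h <;> subst h <;> revert hq h4 h5 <;>
        norm_num

/-- Fast version of `cc`. -/
def ccF (m r d b : ℕ) : ℕ :=
  if (b * d) % r ≤ 1 then
    chooseF m (b * d / r) * (if b = 1 then r ^ (b * d / r) * (b * d / r).factorial
      else d ^ (b * d / r + b * d % r))
  else 0

theorem ccF_eq (m r d b : ℕ) : ccF m r d b = cc m r d b := by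
  unfold ccF cc
  rw [chooseF_eq]

/-- Fast version of `tt`. -/
def ttF (n r s d e b : ℕ) : ℕ :=
  d ^ (e + 1) * (ccF ((n - 1) / r) r d b * ccF ((n - 1) / s) s d b *
    (b.factorial ^ d * (n - b * d).factorial))

theorem ttF_eq (n r s d e b : ℕ) : ttF n r s d e b = tt n r s d e b := by
  unfold ttF tt
  rw [ccF_eq, ccF_eq]

/-- Fast version of `bnd`. -/
def bndF (n r s : ℕ) : ℕ :=
  sumTo (fun b => if n ≤ 3 * b ∧ 2 * b ≤ n then ttF n r s 1 0 b else 0) (n + 1) +
  sumTo (fun d => if 3 ≤ d ∧ ppeS d ≠ 0 then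
    sumTo (fun b => if 1 ≤ b ∧ 2 * n < 3 * (b * d) ∧ b * d ≤ n then
      ttF n r s d (ppeS d) b else 0) (n + 1) else 0) (n + 1)

theorem bndF_eq (n r s : ℕ) : bndF n r s = bnd ppeS n r s := by
  unfold bndF bnd
  rw [sumTo_eq, sumTo_eq]
  congr 1
  · rw [sum_filter]
    apply sum_congr rfl
    intro b _
    rw [ttF_eq]
  · rw [sum_filter]
    apply sum_congr rfl
    intro d _
    rw [sumTo_eq, sum_filter]
    simp only [ttF_eq]

/-- Bounded divisor search. -/
def noDiv (r : ℕ) : ℕ → Bool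
  | 0 => true
  | k + 1 => noDiv r k && (decide (k < 2) || decide (r % k ≠ 0))

theorem noDiv_of_prime {r : ℕ} (hr : r.Prime) : ∀ k ≤ r, noDiv r k = true := by
  intro k
  induction k with
  | zero => intro _; rfl
  | succ k ih =>
    intro hk
    rw [noDiv, ih (by omega)]
    simp only [Bool.true_and, Bool.or_eq_true, decide_eq_true_eq]
    by_cases h : k < 2
    · exact Or.inl h
    · right
      intro h0
      rcases (Nat.dvd_prime hr).1 (Nat.dvd_of_mod_eq_zero h0) with h3 | h3 <;> omega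

def condR (p r : ℕ) : Bool :=
  decide (3 ≤ r) && decide (((p - 1) / 2) % r = 0) && noDiv r r

def totF (p : ℕ) : ℕ :=
  sumTo (fun r => if condR p r = true then
    sumTo (fun s => if condR p s = true then bndF p r s else 0) p else 0) p

theorem condR_of_mem {p r : ℕ} (hp4 : p % 4 = 3) (hp7 : 7 ≤ p) (hr : r ∈ RR p) :
    condR p r = true ∧ r < p := by
  have hrp := Nat.prime_of_mem_primeFactors hr
  have hrdvd := Nat.dvd_of_mem_primeFactors hr
  have hodd : Odd r := by
    have : Odd ((p - 1) / 2) := by rw [Nat.odd_iff]; omega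
    exact this.of_dvd_nat hrdvd
  have h2 := hrp.two_le
  have h3 := Nat.le_of_dvd (by omega) hrdvd
  rw [Nat.odd_iff] at hodd
  refine ⟨?_, by omega⟩
  unfold condR
  rw [noDiv_of_prime hrp r (le_refl r)]
  simp only [Bool.and_true, Bool.and_eq_true, decide_eq_true_eq]
  exact ⟨by omega, Nat.mod_eq_zero_of_dvd hrdvd⟩

theorem sum_le_totF {p : ℕ} (hp4 : p % 4 = 3) (hp7 : 7 ≤ p) :
    ∑ r ∈ RR p, ∑ s ∈ RR p, bnd ppeS p r s ≤ totF p := by
  unfold totF
  rw [sumTo_eq, ← sum_filter]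
  have hsub : RR p ⊆ (range p).filter (fun r => condR p r = true) := by
    intro r hr
    rw [mem_filter, mem_range]
    exact ⟨(condR_of_mem hp4 hp7 hr).2, (condR_of_mem hp4 hp7 hr).1⟩
  calc ∑ r ∈ RR p, ∑ s ∈ RR p, bnd ppeS p r s
      ≤ ∑ r ∈ RR p, sumTo (fun s => if condR p s = true then bndF p r s else 0) p := by
        apply sum_le_sum
        intro r _
        rw [sumTo_eq, ← sum_filter]
        simp only [bndF_eq]
        exact sum_le_sum_of_subset hsub
    _ ≤ _ := sum_le_sum_of_subset hsub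

theorem exists_good_mid {p : ℕ} [Fact p.Prime] (hp4 : p % 4 = 3) (hp7 : 7 ≤ p) (hp : p ≤ 139)
    (hnum : p ^ 2 * totF p < p.factorial) :
    ∃ ζ : ℕ → (ZMod p)ˣ, (∀ r ∈ RR p, orderOf (ζ r) = r) ∧ ∃ g, Good ζ g := by
  obtain ⟨ζ, hζ⟩ := exists_zeta (p := p) hp4
  refine ⟨ζ, hζ, ?_⟩
  apply exists_good hp4 hp7 ζ hζ ppeS (fun q e hq he hqe => ppeS_spec p hp q e hq he hqe)
  exact lt_of_le_of_lt (Nat.mul_le_mul_left _ (sum_le_totF hp4 hp7)) hnum

theorem num23 : 23 ^ 2 * totF 23 < Nat.factorial 23 := by decide +kernel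
theorem num43 : 43 ^ 2 * totF 43 < Nat.factorial 43 := by decide +kernel
theorem num47 : 47 ^ 2 * totF 47 < Nat.factorial 47 := by decide +kernel
theorem num59 : 59 ^ 2 * totF 59 < Nat.factorial 59 := by decide +kernel
theorem num67 : 67 ^ 2 * totF 67 < Nat.factorial 67 := by decide +kernel
theorem num71 : 71 ^ 2 * totF 71 < Nat.factorial 71 := by decide +kernel
theorem num79 : 79 ^ 2 * totF 79 < Nat.factorial 79 := by decide +kernel
theorem num83 : 83 ^ 2 * totF 83 < Nat.factorial 83 := by decide +kernel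
theorem num103 : 103 ^ 2 * totF 103 < Nat.factorial 103 := by decide +kernel
theorem num107 : 107 ^ 2 * totF 107 < Nat.factorial 107 := by decide +kernel
theorem num127 : 127 ^ 2 * totF 127 < Nat.factorial 127 := by decide +kernel
theorem num131 : 131 ^ 2 * totF 131 < Nat.factorial 131 := by decide +kernel
theorem num139 : 139 ^ 2 * totF 139 < Nat.factorial 139 := by decide +kernel

end Pool.Agent.Lib.MPcff1c1
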