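import Mathlib
import Pool.Agent.Lib.MP_cff1c1_al.Small31A
import Pool.Agent.Lib.MP_cff1c1_al.Small31B
import Pool.Agent.Lib.MP_cff1c1_al.Small31C
import Pool.Agent.Lib.MP_cff1c1_al.Small31D

/-! The prime 31. -/

set_option linter.all false

namespace Pool.Agent.Lib.MPcff1c1



def g31 : Equiv.Perm (ZMod 31) where
  toFun x := ((look G31 (8 * x.val) / 8 : ℕ) : ZMod 31)
  invFun x := ((look H31 (8 * x.val) / 8 : ℕ) : ZMod 31)
  left_inv := by unfold Function.LeftInverse; decide +kernel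
  right_inv := by unfold Function.RightInverse Function.LeftInverse; decide +kernel

theorem fact31 : Fact (Nat.Prime 31) := ⟨by norm_num⟩

theorem code_g31 : @code 31 fact31 g31 = G31 := by
  decide +kernel

theorem code_h31 : @code 31 fact31 (g31)⁻¹ = H31 := by
  decide +kernel

def z31_3 : (ZMod 31)ˣ := ⟨25, 5, by decide, by decide⟩

theorem order_z31_3 : orderOf z31_3 = 3 := by
  haveI : Fact (Nat.Prime 3) := ⟨by norm_num⟩
  exact orderOf_eq_prime (Units.ext (by decide)) (fun h => absurd (congrArg Units.val h) (by decide))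

def z31_5 : (ZMod 31)ˣ := ⟨2, 16, by decide, by decide⟩

theorem order_z31_5 : orderOf z31_5 = 5 := by
  haveI : Fact (Nat.Prime 5) := ⟨by norm_num⟩
  exact orderOf_eq_prime (Units.ext (by decide)) (fun h => absurd (congrArg Units.val h) (by decide))

def z31 (r : ℕ) : (ZMod 31)ˣ := if r = 3 then z31_3 else z31_5

theorem RR31 : RR 31 = {3, 5} := by
  unfold RR
  decide +kernel

theorem exists_good_31 [Fact (Nat.Prime 31)] :
    ∃ ζ : ℕ → (ZMod 31)ˣ, (∀ r ∈ RR 31, orderOf (ζ r) = r) ∧ ∃ g, Good ζ g := by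
  have hp : 31 ≤ 32 := by norm_num

  refine ⟨z31, ?_, g31, ?_⟩
  · intro r hr
    rw [RR31] at hr
    simp only [Finset.mem_insert, Finset.mem_singleton] at hr
    rcases hr with rfl | rfl
    · exact order_z31_3
    · exact order_z31_5
  · intro r hr s hs a b
    rw [RR31] at hr hs
    simp only [Finset.mem_insert, Finset.mem_singleton] at hr hs
    have ha := ZMod.val_lt a
    rw [← ZMod.natCast_zmod_val a]
    generalize ZMod.val a = a' at ha ⊢
    rcases hr with rfl | rfl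

    · rcases hs with rfl | rfl
      · rcases (by omega : (0 ≤ a' ∧ a' < 0 + 8) ∨ (8 ≤ a' ∧ a' < 8 + 8) ∨ (16 ≤ a' ∧ a' < 16 + 8) ∨ (24 ≤ a' ∧ a' < 24 + 7)) with h | h | h | h
        · exact chkRows_spec hp g31 z31_3 z31_3 25 25 rfl rfl 0 8 R31_3_3_0 (by rw [code_g31, code_h31]; exact chk31_3_3_0) a' ha h.1 h.2 b
        · exact chkRows_spec hp g31 z31_3 z31_3 25 25 rfl rfl 8 8 R31_3_3_8 (by rw [code_g31, code_h31]; exact chk31_3_3_8) a' ha h.1 h.2 b
        · exact chkRows_spec hp g31 z31_3 z31_3 25 25 rfl rfl 16 8 R31_3_3_16 (by rw [code_g31, code_h31]; exact chk31_3_3_16) a' ha h.1 h.2 b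
        · exact chkRows_spec hp g31 z31_3 z31_3 25 25 rfl rfl 24 7 R31_3_3_24 (by rw [code_g31, code_h31]; exact chk31_3_3_24) a' ha h.1 h.2 b
      · rcases (by omega : (0 ≤ a' ∧ a' < 0 + 8) ∨ (8 ≤ a' ∧ a' < 8 + 8) ∨ (16 ≤ a' ∧ a' < 16 + 8) ∨ (24 ≤ a' ∧ a' < 24 + 7)) with h | h | h | h
        · exact chkRows_spec hp g31 z31_3 z31_5 25 2 rfl rfl 0 8 R31_3_5_0 (by rw [code_g31, code_h31]; exact chk31_3_5_0) a' ha h.1 h.2 b
        · exact chkRows_spec hp g31 z31_3 z31_5 25 2 rfl rfl 8 8 R31_3_5_8 (by rw [code_g31, code_h31]; exact chk31_3_5_8) a' ha h.1 h.2 b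
        · exact chkRows_spec hp g31 z31_3 z31_5 25 2 rfl rfl 16 8 R31_3_5_16 (by rw [code_g31, code_h31]; exact chk31_3_5_16) a' ha h.1 h.2 b
        · exact chkRows_spec hp g31 z31_3 z31_5 25 2 rfl rfl 24 7 R31_3_5_24 (by rw [code_g31, code_h31]; exact chk31_3_5_24) a' ha h.1 h.2 b
    · rcases hs with rfl | rfl
      · rcases (by omega : (0 ≤ a' ∧ a' < 0 + 8) ∨ (8 ≤ a' ∧ a' < 8 + 8) ∨ (16 ≤ a' ∧ a' < 16 + 8) ∨ (24 ≤ a' ∧ a' < 24 + 7)) with h | h | h | h
        · exact chkRows_spec hp g31 z31_5 z31_3 2 25 rfl rfl 0 8 R31_5_3_0 (by rw [code_g31, code_h31]; exact chk31_5_3_0) a' ha h.1 h.2 b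
        · exact chkRows_spec hp g31 z31_5 z31_3 2 25 rfl rfl 8 8 R31_5_3_8 (by rw [code_g31, code_h31]; exact chk31_5_3_8) a' ha h.1 h.2 b
        · exact chkRows_spec hp g31 z31_5 z31_3 2 25 rfl rfl 16 8 R31_5_3_16 (by rw [code_g31, code_h31]; exact chk31_5_3_16) a' ha h.1 h.2 b
        · exact chkRows_spec hp g31 z31_5 z31_3 2 25 rfl rfl 24 7 R31_5_3_24 (by rw [code_g31, code_h31]; exact chk31_5_3_24) a' ha h.1 h.2 b
      · rcases (by omega : (0 ≤ a' ∧ a' < 0 + 8) ∨ (8 ≤ a' ∧ a' < 8 + 8) ∨ (16 ≤ a' ∧ a' < 16 + 8) ∨ (24 ≤ a' ∧ a' < 24 + 7)) with h | h | h | h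
        · exact chkRows_spec hp g31 z31_5 z31_5 2 2 rfl rfl 0 8 R31_5_5_0 (by rw [code_g31, code_h31]; exact chk31_5_5_0) a' ha h.1 h.2 b
        · exact chkRows_spec hp g31 z31_5 z31_5 2 2 rfl rfl 8 8 R31_5_5_8 (by rw [code_g31, code_h31]; exact chk31_5_5_8) a' ha h.1 h.2 b
        · exact chkRows_spec hp g31 z31_5 z31_5 2 2 rfl rfl 16 8 R31_5_5_16 (by rw [code_g31, code_h31]; exact chk31_5_5_16) a' ha h.1 h.2 b
        · exact chkRows_spec hp g31 z31_5 z31_5 2 2 rfl rfl 24 7 R31_5_5_24 (by rw [code_g31, code_h31]; exact chk31_5_5_24) a' ha h.1 h.2 b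

end Pool.Agent.Lib.MPcff1c1
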