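import Mathlib
import Pool.Agent.Lib.MP_cff1c1_al.Graph
import Pool.Agent.Lib.MP_cff1c1_al.Large3
import Pool.Agent.Lib.MP_cff1c1_al.Mid
import Pool.Agent.Lib.MP_cff1c1_al.Small11
import Pool.Agent.Lib.MP_cff1c1_al.Small19
import Pool.Agent.Lib.MP_cff1c1_al.Small31

/-! The final theorem. -/

set_option linter.all false

namespace Pool.Agent.Lib.MPcff1c1

open Equiv Equiv.Perm

def smallOk (q : ℕ) : Bool :=
  (q < 12) || (q % 4 != 3) || (q % 3 == 0) || (q % 5 == 0) || (q % 7 == 0) || (q % 11 == 0) ||
    ([19, 23, 31, 43, 47, 59, 67, 71, 79, 83, 103, 107, 127, 131, 139].contains q)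

theorem small_ok : ∀ q < 151, smallOk q = true := by decide +kernel

theorem small_list (q : ℕ) (h1 : q < 151) (h2 : 12 ≤ q) (h3 : q % 4 = 3) :
    (q ∈ [19, 23, 31, 43, 47, 59, 67, 71, 79, 83, 103, 107, 127, 131, 139] ∨ q % 3 = 0) ∨
    (q % 5 = 0 ∨ q % 7 = 0 ∨ q % 11 = 0) := by
  have h := small_ok q h1
  unfold smallOk at h
  simp only [Bool.or_eq_true, decide_eq_true_eq, bne_iff_ne, beq_iff_eq,
    List.contains_iff_mem] at h
  rcases h with (((((h | h) | h) | h) | h) | h) | h
  · omega
  · exact absurd h3 h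
  · exact Or.inl (Or.inr h)
  · exact Or.inr (Or.inl h)
  · exact Or.inr (Or.inr (Or.inl h))
  · exact Or.inr (Or.inr (Or.inr h))
  · exact Or.inl (Or.inl h)

theorem exists_good_all {p : ℕ} [Fact p.Prime] (hp4 : p % 4 = 3) (hp11 : 11 ≤ p) :
    ∃ ζ : ℕ → (ZMod p)ˣ, (∀ r ∈ RR p, orderOf (ζ r) = r) ∧ ∃ g, Good ζ g := by
  have hp : p.Prime := Fact.out
  rcases Nat.lt_or_ge p 151 with h | h
  · have h1 : p = 11 ∨ p = 19 ∨ p = 23 ∨ p = 31 ∨ p = 43 ∨ p = 47 ∨ p = 59 ∨ p = 67 ∨ p = 71 ∨
        p = 79 ∨ p = 83 ∨ p = 103 ∨ p = 107 ∨ p = 127 ∨ p = 131 ∨ p = 139 := by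
      by_cases h11 : p = 11
      · exact Or.inl h11
      right
      have h2 : p % 3 = 0 ∨ p % 5 = 0 ∨ p % 7 = 0 ∨ p % 11 = 0 ∨
          p ∈ [19, 23, 31, 43, 47, 59, 67, 71, 79, 83, 103, 107, 127, 131, 139] := by
        rcases small_list p h (by omega) hp4 with (h3 | h3) | h3 | h3 | h3
        · exact Or.inr (Or.inr (Or.inr (Or.inr h3)))
        · exact Or.inl h3
        · exact Or.inr (Or.inl h3)
        · exact Or.inr (Or.inr (Or.inl h3))
        · exact Or.inr (Or.inr (Or.inr (Or.inl h3)))
      rcases h2 with h2 | h2 | h2 | h2 | h2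
      rotate_left 4
      · simpa using h2
      · have := (Nat.prime_dvd_prime_iff_eq (by norm_num) hp).1 (Nat.dvd_of_mod_eq_zero h2)
        omega
      · have := (Nat.prime_dvd_prime_iff_eq (by norm_num) hp).1 (Nat.dvd_of_mod_eq_zero h2)
        omega
      · have := (Nat.prime_dvd_prime_iff_eq (by norm_num) hp).1 (Nat.dvd_of_mod_eq_zero h2)
        omega
      · have := (Nat.prime_dvd_prime_iff_eq (by norm_num) hp).1 (Nat.dvd_of_mod_eq_zero h2)
        omega
    rcases h1 with rfl | rfl | rfl | rfl | rfl | rfl | rfl | rfl | rfl | rfl | rfl | rfl | rfl |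
      rfl | rfl | rfl
    · exact exists_good_11
    · exact exists_good_19
    · exact exists_good_mid (by norm_num) (by norm_num) (by norm_num) num23
    · exact exists_good_31
    · exact exists_good_mid (by norm_num) (by norm_num) (by norm_num) num43
    · exact exists_good_mid (by norm_num) (by norm_num) (by norm_num) num47
    · exact exists_good_mid (by norm_num) (by norm_num) (by norm_num) num59
    · exact exists_good_mid (by norm_num) (by norm_num) (by norm_num) num67
    · exact exists_good_mid (by norm_num) (by norm_num) (by norm_num) num71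
    · exact exists_good_mid (by norm_num) (by norm_num) (by norm_num) num79
    · exact exists_good_mid (by norm_num) (by norm_num) (by norm_num) num83
    · exact exists_good_mid (by norm_num) (by norm_num) (by norm_num) num103
    · exact exists_good_mid (by norm_num) (by norm_num) (by norm_num) num107
    · exact exists_good_mid (by norm_num) (by norm_num) (by norm_num) num127
    · exact exists_good_mid (by norm_num) (by norm_num) (by norm_num) num131
    · exact exists_good_mid (by norm_num) (by norm_num) (by norm_num) num139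
  · exact exists_good_large hp4 h

/-- Adjacency or equality gives solubility. -/
theorem solvable_pair_self {G : Type} [Group G] [Finite G] (x : G) :
    Group.IsSolvable (Subgroup.closure {x, x}) := solvable_of_commute (Commute.refl x)

theorem walk_three {G : Type} [Group G] [Finite G]
    {u v : {x : G // x ∉ solubleRadical G}} (w : (solubleGraph G).Walk u v) (hw : w.length ≤ 3) :
    ∃ z z' : {x : G // x ∉ solubleRadical G},
      Group.IsSolvable (Subgroup.closure ({(u : G), (z : G)} : Set G)) ∧
      Group.IsSolvable (Subgroup.closure ({(z : G), (z' : G)} : Set G)) ∧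
      Group.IsSolvable (Subgroup.closure ({(z' : G), (v : G)} : Set G)) := by
  cases w with
  | nil => exact ⟨u, u, solvable_pair_self _, solvable_pair_self _, solvable_pair_self _⟩
  | cons h1 w =>
      cases w with
      | nil => exact ⟨u, u, solvable_pair_self _, solvable_pair_self _, h1.2⟩
      | cons h2 w =>
          cases w with
          | nil => exact ⟨u, _, solvable_pair_self _, h1.2, h2.2⟩
          | cons h3 w =>
              cases w with
              | nil => exact ⟨_, _, h1.2, h2.2, h3.2⟩
              | cons h4 w =>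
                  exfalso
                  simp only [SimpleGraph.Walk.length_cons] at hw
                  omega

theorem main {p : ℕ} [Fact p.Prime] (hp4 : p % 4 = 3) (hp11 : 11 ≤ p) :
    (solubleGraph (alternatingGroup (Fin p))).Connected ∧
      4 ≤ (solubleGraph (alternatingGroup (Fin p))).diam := by
  have hp : p.Prime := Fact.out
  haveI : NeZero p := ⟨hp.ne_zero⟩
  have hX : 5 ≤ Fintype.card (Fin p) := by rw [Fintype.card_fin]; omega
  have hconn : (solubleGraph (alternatingGroup (Fin p))).Connected :=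
    connected_alt hp4 hp11 (Fintype.card_fin p)
  refine ⟨hconn, ?_⟩
  obtain ⟨ζ, hζ, g, hg⟩ := exists_good_all hp4 hp11
  have e : ZMod p ≃ Fin p := Fintype.equivOfCardEq (by rw [ZMod.card, Fintype.card_fin])
  set E : Perm (ZMod p) ≃* Perm (Fin p) := e.permCongrHom with hE
  have hpodd : Odd p := by rw [Nat.odd_iff]; omega
  have hTne : T (1 : ZMod p) ≠ 1 := by
    intro h
    have := congrArg (fun τ : Perm (ZMod p) => τ 0) h
    simp only [T_apply, zero_add, Perm.one_apply] at this
    exact one_ne_zero this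
  have hTp : (T (1 : ZMod p)) ^ p = 1 := by
    rw [T_pow, mul_one, ZMod.natCast_self, T_zero]
  have hYne : g⁻¹ * T (1 : ZMod p) * g ≠ 1 := by
    intro h
    apply hTne
    have : T (1 : ZMod p) = g * (g⁻¹ * T (1 : ZMod p) * g) * g⁻¹ := by
      simp only [mul_assoc, mul_inv_cancel_left, mul_inv_cancel, mul_one]
    rw [this, h, mul_one, mul_inv_cancel]
  have hYp : (g⁻¹ * T (1 : ZMod p) * g) ^ p = 1 := by
    have h1 := conj_pow (a := g⁻¹) (b := T (1 : ZMod p)) (i := p)
    rw [inv_inv] at h1
    rw [h1, hTp, mul_one, inv_mul_cancel]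
  have key : ∀ x : Perm (ZMod p), x ≠ 1 → x ^ p = 1 → sign (E x) = 1 ∧ E x ≠ 1 := by
    intro x hx hxp
    constructor
    · have h1 : sign (E x) ^ p = 1 := by rw [← map_pow, ← map_pow, hxp, map_one, map_one]
      rcases Int.units_eq_one_or (sign (E x)) with h2 | h2
      · exact h2
      · rw [h2, hpodd.neg_one_pow] at h1
        exact absurd h1 (by decide)
    · intro h
      exact hx (E.injective (by rw [h, map_one]))
  let x : EV (Fin p) := ⟨E (T (1 : ZMod p)), key _ hTne hTp⟩
  let y : EV (Fin p) := ⟨E (g⁻¹ * T (1 : ZMod p) * g), key _ hYne hYp⟩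
  haveI : Nonempty {x : alternatingGroup (Fin p) // x ∉ solubleRadical (alternatingGroup (Fin p))} :=
    ⟨vtx hX x⟩
  have htop : (solubleGraph (alternatingGroup (Fin p))).ediam ≠ ⊤ :=
    SimpleGraph.connected_iff_ediam_ne_top.1 hconn
  have hle := SimpleGraph.dist_le_diam htop (u := vtx hX x) (v := vtx hX y)
  by_contra hcon
  push Not at hcon
  obtain ⟨w, hw⟩ := hconn.exists_walk_length_eq_dist (vtx hX x) (vtx hX y)
  obtain ⟨a, b, h1, h2, h3⟩ := walk_three w (by omega)
  obtain ⟨z, rfl⟩ := vtx_surjective hX a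
  obtain ⟨z', rfl⟩ := vtx_surjective hX b
  rw [solvable_vtx_iff] at h1 h2 h3
  set u : Perm (ZMod p) := E.symm z.1 with hu
  set u' : Perm (ZMod p) := E.symm z'.1 with hu'
  have hz : z.1 = E u := by rw [hu, MulEquiv.apply_symm_apply]
  have hz' : z'.1 = E u' := by rw [hu', MulEquiv.apply_symm_apply]
  have hsE : ∀ v : Perm (ZMod p), sign (E v) = sign v := fun v => Perm.sign_permCongr e v
  have g1 := (solvable_map_iff E.toMonoidHom E.injective (T (1 : ZMod p)) u).1
    (by
      change Group.IsSolvable (Subgroup.closure {E (T (1 : ZMod p)), E u})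
      rw [← hz]; exact h1)
  have g2 := (solvable_map_iff E.toMonoidHom E.injective u u').1
    (by
      change Group.IsSolvable (Subgroup.closure {E u, E u'})
      rw [← hz, ← hz']; exact h2)
  have g3 := (solvable_map_iff E.toMonoidHom E.injective u' (g⁻¹ * T (1 : ZMod p) * g)).1
    (by
      change Group.IsSolvable (Subgroup.closure {E u', E (g⁻¹ * T (1 : ZMod p) * g)})
      rw [← hz']; exact h3)
  refine no_path hp4 (by omega) ζ hζ hg (z := u) (z' := u') ?_ ?_ ?_ ?_ g1 g2 g3
  · rw [← hsE, ← hz]; exact z.2.1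
  · rw [← hsE, ← hz']; exact z'.2.1
  · intro h
    apply z.2.2
    rw [hz, h, map_one]
  · intro h
    apply z'.2.2
    rw [hz', h, map_one]

end Pool.Agent.Lib.MPcff1c1
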