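import Mathlib
import Pool.Agent.Lib.MP_cff1c1_al.Code

/-! Certificates for the prime 31. -/

set_option linter.all false

namespace Pool.Agent.Lib.MPcff1c1

def G31 : ℕ := 0x58985068a0007008b078c86030f04840d0b8e8208810c018d8e0908028a838

def H31 : ℕ := 0x8860283070a04068b008d0e8205018a8c0d898f0e08078009010583848b8c8

end Pool.Agent.Lib.MPcff1c1
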